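import Mathlib

set_option autoImplicit false

open Filter Topology

namespace Pool.Agent.Helper96K9.MGN

/-- one row -/
abbrev Y := Σ k : ℕ, Bool × Fin (2 ^ k)

/-- the underlying countable set: infinitely many rows -/
abbrev X := ℕ × Y

/-- the zones: a residue class modulo `2 ^ i` on the levels `≥ i` -/
def S (i r : ℕ) : Set Y := {y | i ≤ y.1 ∧ (y.2.2 : ℕ) % 2 ^ i = r}

/-- a subset of a row as a subset of `X` -/
def emb (m : ℕ) (u : Set Y) : Set X := {x | x.1 = m ∧ x.2 ∈ u}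

/-- the `m`-th row of a set -/
def row (m : ℕ) (a : Set X) : Set Y := {y | (m, y) ∈ a}

/-- number of points of sign `s` and level `k` -/
noncomputable def cnt (s : Bool) (k : ℕ) (u : Set Y) : ℕ :=
  {t : Fin (2 ^ k) | (⟨k, (s, t)⟩ : Y) ∈ u}.ncard

/-- signed count on level `k` -/
noncomputable def dif (k : ℕ) (u : Set Y) : ℤ := (cnt true k u : ℤ) - cnt false k u

/-- both densities exist and agree -/
def DBw (u : Set Y) (l : ℝ) : Prop :=
  ∀ s, Tendsto (fun k : ℕ => (cnt s k u : ℝ) / 2 ^ k) atTop (𝓝 l)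

def DB (u : Set Y) : Prop := ∃ l : ℝ, DBw u l

def BalE (u : Set Y) : Prop := ∀ᶠ k in atTop, dif k u = 0

def HasZone (u : Set Y) : Prop := ∃ i r, r < 2 ^ i ∧ S i r ⊆ u

def Fine (u : Set Y) : Prop := BalE u ∧ (u = ∅ ∨ HasZone u)

section cnt

lemma cnt_union {s : Bool} {k : ℕ} {u v : Set Y} (h : Disjoint u v) :
    cnt s k (u ∪ v) = cnt s k u + cnt s k v := by
  unfold cnt
  rw [← Set.ncard_union_eq]
  · rfl
  · rw [Set.disjoint_left]
    intro t h1 h2
    exact Set.disjoint_left.1 h h1 h2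

@[simp] lemma cnt_empty {s : Bool} {k : ℕ} : cnt s k ∅ = 0 := by
  simp [cnt]

lemma cnt_mono {s : Bool} {k : ℕ} {u v : Set Y} (h : u ⊆ v) : cnt s k u ≤ cnt s k v := by
  unfold cnt
  exact Set.ncard_le_ncard (fun t ht => h ht)

lemma cnt_sdiff {s : Bool} {k : ℕ} {u v : Set Y} (h : v ⊆ u) :
    cnt s k (u \ v) + cnt s k v = cnt s k u := by
  rw [← cnt_union Set.disjoint_sdiff_left, Set.sdiff_union_of_subset h]

lemma cnt_univ {s : Bool} {k : ℕ} : cnt s k Set.univ = 2 ^ k := by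
  unfold cnt
  simp [Set.ncard_univ]

lemma cnt_congr {s : Bool} {k : ℕ} {u v : Set Y} (h : ∀ t, (⟨k, (s, t)⟩ : Y) ∈ u ↔ (⟨k, (s, t)⟩ : Y) ∈ v) :
    cnt s k u = cnt s k v := by
  unfold cnt
  congr 1
  ext t
  exact h t

lemma dif_union {k : ℕ} {u v : Set Y} (h : Disjoint u v) : dif k (u ∪ v) = dif k u + dif k v := by
  unfold dif
  rw [cnt_union h, cnt_union h]
  push_cast
  ring

@[simp] lemma dif_empty {k : ℕ} : dif k ∅ = 0 := by
  simp [dif]

lemma dif_sdiff {k : ℕ} {u v : Set Y} (h : v ⊆ u) : dif k (u \ v) = dif k u - dif k v := by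
  have := dif_union (k := k) (Set.disjoint_sdiff_left (s := v) (t := u))
  rw [Set.sdiff_union_of_subset h] at this
  linarith

lemma dif_univ {k : ℕ} : dif k Set.univ = 0 := by
  simp [dif, cnt_univ]

lemma dif_congr {k : ℕ} {u v : Set Y} (h : ∀ y : Y, y.1 = k → (y ∈ u ↔ y ∈ v)) :
    dif k u = dif k v := by
  unfold dif
  rw [cnt_congr (fun t => h _ rfl), cnt_congr (fun t => h _ rfl)]

end cnt

section DB

lemma DBw.union {u v : Set Y} {l l' : ℝ} (hu : DBw u l) (hv : DBw v l') (h : Disjoint u v) :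
    DBw (u ∪ v) (l + l') := by
  intro s
  have := (hu s).add (hv s)
  refine this.congr (fun k => ?_)
  rw [cnt_union h]
  push_cast
  ring

lemma DB.union {u v : Set Y} (hu : DB u) (hv : DB v) (h : Disjoint u v) : DB (u ∪ v) := by
  obtain ⟨l, hl⟩ := hu
  obtain ⟨l', hl'⟩ := hv
  exact ⟨_, hl.union hl' h⟩

lemma DBw.sdiff {u v : Set Y} {l l' : ℝ} (hu : DBw u l) (hv : DBw v l') (h : v ⊆ u) :
    DBw (u \ v) (l - l') := by
  intro s
  have := (hu s).sub (hv s)
  refine this.congr (fun k => ?_)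
  rw [← cnt_sdiff h]
  push_cast
  ring

lemma DB.sdiff {u v : Set Y} (hu : DB u) (hv : DB v) (h : v ⊆ u) : DB (u \ v) := by
  obtain ⟨l, hl⟩ := hu
  obtain ⟨l', hl'⟩ := hv
  exact ⟨_, hl.sdiff hl' h⟩

lemma DBw.nonneg {u : Set Y} {l : ℝ} (hu : DBw u l) : 0 ≤ l :=
  ge_of_tendsto (hu true) (Eventually.of_forall (fun k => by positivity))

lemma DBw.unique {u : Set Y} {l l' : ℝ} (hu : DBw u l) (hu' : DBw u l') : l = l' :=
  tendsto_nhds_unique (hu true) (hu' true)

lemma DBw_of_eventually_zero {u : Set Y} (h : ∀ᶠ k in atTop, ∀ s, cnt s k u = 0) : DBw u 0 := by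
  intro s
  refine Tendsto.congr' ?_ tendsto_const_nhds
  filter_upwards [h] with k hk
  simp [hk s]

lemma DBw_empty : DBw ∅ 0 := DBw_of_eventually_zero (Eventually.of_forall (fun _ _ => cnt_empty))

lemma DBw.mono_zero {u v : Set Y} (hv : DBw v 0) (h : u ⊆ v) : DBw u 0 := by
  intro s
  refine squeeze_zero (fun k => by positivity) (fun k => ?_) (hv s)
  have := cnt_mono (s := s) (k := k) h
  gcongr

/-- the difference is negligible -/
lemma DBw.dif {u : Set Y} {l : ℝ} (hu : DBw u l) :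
    Tendsto (fun k : ℕ => ((dif k u : ℤ) : ℝ) / 2 ^ k) atTop (𝓝 0) := by
  have := (hu true).sub (hu false)
  rw [sub_self] at this
  refine this.congr (fun k => ?_)
  unfold MGN.dif
  push_cast
  ring

end DB

section Fine

lemma BalE.union {u v : Set Y} (hu : BalE u) (hv : BalE v) (h : Disjoint u v) : BalE (u ∪ v) := by
  filter_upwards [hu, hv] with k h1 h2
  rw [dif_union h, h1, h2, add_zero]

lemma BalE.sdiff {u v : Set Y} (hu : BalE u) (hv : BalE v) (h : v ⊆ u) : BalE (u \ v) := by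
  filter_upwards [hu, hv] with k h1 h2
  rw [dif_sdiff h, h1, h2, sub_zero]

lemma HasZone.mono {u v : Set Y} (hu : HasZone u) (h : u ⊆ v) : HasZone v := by
  obtain ⟨i, r, h1, h2⟩ := hu
  exact ⟨i, r, h1, h2.trans h⟩

lemma fine_empty : Fine ∅ := ⟨Eventually.of_forall (fun _ => dif_empty), Or.inl rfl⟩

lemma Fine.union {u v : Set Y} (hu : Fine u) (hv : Fine v) (h : Disjoint u v) : Fine (u ∪ v) := by
  refine ⟨hu.1.union hv.1 h, ?_⟩
  rcases hu.2 with h1 | h1
  · rcases hv.2 with h2 | h2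
    · left
      rw [h1, h2, Set.empty_union]
    · exact Or.inr (h2.mono Set.subset_union_right)
  · exact Or.inr (h1.mono Set.subset_union_left)

lemma S_zero : S 0 0 = Set.univ := by
  ext y
  simp [S, Nat.mod_one]

lemma hasZone_univ : HasZone Set.univ := ⟨0, 0, by simp, Set.subset_univ _⟩

lemma fine_univ : Fine Set.univ :=
  ⟨Eventually.of_forall (fun _ => dif_univ), Or.inr hasZone_univ⟩

end Fine

section rows

@[simp] lemma mem_row {m : ℕ} {a : Set X} {y : Y} : y ∈ row m a ↔ (m, y) ∈ a := Iff.rfl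
@[simp] lemma mem_emb {m : ℕ} {u : Set Y} {x : X} : x ∈ emb m u ↔ x.1 = m ∧ x.2 ∈ u := Iff.rfl

@[simp] lemma row_union {m : ℕ} {a b : Set X} : row m (a ∪ b) = row m a ∪ row m b := rfl
@[simp] lemma row_inter {m : ℕ} {a b : Set X} : row m (a ∩ b) = row m a ∩ row m b := rfl
@[simp] lemma row_sdiff {m : ℕ} {a b : Set X} : row m (a \ b) = row m a \ row m b := rfl
@[simp] lemma row_compl {m : ℕ} {a : Set X} : row m aᶜ = (row m a)ᶜ := rfl
@[simp] lemma row_empty {m : ℕ} : row m ∅ = ∅ := rfl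

@[simp] lemma row_emb_self {m : ℕ} {u : Set Y} : row m (emb m u) = u := by
  ext y
  simp

lemma row_emb_ne {m m' : ℕ} (h : m' ≠ m) {u : Set Y} : row m' (emb m u) = ∅ := by
  ext y
  simp [h]

lemma row_mono {m : ℕ} {a b : Set X} (h : a ⊆ b) : row m a ⊆ row m b := fun _ hy => h hy

lemma emb_mono {m : ℕ} {u v : Set Y} (h : u ⊆ v) : emb m u ⊆ emb m v := fun _ hx => ⟨hx.1, h hx.2⟩

lemma emb_row {m : ℕ} {a : Set X} : emb m (row m a) = a ∩ emb m Set.univ := by
  ext ⟨n, y⟩
  simp only [mem_emb, mem_row, Set.mem_inter_iff, Set.mem_univ, and_true]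
  constructor
  · rintro ⟨rfl, h⟩
    exact ⟨h, rfl⟩
  · rintro ⟨h, rfl⟩
    exact ⟨rfl, h⟩

lemma emb_union {m : ℕ} {u v : Set Y} : emb m (u ∪ v) = emb m u ∪ emb m v := by
  ext x
  simp only [mem_emb, Set.mem_union]
  tauto

lemma emb_inter {m : ℕ} {u v : Set Y} : emb m (u ∩ v) = emb m u ∩ emb m v := by
  ext x
  simp only [mem_emb, Set.mem_inter_iff]
  tauto

lemma emb_sdiff {m : ℕ} {u v : Set Y} : emb m (u \ v) = emb m u \ emb m v := by
  ext x
  simp only [mem_emb, Set.mem_sdiff]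
  tauto

@[simp] lemma emb_empty {m : ℕ} : emb m ∅ = ∅ := by
  ext x
  simp

lemma emb_disjoint {m : ℕ} {u v : Set Y} (h : Disjoint u v) : Disjoint (emb m u) (emb m v) := by
  rw [Set.disjoint_left] at h ⊢
  exact fun x h1 h2 => h h1.2 h2.2

lemma row_disjoint {m : ℕ} {a b : Set X} (h : Disjoint a b) : Disjoint (row m a) (row m b) := by
  rw [Set.disjoint_left] at h ⊢
  exact fun x h1 h2 => h h1 h2

end rows

/-- counting residue classes -/
lemma card_periodic (i q : ℕ) (R : Set ℕ) [DecidablePred (· ∈ R)] :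
    ((Finset.range (2 ^ i * q)).filter (fun t => t % 2 ^ i ∈ R)).card =
      q * ((Finset.range (2 ^ i)).filter (fun t => t ∈ R)).card := by
  induction q with
  | zero => simp
  | succ q ih =>
    have h1 : Finset.range (2 ^ i * (q + 1)) = Finset.range (2 ^ i * q) ∪
        Finset.Ico (2 ^ i * q) (2 ^ i * q + 2 ^ i) := by
      ext t
      simp only [Finset.mem_range, Finset.mem_union, Finset.mem_Ico]
      rw [Nat.mul_succ]
      generalize 2 ^ i * q = a
      generalize 2 ^ i = b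
      omega
    rw [h1, Finset.filter_union, Finset.card_union_of_disjoint, ih]
    · have h2 : (fun t : ℕ => t % 2 ^ i ∈ R).Periodic (2 ^ i) := by
        intro t
        simp
      rw [Nat.filter_Ico_card_eq_of_periodic _ _ _ h2, Nat.count_eq_card_filter_range]
      have h3 : (Finset.range (2 ^ i)).filter (fun t => t % 2 ^ i ∈ R) =
          (Finset.range (2 ^ i)).filter (fun t => t ∈ R) := by
        apply Finset.filter_congr
        intro t ht
        rw [Finset.mem_range] at ht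
        rw [Nat.mod_eq_of_lt ht]
      rw [h3]
      ring
    · rw [Finset.disjoint_left]
      intro t ht ht'
      simp only [Finset.mem_filter, Finset.mem_range, Finset.mem_Ico] at ht ht'
      exact absurd ht.1 (not_lt.2 ht'.1.1)

/-- counting a set that is given by residues on level `k` -/
lemma cnt_residue {s : Bool} {k i : ℕ} (hik : i ≤ k) {u : Set Y} {R : Set ℕ} [DecidablePred (· ∈ R)]
    (h : ∀ t : Fin (2 ^ k), (⟨k, (s, t)⟩ : Y) ∈ u ↔ (t : ℕ) % 2 ^ i ∈ R) :
    cnt s k u = 2 ^ (k - i) * ((Finset.range (2 ^ i)).filter (fun t => t ∈ R)).card := by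
  classical
  rw [← card_periodic, ← pow_add, Nat.add_sub_cancel' hik]
  unfold cnt
  rw [Set.ncard_eq_toFinset_card']
  refine Finset.card_bij (fun (t : Fin (2 ^ k)) _ => (t : ℕ)) ?_ ?_ ?_
  · intro t ht
    simp only [Set.toFinset_ofPred, Finset.mem_filter, Finset.mem_univ, true_and] at ht
    simp only [Finset.mem_filter, Finset.mem_range]
    exact ⟨t.2, (h t).1 ht⟩
  · intro t _ t' _ htt
    exact Fin.ext htt
  · intro t ht
    simp only [Finset.mem_filter, Finset.mem_range] at ht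
    refine ⟨⟨t, ht.1⟩, ?_, rfl⟩
    simp only [Set.toFinset_ofPred, Finset.mem_filter, Finset.mem_univ, true_and]
    exact (h ⟨t, ht.1⟩).2 ht.2

lemma cnt_S {s : Bool} {k i r : ℕ} (hr : r < 2 ^ i) : cnt s k (S i r) = if i ≤ k then 2 ^ (k - i) else 0 := by
  classical
  split_ifs with h
  · rw [cnt_residue h (R := {r})]
    · have : (Finset.range (2 ^ i)).filter (fun t => t ∈ ({r} : Set ℕ)) = {r} := by
        ext t
        simp only [Finset.mem_filter, Finset.mem_range, Set.mem_singleton_iff,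
          Finset.mem_singleton]
        constructor
        · exact fun h => h.2
        · rintro rfl
          exact ⟨hr, rfl⟩
      rw [this]
      simp
    · intro t
      simp [S, h]
  · unfold cnt
    have : {t : Fin (2 ^ k) | (⟨k, (s, t)⟩ : Y) ∈ S i r} = ∅ := by
      ext t
      simp [S, h]
    rw [this, Set.ncard_empty]

lemma cnt_S_le {s : Bool} {k i r : ℕ} (hr : r < 2 ^ i) : (cnt s k (S i r) : ℝ) / 2 ^ k ≤ 1 / 2 ^ i := by
  rw [cnt_S hr]
  split_ifs with h
  · rw [div_le_div_iff₀ (by positivity) (by positivity)]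
    push_cast
    rw [← pow_add, Nat.sub_add_cancel h, one_mul]
  · simp

lemma DBw_S {i r : ℕ} (hr : r < 2 ^ i) : DBw (S i r) (1 / 2 ^ i) := by
  intro s
  refine Tendsto.congr' ?_ tendsto_const_nhds
  filter_upwards [eventually_ge_atTop i] with k hk
  rw [cnt_S hr, if_pos hk, div_eq_div_iff (by positivity) (by positivity)]
  push_cast
  rw [← pow_add, Nat.sub_add_cancel hk, one_mul]

/-- subzones -/
lemma S_sub {i r N j : ℕ} (hr : r < 2 ^ i) : S (i + N) (r + j * 2 ^ i) ⊆ S i r := by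
  rintro y ⟨h1, h2⟩
  refine ⟨by omega, ?_⟩
  have h3 : (y.2.2 : ℕ) % 2 ^ (i + N) % 2 ^ i = (y.2.2 : ℕ) % 2 ^ i :=
    Nat.mod_mod_of_dvd _ (pow_dvd_pow _ (Nat.le_add_right _ _))
  rw [← h3, h2, Nat.add_mul_mod_self_right, Nat.mod_eq_of_lt hr]

lemma S_disj {i r r' : ℕ} (h : r ≠ r') : Disjoint (S i r) (S i r') := by
  rw [Set.disjoint_left]
  rintro y h1 h2
  exact h (h1.2.symm.trans h2.2)

end Pool.Agent.Helper96K9.MGN
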