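import Pool.Agent.Helper96K9.MGN.A

set_option autoImplicit false

open Filter Topology

namespace Pool.Agent.Helper96K9.MGN

section gen
variable {Z : Type*}

lemma union_mem {A : BooleanSubalgebra (Set Z)} {a b : Set Z} (ha : a ∈ A) (hb : b ∈ A) :
    a ∪ b ∈ A := A.supClosed ha hb

lemma inter_mem {A : BooleanSubalgebra (Set Z)} {a b : Set Z} (ha : a ∈ A) (hb : b ∈ A) :
    a ∩ b ∈ A := A.infClosed ha hb

lemma sdiff_mem {A : BooleanSubalgebra (Set Z)} {a b : Set Z} (ha : a ∈ A) (hb : b ∈ A) :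
    a \ b ∈ A := BooleanSubalgebra.sdiff_mem ha hb

lemma compl_mem {A : BooleanSubalgebra (Set Z)} {a : Set Z} (ha : a ∈ A) :
    aᶜ ∈ A := BooleanSubalgebra.compl_mem ha

lemma empty_mem (A : BooleanSubalgebra (Set Z)) : (∅ : Set Z) ∈ A := A.bot_mem'

lemma univ_mem (A : BooleanSubalgebra (Set Z)) : (Set.univ : Set Z) ∈ A := BooleanSubalgebra.top_mem

lemma biUnion_mem {ι : Type*} {A : BooleanSubalgebra (Set Z)} (s : Finset ι) {f : ι → Set Z}
    (h : ∀ i ∈ s, f i ∈ A) : (⋃ i ∈ s, f i) ∈ A := by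
  classical
  induction s using Finset.induction_on with
  | empty => simpa using empty_mem A
  | insert a s ha ih =>
    rw [Finset.set_biUnion_insert]
    exact union_mem (h a (Finset.mem_insert_self _ _)) (ih (fun i hi => h i (Finset.mem_insert_of_mem hi)))

/-- the simple extension of `A` by `a` -/
def ext (A : BooleanSubalgebra (Set Z)) (a : Set Z) : BooleanSubalgebra (Set Z) where
  carrier := {d | ∃ c ∈ A, ∃ c' ∈ A, d = (c ∩ a) ∪ (c' \ a)}
  supClosed' := by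
    rintro _ ⟨c, hc, c', hc', rfl⟩ _ ⟨d, hd, d', hd', rfl⟩
    refine ⟨c ∪ d, union_mem hc hd, c' ∪ d', union_mem hc' hd', ?_⟩
    ext x
    simp only [Set.sup_eq_union, Set.mem_union, Set.mem_inter_iff, Set.mem_sdiff]
    tauto
  infClosed' := by
    rintro _ ⟨c, hc, c', hc', rfl⟩ _ ⟨d, hd, d', hd', rfl⟩
    refine ⟨c ∩ d, inter_mem hc hd, c' ∩ d', inter_mem hc' hd', ?_⟩
    ext x
    simp only [Set.inf_eq_inter, Set.mem_union, Set.mem_inter_iff, Set.mem_sdiff]
    tauto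
  compl_mem' := by
    rintro _ ⟨c, hc, c', hc', rfl⟩
    refine ⟨cᶜ, compl_mem hc, c'ᶜ, compl_mem hc', ?_⟩
    ext x
    simp only [Set.mem_compl_iff, Set.mem_union, Set.mem_inter_iff, Set.mem_sdiff]
    tauto
  bot_mem' := ⟨∅, empty_mem A, ∅, empty_mem A, by simp⟩

lemma mem_ext {A : BooleanSubalgebra (Set Z)} {a d : Set Z} :
    d ∈ ext A a ↔ ∃ c ∈ A, ∃ c' ∈ A, d = (c ∩ a) ∪ (c' \ a) := Iff.rfl

lemma le_ext (A : BooleanSubalgebra (Set Z)) (a : Set Z) : A ≤ ext A a := by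
  intro c hc
  refine ⟨c, hc, c, hc, ?_⟩
  rw [Set.inter_union_sdiff]

lemma self_mem_ext (A : BooleanSubalgebra (Set Z)) (a : Set Z) : a ∈ ext A a :=
  ⟨Set.univ, univ_mem A, ∅, empty_mem A, by simp⟩

lemma ext_le {A B : BooleanSubalgebra (Set Z)} {a : Set Z} (h : A ≤ B) (ha : a ∈ B) :
    ext A a ≤ B := by
  rintro _ ⟨c, hc, c', hc', rfl⟩
  exact union_mem (inter_mem (h hc) ha) (sdiff_mem (h hc') ha)

lemma ext_eq_of_mem {A : BooleanSubalgebra (Set Z)} {a : Set Z} (ha : a ∈ A) : ext A a = A :=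
  le_antisymm (ext_le le_rfl ha) (le_ext A a)

/-- the criterion for minimality -/
def MinE (A : BooleanSubalgebra (Set Z)) (a : Set Z) : Prop := ∀ c ∈ A, c ∩ a ∈ A ∨ a \ c ∈ A

lemma MinE.minimal {A : BooleanSubalgebra (Set Z)} {a : Set Z} (h : MinE A a)
    {B : BooleanSubalgebra (Set Z)} (h1 : A ≤ B) (h2 : B ≤ ext A a) : B = A ∨ B = ext A a := by
  by_cases hBA : B ≤ A
  · exact Or.inl (le_antisymm hBA h1)
  right
  refine le_antisymm h2 (ext_le h1 ?_)
  rw [SetLike.not_le_iff_exists] at hBA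
  obtain ⟨d, hdB, hdA⟩ := hBA
  obtain ⟨c, hc, c', hc', rfl⟩ := h2 hdB
  rcases h c hc with h3 | h3 <;> rcases h c' hc' with h4 | h4
  · exfalso
    apply hdA
    have : (c ∩ a) ∪ (c' \ a) = (c ∩ a) ∪ (c' \ (c' ∩ a)) := by
      ext x
      simp only [Set.mem_union, Set.mem_inter_iff, Set.mem_sdiff]
      tauto
    rw [this]
    exact union_mem h3 (sdiff_mem hc' h4)
  · have : a = (a \ c') ∪ (c' \ (((c ∩ a) ∪ (c' \ a)) \ (c ∩ a))) := by
      ext x
      simp only [Set.mem_union, Set.mem_inter_iff, Set.mem_sdiff]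
      tauto
    rw [this]
    exact union_mem (h1 h4) (sdiff_mem (h1 hc') (sdiff_mem hdB (h1 h3)))
  · have : a = (a \ c) ∪ (((c ∩ a) ∪ (c' \ a)) \ (c' \ (c' ∩ a))) := by
      ext x
      simp only [Set.mem_union, Set.mem_inter_iff, Set.mem_sdiff]
      tauto
    rw [this]
    exact union_mem (h1 h3) (sdiff_mem hdB (sdiff_mem (h1 hc') (h1 h4)))
  · exfalso
    apply hdA
    have : (c ∩ a) ∪ (c' \ a) = (c' ∪ (a \ c')) \ (a \ c) := by
      ext x
      simp only [Set.mem_union, Set.mem_inter_iff, Set.mem_sdiff]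
      tauto
    rw [this]
    exact sdiff_mem (union_mem hc' h4) h3

/-- finitely additive and bounded on `A` -/
def Adm (A : BooleanSubalgebra (Set Z)) (μ : Set Z → ℝ) : Prop :=
  (∀ a ∈ A, ∀ b ∈ A, Disjoint a b → μ (a ∪ b) = μ a + μ b) ∧ ∃ K : ℝ, ∀ a ∈ A, |μ a| ≤ K

section adm
variable {A : BooleanSubalgebra (Set Z)} {μ : Set Z → ℝ}

lemma Adm.empty (h : Adm A μ) : μ ∅ = 0 := by
  have := h.1 ∅ (empty_mem A) ∅ (empty_mem A) disjoint_bot_left
  simp at this
  exact this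

lemma Adm.union (h : Adm A μ) {a b : Set Z} (ha : a ∈ A) (hb : b ∈ A) (hab : Disjoint a b) :
    μ (a ∪ b) = μ a + μ b := h.1 a ha b hb hab

lemma Adm.split (h : Adm A μ) {a : Set Z} (ha : a ∈ A) {b : Set Z} (hb : b ∈ A) :
    μ a = μ (a ∩ b) + μ (a \ b) := by
  rw [← h.union (inter_mem ha hb) (sdiff_mem ha hb) Set.disjoint_sdiff_inter.symm,
    Set.inter_union_sdiff]

lemma Adm.sub (h : Adm A μ) {a b : Set Z} (ha : a ∈ A) (hb : b ∈ A) (hab : b ⊆ a) :
    μ a = μ b + μ (a \ b) := by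
  have := h.split ha hb
  rwa [Set.inter_eq_right.2 hab] at this

lemma Adm.biUnion {ι : Type*} (h : Adm A μ) (s : Finset ι) (f : ι → Set Z)
    (hf : ∀ i ∈ s, f i ∈ A) (hd : ∀ i ∈ s, ∀ j ∈ s, i ≠ j → Disjoint (f i) (f j)) :
    μ (⋃ i ∈ s, f i) = ∑ i ∈ s, μ (f i) := by
  classical
  induction s using Finset.induction_on with
  | empty => simp [h.empty]
  | insert a s ha ih =>
    rw [Finset.set_biUnion_insert, Finset.sum_insert ha, h.union (hf a (Finset.mem_insert_self _ _))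
      (biUnion_mem s (fun i hi => hf i (Finset.mem_insert_of_mem hi))),
      ih (fun i hi => hf i (Finset.mem_insert_of_mem hi)) (fun i hi j hj hij =>
        hd i (Finset.mem_insert_of_mem hi) j (Finset.mem_insert_of_mem hj) hij)]
    rw [Set.disjoint_iUnion₂_right]
    intro i hi
    apply hd a (Finset.mem_insert_self _ _) i (Finset.mem_insert_of_mem hi)
    rintro rfl
    exact ha hi

lemma Adm.sum_abs {ι : Type*} (h : Adm A μ) {K : ℝ} (hK : ∀ a ∈ A, |μ a| ≤ K) (s : Finset ι)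
    (f : ι → Set Z) (hf : ∀ i ∈ s, f i ∈ A)
    (hd : ∀ i ∈ s, ∀ j ∈ s, i ≠ j → Disjoint (f i) (f j)) :
    ∑ i ∈ s, |μ (f i)| ≤ 2 * K := by
  classical
  have key : ∀ t ⊆ s, |∑ i ∈ t, μ (f i)| ≤ K := by
    intro t ht
    rw [← h.biUnion t f (fun i hi => hf i (ht hi)) (fun i hi j hj => hd i (ht hi) j (ht hj))]
    exact hK _ (biUnion_mem t (fun i hi => hf i (ht hi)))
  rw [← Finset.sum_filter_add_sum_filter_not s (fun i => 0 ≤ μ (f i))]
  have h1 : ∑ i ∈ s with 0 ≤ μ (f i), |μ (f i)| ≤ K := by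
    have : ∑ i ∈ s with 0 ≤ μ (f i), |μ (f i)| = ∑ i ∈ s with 0 ≤ μ (f i), μ (f i) :=
      Finset.sum_congr rfl (fun i hi => abs_of_nonneg (Finset.mem_filter.1 hi).2)
    rw [this]
    exact (le_abs_self _).trans (key _ (Finset.filter_subset _ _))
  have h2 : ∑ i ∈ s with ¬ 0 ≤ μ (f i), |μ (f i)| ≤ K := by
    have : ∑ i ∈ s with ¬ 0 ≤ μ (f i), |μ (f i)| = - ∑ i ∈ s with ¬ 0 ≤ μ (f i), μ (f i) := by
      rw [← Finset.sum_neg_distrib]
      exact Finset.sum_congr rfl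
        (fun i hi => abs_of_nonpos (le_of_not_ge (Finset.mem_filter.1 hi).2))
    rw [this]
    exact (neg_le_abs _).trans (key _ (Finset.filter_subset _ _))
  linarith

/-- total variation on `c` -/
noncomputable def var (A : BooleanSubalgebra (Set Z)) (μ : Set Z → ℝ) (c : Set Z) : ℝ :=
  sSup {v | ∃ b ∈ A, b ⊆ c ∧ v = μ b - μ (c \ b)}

lemma Adm.var_bdd (h : Adm A μ) {c : Set Z} (hc : c ∈ A) :
    BddAbove {v | ∃ b ∈ A, b ⊆ c ∧ v = μ b - μ (c \ b)} := by
  obtain ⟨K, hK⟩ := h.2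
  refine ⟨2 * K, ?_⟩
  rintro v ⟨b, hb, -, rfl⟩
  have h1 := abs_le.1 (hK b hb)
  have h2 := abs_le.1 (hK (c \ b) (sdiff_mem hc hb))
  linarith [h1.2, h2.1]

lemma Adm.le_var' (h : Adm A μ) {c b : Set Z} (hc : c ∈ A) (hb : b ∈ A) (hbc : b ⊆ c) :
    μ b - μ (c \ b) ≤ var A μ c := le_csSup (h.var_bdd hc) ⟨b, hb, hbc, rfl⟩

lemma Adm.le_var (h : Adm A μ) {c b : Set Z} (hc : c ∈ A) (hb : b ∈ A) (hbc : b ⊆ c) :
    |μ b| ≤ var A μ c := by
  have h1 := h.le_var' hc hb hbc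
  have h2 := h.le_var' hc (sdiff_mem hc hb) Set.sdiff_subset
  have h3 := h.le_var' hc hc subset_rfl
  have h4 := h.le_var' hc (empty_mem A) (Set.empty_subset c)
  have h5 := h.sub hc hb hbc
  rw [Set.sdiff_sdiff_cancel_left hbc] at h2
  rw [Set.sdiff_self, h.empty] at h3
  rw [Set.sdiff_empty, h.empty] at h4
  rw [abs_le]
  constructor <;> linarith

lemma Adm.var_nonneg (h : Adm A μ) {c : Set Z} (hc : c ∈ A) : 0 ≤ var A μ c :=
  (abs_nonneg _).trans (h.le_var hc (empty_mem A) (Set.empty_subset c))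

lemma var_le {c : Set Z} {M : ℝ} (h : ∀ b ∈ A, b ⊆ c → μ b - μ (c \ b) ≤ M) :
    var A μ c ≤ M := by
  apply csSup_le
  · exact ⟨_, ∅, empty_mem A, Set.empty_subset c, rfl⟩
  · rintro v ⟨b, hb, hbc, rfl⟩
    exact h b hb hbc

lemma Adm.var_add (h : Adm A μ) {c d : Set Z} (hc : c ∈ A) (hd : d ∈ A) (hcd : Disjoint c d) :
    var A μ (c ∪ d) = var A μ c + var A μ d := by
  apply le_antisymm
  · apply var_le
    intro b hb hbc
    have e1 := h.le_var' hc (inter_mem hb hc) Set.inter_subset_right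
    have e2 := h.le_var' hd (inter_mem hb hd) Set.inter_subset_right
    have e3 : b = (b ∩ c) ∪ (b ∩ d) := by rw [← Set.inter_union_distrib_left, Set.inter_eq_left.2 hbc]
    have e4 : (c ∪ d) \ b = (c \ (b ∩ c)) ∪ (d \ (b ∩ d)) := by
      ext x
      simp only [Set.mem_union, Set.mem_inter_iff, Set.mem_sdiff]
      tauto
    have e5 := h.union (inter_mem hb hc) (inter_mem hb hd)
      (Set.disjoint_of_subset Set.inter_subset_right Set.inter_subset_right hcd)
    have e6 := h.union (sdiff_mem hc (inter_mem hb hc)) (sdiff_mem hd (inter_mem hb hd))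
      (Set.disjoint_of_subset Set.sdiff_subset Set.sdiff_subset hcd)
    rw [← e3] at e5
    rw [← e4] at e6
    linarith
  · have key : ∀ b ∈ A, b ⊆ c → μ b - μ (c \ b) ≤ var A μ (c ∪ d) - var A μ d := by
      intro b hb hbc
      have : var A μ d ≤ var A μ (c ∪ d) - (μ b - μ (c \ b)) := by
        apply var_le
        intro b' hb' hbd
        have hbb : Disjoint b b' := Set.disjoint_of_subset hbc hbd hcd
        have e1 := h.le_var' (union_mem hc hd) (union_mem hb hb') (Set.union_subset_union hbc hbd)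
        have e2 : (c ∪ d) \ (b ∪ b') = (c \ b) ∪ (d \ b') := by
          ext x
          have h1 : x ∈ c → x ∉ d := fun h1 h2 => Set.disjoint_left.1 hcd h1 h2
          have h2 : x ∈ b → x ∈ c := fun h => hbc h
          have h3 : x ∈ b' → x ∈ d := fun h => hbd h
          simp only [Set.mem_union, Set.mem_sdiff]
          tauto
        rw [e2, h.union hb hb' hbb, h.union (sdiff_mem hc hb) (sdiff_mem hd hb')
          (Set.disjoint_of_subset Set.sdiff_subset Set.sdiff_subset hcd)] at e1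
        linarith
      linarith
    have := var_le key
    linarith

lemma Adm.var_split (h : Adm A μ) {c d : Set Z} (hc : c ∈ A) (hd : d ∈ A) :
    var A μ c = var A μ (c ∩ d) + var A μ (c \ d) := by
  rw [← h.var_add (inter_mem hc hd) (sdiff_mem hc hd) Set.disjoint_sdiff_inter.symm,
    Set.inter_union_sdiff]

lemma Adm.var_mono (h : Adm A μ) {c d : Set Z} (hc : c ∈ A) (hd : d ∈ A) (hdc : d ⊆ c) :
    var A μ d ≤ var A μ c := by
  have h1 := h.var_split hc hd
  rw [Set.inter_eq_right.2 hdc] at h1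
  have := h.var_nonneg (sdiff_mem hc hd)
  linarith

/-- splitting a space into pieces that cannot be split into two large parts -/
lemma exists_pieces (M : Set Z → ℝ) (h0 : ∀ a ∈ A, 0 ≤ M a)
    (h1 : ∀ a ∈ A, ∀ b ∈ A, M a = M (a ∩ b) + M (a \ b)) {ε : ℝ} (hε : 0 < ε) :
    ∃ Q : Finset (Set Z), (∀ q ∈ Q, q ∈ A) ∧ (∀ x, ∃ q ∈ Q, x ∈ q) ∧
      ∀ q ∈ Q, ∀ c ∈ A, M (q ∩ c) < ε ∨ M (q \ c) < ε := by
  classical
  have key : ∀ n : ℕ, ∀ b ∈ A, M b < n * ε → ∃ Q : Finset (Set Z), (∀ q ∈ Q, q ∈ A) ∧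
      (∀ x ∈ b, ∃ q ∈ Q, x ∈ q) ∧ ∀ q ∈ Q, ∀ c ∈ A, M (q ∩ c) < ε ∨ M (q \ c) < ε := by
    intro n
    induction n with
    | zero =>
      intro b hb hM
      have := h0 b hb
      simp at hM
      linarith
    | succ n ih =>
      intro b hb hM
      by_cases hgood : ∀ c ∈ A, M (b ∩ c) < ε ∨ M (b \ c) < ε
      · refine ⟨{b}, ?_, ?_, ?_⟩
        · intro q hq
          rw [Finset.mem_singleton] at hq
          rwa [hq]
        · intro x hx
          exact ⟨b, Finset.mem_singleton_self _, hx⟩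
        · intro q hq
          rw [Finset.mem_singleton] at hq
          rw [hq]
          exact hgood
      · push Not at hgood
        obtain ⟨c, hc, hc1, hc2⟩ := hgood
        have h2 := h1 b hb c hc
        push_cast at hM
        obtain ⟨Q1, a1, a2, a3⟩ := ih (b ∩ c) (inter_mem hb hc) (by linarith)
        obtain ⟨Q2, b1, b2, b3⟩ := ih (b \ c) (sdiff_mem hb hc) (by linarith)
        refine ⟨Q1 ∪ Q2, ?_, ?_, ?_⟩
        · intro q hq
          rw [Finset.mem_union] at hq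
          exact hq.elim (a1 q) (b1 q)
        · intro x hx
          by_cases hxc : x ∈ c
          · obtain ⟨q, hq, hxq⟩ := a2 x ⟨hx, hxc⟩
            exact ⟨q, Finset.mem_union_left _ hq, hxq⟩
          · obtain ⟨q, hq, hxq⟩ := b2 x ⟨hx, hxc⟩
            exact ⟨q, Finset.mem_union_right _ hq, hxq⟩
        · intro q hq
          rw [Finset.mem_union] at hq
          exact hq.elim (a3 q) (b3 q)
  obtain ⟨n, hn⟩ := exists_nat_gt (M Set.univ / ε)
  rw [div_lt_iff₀ hε] at hn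
  obtain ⟨Q, h2, h3, h4⟩ := key n Set.univ (univ_mem A) hn
  exact ⟨Q, h2, fun x => h3 x (Set.mem_univ x), h4⟩

end adm

end gen

end Pool.Agent.Helper96K9.MGN
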