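import Pool.Agent.Helper96K9.MGN.B

set_option autoImplicit false

open Filter Topology

namespace Pool.Agent.Helper96K9.MGN

/-- the invariants of the construction -/
structure Inv (A : BooleanSubalgebra (Set X)) : Prop where
  ctb : (A : Set (Set X)).Countable
  sing : ∀ x, {x} ∈ A
  zone : ∀ m i r, r < 2 ^ i → emb m (S i r) ∈ A
  db : ∀ a ∈ A, ∀ m, DB (row m a)
  fine : ∀ a ∈ A, ∀ᶠ m in atTop, Fine (row m a)

/-- every element of a row can be corrected inside every zone -/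
def Cl (A : BooleanSubalgebra (Set X)) : Prop :=
  ∀ m b, emb m b ∈ A → ∀ i r, r < 2 ^ i →
    ∃ t ⊆ S i r, emb m t ∈ A ∧ ∀ᶠ k in atTop, dif k t = - dif k b

variable {A : BooleanSubalgebra (Set X)}

lemma Inv.emb_univ (h : Inv A) (m : ℕ) : emb m Set.univ ∈ A := by
  rw [← S_zero]
  exact h.zone m 0 0 (by simp)

lemma Inv.emb_row (h : Inv A) {a : Set X} (ha : a ∈ A) (m : ℕ) : emb m (row m a) ∈ A := by
  rw [MGN.emb_row]
  exact inter_mem ha (h.emb_univ m)

lemma small_zone (hI : Inv A) {l : Set X → ℝ} (hl : Adm A l) (m : ℕ) {i r : ℕ} (hr : r < 2 ^ i)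
    {η : ℝ} (hη : 0 < η) :
    ∃ i' r', r' < 2 ^ i' ∧ S i' r' ⊆ S i r ∧ ∀ b ∈ A, b ⊆ emb m (S i' r') → |l b| ≤ η := by
  classical
  by_contra hcon
  push Not at hcon
  obtain ⟨K, hK⟩ := hl.2
  obtain ⟨N, hN⟩ := exists_nat_gt (2 * K / η)
  rw [div_lt_iff₀ hη] at hN
  have hlt : ∀ j < N, r + j * 2 ^ i < 2 ^ (i + N) := by
    intro j hj
    have h1 : j + 1 ≤ 2 ^ N := (Nat.succ_le_of_lt hj).trans (Nat.lt_two_pow_self).le
    calc r + j * 2 ^ i < 2 ^ i + j * 2 ^ i := by omega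
    _ = (j + 1) * 2 ^ i := by ring
    _ ≤ 2 ^ N * 2 ^ i := Nat.mul_le_mul_right _ h1
    _ = 2 ^ (i + N) := by rw [pow_add]; ring
  have hex : ∀ j : ℕ, ∃ b : Set X, j < N → b ∈ A ∧ b ⊆ emb m (S (i + N) (r + j * 2 ^ i)) ∧
      η < |l b| := by
    intro j
    by_cases hj : j < N
    · obtain ⟨b, hb, hb1, hb2⟩ := hcon (i + N) (r + j * 2 ^ i) (hlt j hj) (S_sub hr)
      exact ⟨b, fun _ => ⟨hb, hb1, hb2⟩⟩
    · exact ⟨∅, fun h => absurd h hj⟩
  choose b hb using hex
  have h1 := hl.sum_abs hK (Finset.range N) b (fun j hj => (hb j (Finset.mem_range.1 hj)).1) (by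
    intro j hj j' hj' hne
    refine Set.disjoint_of_subset (hb j (Finset.mem_range.1 hj)).2.1
      (hb j' (Finset.mem_range.1 hj')).2.1 (emb_disjoint (S_disj ?_))
    intro he
    apply hne
    have h2 : j * 2 ^ i = j' * 2 ^ i := by omega
    exact Nat.eq_of_mul_eq_mul_right (by positivity) h2)
  have h2 : (N : ℝ) * η ≤ ∑ j ∈ Finset.range N, |l (b j)| := by
    calc (N : ℝ) * η = ∑ j ∈ Finset.range N, η := by simp
    _ ≤ _ := Finset.sum_le_sum (fun j hj => (hb j (Finset.mem_range.1 hj)).2.2.le)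
  linarith

/-- replacement of an element of a row by a balanced one with almost the same measure -/
lemma replace (hI : Inv A) (hC : Cl A) {l : Set X → ℝ} (hl : Adm A l) (m : ℕ) {p : Set Y}
    (hp : BalE p) (hz : HasZone p) {b : Set Y} (hbA : emb m b ∈ A) (hbp : b ⊆ p)
    {ε : ℝ} (hε : 0 < ε) :
    ∃ u ⊆ p, emb m u ∈ A ∧ BalE u ∧ HasZone u ∧ HasZone (p \ u) ∧
      |l (emb m u) - l (emb m b)| ≤ ε := by
  obtain ⟨i, r, hr, hS⟩ := hz
  have hq : ∀ j < 4, r + j * 2 ^ i < 2 ^ (i + 2) := by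
    intro j hj
    calc r + j * 2 ^ i < 2 ^ i + j * 2 ^ i := by omega
    _ = (j + 1) * 2 ^ i := by ring
    _ ≤ 4 * 2 ^ i := Nat.mul_le_mul_right _ (by omega)
    _ = 2 ^ (i + 2) := by rw [pow_add]; ring
  have hη : 0 < ε / 5 := by positivity
  have hd : ∀ j j' : ℕ, j ≠ j' → Disjoint (S (i + 2) (r + j * 2 ^ i)) (S (i + 2) (r + j' * 2 ^ i)) := by
    intro j j' hne
    apply S_disj
    intro he
    apply hne
    have h2 : j * 2 ^ i = j' * 2 ^ i := by omega
    exact Nat.eq_of_mul_eq_mul_right (by positivity) h2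
  obtain ⟨i0, r0, hr0, hs0, hl0⟩ := small_zone hI hl m (hq 0 (by norm_num)) hη
  obtain ⟨i1, r1, hr1, hs1, hl1⟩ := small_zone hI hl m (hq 1 (by norm_num)) hη
  obtain ⟨i2, r2, hr2, hs2, hl2⟩ := small_zone hI hl m (hq 2 (by norm_num)) hη
  set D0 := S i0 r0 with hD0
  set D1 := S i1 r1 with hD1
  set D2 := S i2 r2 with hD2
  have h01 : Disjoint D0 D1 := Set.disjoint_of_subset hs0 hs1 (hd 0 1 (by norm_num))
  have h02 : Disjoint D0 D2 := Set.disjoint_of_subset hs0 hs2 (hd 0 2 (by norm_num))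
  have h12 : Disjoint D1 D2 := Set.disjoint_of_subset hs1 hs2 (hd 1 2 (by norm_num))
  have hp0 : D0 ⊆ p := (hs0.trans (S_sub hr)).trans hS
  have hp1 : D1 ⊆ p := (hs1.trans (S_sub hr)).trans hS
  have hp2 : D2 ⊆ p := (hs2.trans (S_sub hr)).trans hS
  have hA0 : emb m D0 ∈ A := hI.zone m i0 r0 hr0
  have hA1 : emb m D1 ∈ A := hI.zone m i1 r1 hr1
  have hA2 : emb m D2 ∈ A := hI.zone m i2 r2 hr2
  set W := D0 ∪ D1 ∪ D2 with hW
  have hWA : emb m W ∈ A := by
    rw [hW, emb_union, emb_union]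
    exact union_mem (union_mem hA0 hA1) hA2
  have hbW : emb m (b \ W) ∈ A := by
    rw [emb_sdiff]
    exact sdiff_mem hbA hWA
  have hdis0 : Disjoint (b \ W) D0 :=
    Set.disjoint_sdiff_left.mono_right ((Set.subset_union_left).trans Set.subset_union_left)
  set b' := (b \ W) ∪ D0 with hb'
  have hb'A : emb m b' ∈ A := by
    rw [hb', emb_union]
    exact union_mem hbW hA0
  obtain ⟨t, htD, htA, htd⟩ := hC m b' hb'A i2 r2 hr2
  have hdt : Disjoint b' t := by
    rw [Set.disjoint_left]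
    rintro y (hy | hy) hyt
    · exact hy.2 (Or.inr (htD hyt))
    · exact Set.disjoint_left.1 h02 hy (htD hyt)
  refine ⟨b' ∪ t, ?_, ?_, ?_, ?_, ?_, ?_⟩
  · rintro y ((hy | hy) | hy)
    · exact hbp hy.1
    · exact hp0 hy
    · exact hp2 (htD hy)
  · rw [emb_union]
    exact union_mem hb'A htA
  · filter_upwards [htd] with k hk
    rw [dif_union hdt, hk, add_neg_cancel]
  · exact ⟨i0, r0, hr0, fun y hy => Or.inl (Or.inr hy)⟩
  · refine ⟨i1, r1, hr1, fun y hy => ⟨hp1 hy, ?_⟩⟩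
    rintro ((h | h) | h)
    · exact h.2 (Or.inl (Or.inr hy))
    · exact Set.disjoint_left.1 h01 h hy
    · exact Set.disjoint_left.1 h12 hy (htD h)
  · have e1 : l (emb m (b' ∪ t)) = l (emb m (b \ W)) + l (emb m D0) + l (emb m t) := by
      rw [emb_union, hl.union hb'A htA (emb_disjoint hdt), hb', emb_union,
        hl.union hbW hA0 (emb_disjoint hdis0)]
    have hb0 : emb m (b ∩ D0) ∈ A := by rw [emb_inter]; exact inter_mem hbA hA0
    have hb1 : emb m (b ∩ D1) ∈ A := by rw [emb_inter]; exact inter_mem hbA hA1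
    have hb2 : emb m (b ∩ D2) ∈ A := by rw [emb_inter]; exact inter_mem hbA hA2
    have hb01 : emb m ((b ∩ D0) ∪ (b ∩ D1)) ∈ A := by rw [emb_union]; exact union_mem hb0 hb1
    have hb012 : emb m (((b ∩ D0) ∪ (b ∩ D1)) ∪ (b ∩ D2)) ∈ A := by
      rw [emb_union]; exact union_mem hb01 hb2
    have e2 : b = (b \ W) ∪ (((b ∩ D0) ∪ (b ∩ D1)) ∪ (b ∩ D2)) := by
      ext y
      simp only [hW, Set.mem_union, Set.mem_inter_iff, Set.mem_sdiff]
      tauto
    have e3 : l (emb m b) = l (emb m (b \ W)) + (l (emb m (b ∩ D0)) + l (emb m (b ∩ D1)) +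
        l (emb m (b ∩ D2))) := by
      conv_lhs => rw [e2]
      rw [emb_union, hl.union hbW hb012, emb_union, hl.union hb01 hb2, emb_union,
        hl.union hb0 hb1]
      · apply emb_disjoint
        exact Set.disjoint_of_subset Set.inter_subset_right Set.inter_subset_right h01
      · apply emb_disjoint
        rw [Set.disjoint_left]
        rintro y (hy | hy) hy'
        · exact Set.disjoint_left.1 h02 hy.2 hy'.2
        · exact Set.disjoint_left.1 h12 hy.2 hy'.2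
      · apply emb_disjoint
        rw [Set.disjoint_left]
        rintro y hy ((hy' | hy') | hy')
        · exact hy.2 (Or.inl (Or.inl hy'.2))
        · exact hy.2 (Or.inl (Or.inr hy'.2))
        · exact hy.2 (Or.inr hy'.2)
    have a0 := abs_le.1 (hl0 _ hA0 subset_rfl)
    have a1 := abs_le.1 (hl2 _ htA (emb_mono htD))
    have a2 := abs_le.1 (hl0 _ hb0 (emb_mono Set.inter_subset_right))
    have a3 := abs_le.1 (hl1 _ hb1 (emb_mono Set.inter_subset_right))
    have a4 := abs_le.1 (hl2 _ hb2 (emb_mono Set.inter_subset_right))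
    rw [e1, e3, abs_le]
    constructor <;> linarith [a0.1, a0.2, a1.1, a1.2, a2.1, a2.2, a3.1, a3.2, a4.1, a4.2]

end Pool.Agent.Helper96K9.MGN
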