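import Pool.Agent.Helper96K9.MGN.C

set_option autoImplicit false

open Filter Topology

namespace Pool.Agent.Helper96K9.MGN

variable {A : BooleanSubalgebra (Set X)}

/-- finite colouring with classes in `A` -/
def Col (A : BooleanSubalgebra (Set X)) (g : X → ℕ) : Prop :=
  (∃ N, ∀ x, g x < N) ∧ ∀ c, g ⁻¹' {c} ∈ A

open Classical in
/-- refinement of a colouring by a set -/
noncomputable def refi (g : X → ℕ) (e : Set X) : X → ℕ := fun x => 2 * g x + (if x ∈ e then 1 else 0)

/-- measurability -/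
def Mea (g : X → ℕ) (e : Set X) : Prop := ∀ x y, g x = g y → (x ∈ e ↔ y ∈ e)

/-- all classes are fine in the rows from `T` on -/
def Thr (g : X → ℕ) (T : ℕ) : Prop := ∀ m, T ≤ m → ∀ c, Fine (row m (g ⁻¹' {c}))

lemma refi_eq {g : X → ℕ} {e : Set X} {x y : X} :
    refi g e x = refi g e y ↔ g x = g y ∧ (x ∈ e ↔ y ∈ e) := by
  unfold refi
  by_cases h1 : x ∈ e <;> by_cases h2 : y ∈ e <;> simp [h1, h2] <;> omega

lemma refi_odd {g : X → ℕ} {e : Set X} {c : ℕ} : refi g e ⁻¹' {2 * c + 1} = g ⁻¹' {c} ∩ e := by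
  ext x
  unfold refi
  simp only [Set.mem_preimage, Set.mem_singleton_iff, Set.mem_inter_iff]
  by_cases h1 : x ∈ e <;> simp [h1] <;> omega

lemma refi_even {g : X → ℕ} {e : Set X} {c : ℕ} : refi g e ⁻¹' {2 * c} = g ⁻¹' {c} \ e := by
  ext x
  unfold refi
  simp only [Set.mem_preimage, Set.mem_singleton_iff, Set.mem_sdiff]
  by_cases h1 : x ∈ e <;> simp [h1] <;> omega

lemma Col.refi {g : X → ℕ} (hg : Col A g) {e : Set X} (he : e ∈ A) : Col A (refi g e) := by
  obtain ⟨⟨N, hN⟩, h2⟩ := hg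
  refine ⟨⟨2 * N, fun x => ?_⟩, fun c => ?_⟩
  · have := hN x
    unfold MGN.refi
    split_ifs <;> omega
  · rcases Nat.even_or_odd' c with ⟨d, hd | hd⟩
    · rw [hd, refi_even]
      exact sdiff_mem (h2 d) he
    · rw [hd, refi_odd]
      exact inter_mem (h2 d) he

lemma thr_refi {g : X → ℕ} {e : Set X} {T : ℕ} (h : ∀ m, T ≤ m → ∀ c,
    Fine (row m (g ⁻¹' {c} ∩ e)) ∧ Fine (row m (g ⁻¹' {c} \ e))) : Thr (refi g e) T := by
  intro m hm c
  rcases Nat.even_or_odd' c with ⟨d, hd | hd⟩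
  · rw [hd, refi_even]
    exact (h m hm d).2
  · rw [hd, refi_odd]
    exact (h m hm d).1

lemma mea_refi (g : X → ℕ) (e : Set X) : Mea (refi g e) e := fun _ _ h => (refi_eq.1 h).2

lemma Mea.refi {g : X → ℕ} {c : Set X} (h : Mea g c) (e : Set X) : Mea (refi g e) c :=
  fun x y hxy => h x y (refi_eq.1 hxy).1

lemma Mea.union {g : X → ℕ} {c d : Set X} (hc : Mea g c) (hd : Mea g d) : Mea g (c ∪ d) := by
  intro x y h
  have h1 := hc x y h
  have h2 := hd x y h
  simp only [Set.mem_union]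
  tauto

lemma Mea.inter {g : X → ℕ} {c d : Set X} (hc : Mea g c) (hd : Mea g d) : Mea g (c ∩ d) := by
  intro x y h
  have h1 := hc x y h
  have h2 := hd x y h
  simp only [Set.mem_inter_iff]
  tauto

lemma Mea.sdiff {g : X → ℕ} {c d : Set X} (hc : Mea g c) (hd : Mea g d) : Mea g (c \ d) := by
  intro x y h
  have h1 := hc x y h
  have h2 := hd x y h
  simp only [Set.mem_sdiff]
  tauto

lemma Mea.empty {g : X → ℕ} : Mea g ∅ := fun _ _ _ => Iff.rfl

lemma Inv.exists_thr (hI : Inv A) {g : X → ℕ} (hg : Col A g) (N : ℕ) : ∃ T, N ≤ T ∧ Thr g T := by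
  obtain ⟨⟨M, hM⟩, h2⟩ := hg
  have h3 : ∀ᶠ m in atTop, ∀ c ∈ Finset.range M, Fine (row m (g ⁻¹' {c})) := by
    rw [Filter.eventually_all_finset]
    intro c _
    exact hI.fine _ (h2 c)
  obtain ⟨T, hT⟩ := eventually_atTop.1 h3
  refine ⟨max N T, le_max_left _ _, fun m hm c => ?_⟩
  by_cases hc : c < M
  · exact hT m ((le_max_right _ _).trans hm) c (Finset.mem_range.2 hc)
  · have : row m (g ⁻¹' {c}) = ∅ := by
      ext y
      simp only [mem_row, Set.mem_preimage, Set.mem_singleton_iff, Set.mem_empty_iff_false,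
        iff_false]
      have := hM (m, y)
      omega
    rw [this]
    exact fine_empty

lemma Thr.fine {g : X → ℕ} {T : ℕ} (hT : Thr g T) (hb : ∃ N, ∀ x, g x < N) {c : Set X}
    (hc : Mea g c) {m : ℕ} (hm : T ≤ m) : Fine (row m c) := by
  obtain ⟨N, hN⟩ := hb
  have key : ∀ n : ℕ, Fine (row m (c ∩ {x | g x < n})) := by
    intro n
    induction n with
    | zero =>
      have : row m (c ∩ {x | g x < 0}) = ∅ := by
        ext y
        simp
      rw [this]
      exact fine_empty
    | succ n ih =>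
      have h1 : row m (c ∩ {x | g x < n + 1}) = row m (c ∩ {x | g x < n}) ∪
          row m (c ∩ g ⁻¹' {n}) := by
        ext y
        simp only [mem_row, Set.mem_inter_iff, Set.mem_ofPred_eq, Set.mem_union, Set.mem_preimage,
          Set.mem_singleton_iff]
        constructor
        · rintro ⟨h1, h2⟩
          rcases Nat.lt_succ_iff_lt_or_eq.1 h2 with h3 | h3
          · exact Or.inl ⟨h1, h3⟩
          · exact Or.inr ⟨h1, h3⟩
        · rintro (⟨h1, h2⟩ | ⟨h1, h2⟩)
          · exact ⟨h1, by omega⟩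
          · exact ⟨h1, by omega⟩
      rw [h1]
      apply ih.union
      · by_cases hy : ∃ x, x ∈ c ∧ g x = n
        · obtain ⟨x, hx, hxn⟩ := hy
          have : row m (c ∩ g ⁻¹' {n}) = row m (g ⁻¹' {n}) := by
            ext y
            simp only [mem_row, Set.mem_inter_iff, Set.mem_preimage, Set.mem_singleton_iff,
              and_iff_right_iff_imp]
            intro hy
            exact (hc x (m, y) (hxn.trans hy.symm)).1 hx
          rw [this]
          exact hT m hm n
        · have : row m (c ∩ g ⁻¹' {n}) = ∅ := by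
            ext y
            simp only [mem_row, Set.mem_inter_iff, Set.mem_preimage, Set.mem_singleton_iff,
              Set.mem_empty_iff_false, iff_false]
            rintro ⟨h1, h2⟩
            exact hy ⟨_, h1, h2⟩
          rw [this]
          exact fine_empty
      · apply row_disjoint
        rw [Set.disjoint_left]
        rintro x ⟨-, h1⟩ ⟨-, h2⟩
        simp only [Set.mem_ofPred_eq, Set.mem_preimage, Set.mem_singleton_iff] at h1 h2
        omega
  have h2 : c ∩ {x | g x < N} = c := by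
    ext x
    simp [hN x]
  have := key N
  rwa [h2] at this

/-- replacement inside one cell -/
lemma cell (hI : Inv A) (hC : Cl A) {l : Set X → ℝ} (hl : Adm A l) {g : X → ℕ} (hg : Col A g)
    {C : Set X} (hCg : Mea g C) {m c : ℕ} (hf : Fine (row m (g ⁻¹' {c})))
    {e0 : Set X} (he0 : e0 ∈ A) (he0C : e0 ⊆ C) {ε : ℝ} (hε : 0 < ε) :
    ∃ e ∈ A, e ⊆ C ∧ (∀ x, ¬ (x.1 = m ∧ g x = c) → (x ∈ e ↔ x ∈ e0)) ∧ |l e - l e0| ≤ ε ∧
      Fine (row m (g ⁻¹' {c} ∩ e)) ∧ Fine (row m (g ⁻¹' {c} \ e)) := by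
  set p := row m (g ⁻¹' {c}) with hp
  by_cases hmeet : ∃ y ∈ p, (m, y) ∈ C
  swap
  · refine ⟨e0, he0, he0C, fun x _ => Iff.rfl, by simp [hε.le], ?_, ?_⟩
    · have : row m (g ⁻¹' {c} ∩ e0) = ∅ := by
        ext y
        simp only [Set.mem_empty_iff_false, iff_false]
        rintro ⟨h1, h2⟩
        exact hmeet ⟨y, h1, he0C h2⟩
      rw [this]
      exact fine_empty
    · have : row m (g ⁻¹' {c} \ e0) = p := by
        ext y
        simp only [mem_row, Set.mem_sdiff, hp]
        constructor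
        · exact fun h => h.1
        · intro h
          exact ⟨h, fun h2 => hmeet ⟨y, h, he0C h2⟩⟩
      rw [this]
      exact hf
  · obtain ⟨y0, hy0, hy0C⟩ := hmeet
    have hpC : ∀ y ∈ p, (m, y) ∈ C := by
      intro y hy
      apply (hCg (m, y0) (m, y) _).1 hy0C
      exact hy0.trans hy.symm
    have hz : HasZone p := by
      rcases hf.2 with h | h
      · rw [h] at hy0
        exact absurd hy0 (Set.notMem_empty _)
      · exact h
    have hpA : emb m p ∈ A := hI.emb_row (hg.2 c) m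
    have hbe : emb m (row m e0 ∩ p) = e0 ∩ emb m p := by
      ext ⟨n, y⟩
      simp only [mem_emb, Set.mem_inter_iff, mem_row]
      constructor
      · rintro ⟨rfl, h1, h2⟩
        exact ⟨h1, rfl, h2⟩
      · rintro ⟨h1, rfl, h2⟩
        exact ⟨rfl, h1, h2⟩
    have hbA : emb m (row m e0 ∩ p) ∈ A := by
      rw [hbe]
      exact inter_mem he0 hpA
    obtain ⟨u, hup, huA, hub, huz, huz', hul⟩ := replace hI hC hl m hf.1 hz hbA
      Set.inter_subset_right hε
    have hdis : Disjoint (e0 \ emb m p) (emb m u) :=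
      Set.disjoint_sdiff_left.mono_right (emb_mono hup)
    have hrow : p ∩ row m ((e0 \ emb m p) ∪ emb m u) = u := by
      ext y
      simp only [Set.mem_inter_iff, mem_row, Set.mem_union, Set.mem_sdiff, mem_emb, true_and]
      constructor
      · rintro ⟨h1, h2 | h2⟩
        · exact absurd h1 h2.2
        · exact h2
      · intro h
        exact ⟨hup h, Or.inr h⟩
    refine ⟨(e0 \ emb m p) ∪ emb m u, union_mem (sdiff_mem he0 hpA) huA, ?_, ?_, ?_, ?_, ?_⟩
    · rintro x (hx | hx)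
      · exact he0C hx.1
      · obtain ⟨n, y⟩ := x
        obtain ⟨h1, h2⟩ := hx
        simp only at h1 h2
        subst h1
        exact hpC y (hup h2)
    · rintro ⟨n, y⟩ hx
      simp only [Set.mem_union, Set.mem_sdiff, mem_emb]
      have h1 : ¬ (n = m ∧ y ∈ p) := by
        rintro ⟨rfl, h⟩
        exact hx ⟨rfl, h⟩
      have h2 : ¬ (n = m ∧ y ∈ u) := by
        rintro ⟨rfl, h⟩
        exact h1 ⟨rfl, hup h⟩
      tauto
    · rw [hl.union (sdiff_mem he0 hpA) huA hdis, hl.split he0 hpA, ← hbe]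
      have : l (e0 \ emb m p) + l (emb m u) - (l (emb m (row m e0 ∩ p)) + l (e0 \ emb m p)) =
        l (emb m u) - l (emb m (row m e0 ∩ p)) := by ring
      rw [this]
      exact hul
    · rw [row_inter, ← hp, hrow]
      exact ⟨hub, Or.inr huz⟩
    · rw [row_sdiff, ← hp, ← Set.sdiff_self_inter, hrow]
      exact ⟨hf.1.sdiff hub hup, Or.inr huz'⟩

/-- replacement inside finitely many cells -/
lemma cells (hI : Inv A) (hC : Cl A) {l : Set X → ℝ} (hl : Adm A l) {g : X → ℕ} (hg : Col A g)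
    {C : Set X} (hCg : Mea g C) {e0 : Set X} (he0 : e0 ∈ A) (he0C : e0 ⊆ C)
    (s : Finset (ℕ × ℕ)) (hs : ∀ p ∈ s, Fine (row p.1 (g ⁻¹' {p.2}))) :
    ∀ ε : ℝ, 0 < ε → ∃ e ∈ A, e ⊆ C ∧ (∀ x : X, (x.1, g x) ∉ s → (x ∈ e ↔ x ∈ e0)) ∧
      |l e - l e0| ≤ ε ∧ ∀ p ∈ s, Fine (row p.1 (g ⁻¹' {p.2} ∩ e)) ∧
        Fine (row p.1 (g ⁻¹' {p.2} \ e)) := by
  classical
  induction s using Finset.induction_on with
  | empty =>
    intro ε hε
    exact ⟨e0, he0, he0C, fun x _ => Iff.rfl, by simp [hε.le], fun p hp => by simp at hp⟩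
  | insert q s hq ih =>
    intro ε hε
    obtain ⟨e1, h1, h2, h3, h4, h5⟩ := ih (fun p hp => hs p (Finset.mem_insert_of_mem hp))
      (ε / 2) (half_pos hε)
    obtain ⟨e, k1, k2, k3, k4, k5⟩ := cell hI hC hl hg hCg
      (hs q (Finset.mem_insert_self _ _)) h1 h2 (half_pos hε)
    refine ⟨e, k1, k2, ?_, ?_, ?_⟩
    · intro x hx
      rw [Finset.mem_insert, not_or] at hx
      rw [k3 x (fun h => hx.1 (Prod.ext h.1 h.2)), h3 x hx.2]
    · have := abs_add_le (l e - l e1) (l e1 - l e0)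
      rw [sub_add_sub_cancel] at this
      linarith
    · intro p hp
      by_cases hpq : p = q
      · rw [hpq]
        exact k5
      · have hps : p ∈ s := (Finset.mem_insert.1 hp).resolve_left hpq
        have h6 := h5 p hps
        have e1' : row p.1 (g ⁻¹' {p.2} ∩ e) = row p.1 (g ⁻¹' {p.2} ∩ e1) := by
          ext y
          simp only [mem_row, Set.mem_inter_iff, Set.mem_preimage, Set.mem_singleton_iff]
          constructor
          · rintro ⟨h7, h8⟩
            exact ⟨h7, (k3 _ (fun h => hpq (Prod.ext h.1 (h7.symm.trans h.2)))).1 h8⟩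
          · rintro ⟨h7, h8⟩
            exact ⟨h7, (k3 _ (fun h => hpq (Prod.ext h.1 (h7.symm.trans h.2)))).2 h8⟩
        have e2' : row p.1 (g ⁻¹' {p.2} \ e) = row p.1 (g ⁻¹' {p.2} \ e1) := by
          ext y
          simp only [mem_row, Set.mem_sdiff, Set.mem_preimage, Set.mem_singleton_iff]
          constructor
          · rintro ⟨h7, h8⟩
            exact ⟨h7, fun h9 => h8 ((k3 _ (fun h => hpq (Prod.ext h.1 (h7.symm.trans h.2)))).2 h9)⟩
          · rintro ⟨h7, h8⟩
            exact ⟨h7, fun h9 => h8 ((k3 _ (fun h => hpq (Prod.ext h.1 (h7.symm.trans h.2)))).1 h9)⟩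
        rw [e1', e2']
        exact h6

/-- regularization of an element -/
lemma regularize (hI : Inv A) (hC : Cl A) {l : Set X → ℝ} (hl : Adm A l) {g : X → ℕ}
    (hg : Col A g) {C : Set X} (hCg : Mea g C) {T : ℕ} (hT : Thr g T)
    {e0 : Set X} (he0 : e0 ∈ A) (he0C : e0 ⊆ C) (he0T : ∀ m < T, row m e0 = ∅) :
    ∃ e ∈ A, e ⊆ C ∧ (∀ m < T, row m e = ∅) ∧ |l e - l e0| ≤ 1 ∧ Thr (refi g e) T ∧
      ∃ T', ∀ m, T' ≤ m → row m e = row m e0 := by
  obtain ⟨T', hTT, hT'⟩ := hI.exists_thr (hg.refi he0) T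
  obtain ⟨N, hN⟩ := hg.1
  obtain ⟨e, h1, h2, h3, h4, h5⟩ := cells hI hC hl hg hCg he0 he0C
    (Finset.Ico T T' ×ˢ Finset.range N) (fun p hp => by
      rw [Finset.mem_product, Finset.mem_Ico] at hp
      exact hT _ hp.1.1 _) 1 one_pos
  have hrow : ∀ m, ¬ (T ≤ m ∧ m < T') → row m e = row m e0 := by
    intro m hm
    ext y
    apply h3 (m, y)
    rw [Finset.mem_product, Finset.mem_Ico]
    exact fun h => hm h.1
  refine ⟨e, h1, h2, ?_, h4, ?_, T', fun m hm => hrow m (by omega)⟩
  · intro m hm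
    rw [hrow m (by omega)]
    exact he0T m hm
  · apply thr_refi
    intro m hm c
    by_cases hmT : m < T'
    · by_cases hc : c < N
      · exact h5 (m, c) (by
          rw [Finset.mem_product, Finset.mem_Ico, Finset.mem_range]
          exact ⟨⟨hm, hmT⟩, hc⟩)
      · have : g ⁻¹' {c} = ∅ := by
          ext x
          simp only [Set.mem_preimage, Set.mem_singleton_iff, Set.mem_empty_iff_false, iff_false]
          have := hN x
          omega
        rw [this, Set.empty_inter, Set.empty_sdiff, row_empty]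
        exact ⟨fine_empty, fine_empty⟩
    · have h6 := hT' m (by omega)
      have h7 := h6 (2 * c + 1)
      have h8 := h6 (2 * c)
      rw [refi_odd] at h7
      rw [refi_even] at h8
      rw [row_inter, row_sdiff, hrow m (by omega), ← row_inter, ← row_sdiff]
      exact ⟨h7, h8⟩

end Pool.Agent.Helper96K9.MGN
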