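import Pool.Agent.Helper96K9.MGN.D

set_option autoImplicit false

open Filter Topology

namespace Pool.Agent.Helper96K9.MGN

variable {A : BooleanSubalgebra (Set X)} {μ : ℕ → Set X → ℝ}

/-- hot sets: the sequence of measures is unbounded below `c` -/
def Hot (A : BooleanSubalgebra (Set X)) (μ : ℕ → Set X → ℝ) (c : Set X) : Prop :=
  ∀ R : ℝ, ∃ k, ∃ b ∈ A, b ⊆ c ∧ R ≤ |μ k b|

lemma Hot.mono {c c' : Set X} (h : Hot A μ c) (hc : c ⊆ c') : Hot A μ c' := by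
  intro R
  obtain ⟨k, b, h1, h2, h3⟩ := h R
  exact ⟨k, b, h1, h2.trans hc, h3⟩

lemma Hot.split (hA : ∀ k, Adm A (μ k)) {c d : Set X} (h : Hot A μ c) (hd : d ∈ A) :
    Hot A μ (c ∩ d) ∨ Hot A μ (c \ d) := by
  by_contra hcon
  rw [not_or] at hcon
  obtain ⟨h1, h2⟩ := hcon
  unfold Hot at h1 h2
  push Not at h1 h2
  obtain ⟨R1, h1⟩ := h1
  obtain ⟨R2, h2⟩ := h2
  obtain ⟨k, b, hb, hbc, hR⟩ := h (R1 + R2)
  have h3 := h1 k (b ∩ d) (inter_mem hb hd) (Set.inter_subset_inter_left _ hbc)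
  have h4 := h2 k (b \ d) (sdiff_mem hb hd) (Set.sdiff_subset_sdiff_left hbc)
  have h5 := abs_add_le (μ k (b ∩ d)) (μ k (b \ d))
  rw [← (hA k).split hb hd] at h5
  linarith

lemma Hot.step (hA : ∀ k, Adm A (μ k)) (hp : ∀ a ∈ A, ∃ K : ℝ, ∀ k, |μ k a| ≤ K) {c : Set X}
    (hc : c ∈ A) (h : Hot A μ c) (R : ℝ) :
    ∃ k, ∃ e ∈ A, e ⊆ c ∧ R ≤ |μ k e| ∧ Hot A μ (c \ e) := by
  obtain ⟨K, hK⟩ := hp c hc
  have hK0 : 0 ≤ K := (abs_nonneg _).trans (hK 0)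
  obtain ⟨k, b, hb, hbc, hR⟩ := h (R + K)
  rcases h.split hA hb with h1 | h1
  · refine ⟨k, c \ b, sdiff_mem hc hb, Set.sdiff_subset, ?_, ?_⟩
    · have h2 := (hA k).sub hc hb hbc
      have h3 := hK k
      have h4 := abs_sub (μ k c) (μ k (c \ b))
      have h5 : μ k c - μ k (c \ b) = μ k b := by linarith
      rw [h5] at h4
      linarith
    · rw [Set.sdiff_sdiff_cancel_left hbc]
      exact h1.mono Set.inter_subset_right
  · exact ⟨k, b, hb, hbc, by linarith, h1⟩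

lemma Hot.tail (hA : ∀ k, Adm A (μ k)) {c : Set X} (hc : c ∈ A) (h : Hot A μ c) (k : ℕ) :
    ∃ c' ∈ A, c' ⊆ c ∧ Hot A μ c' ∧ ∀ c'' ∈ A, c'' ⊆ c' → Hot A μ c'' →
      ∀ b ∈ A, b ⊆ c' \ c'' → |μ k b| ≤ 1 := by
  let V : Set ℝ := {v | ∃ c' ∈ A, c' ⊆ c ∧ Hot A μ c' ∧ v = var A (μ k) c'}
  have hne : V.Nonempty := ⟨_, c, hc, subset_rfl, h, rfl⟩
  have hbd : BddBelow V := by
    refine ⟨0, ?_⟩
    rintro v ⟨c', hc', -, -, rfl⟩
    exact (hA k).var_nonneg hc'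
  obtain ⟨v, ⟨c', hc', h1, h2, rfl⟩, hv⟩ := exists_lt_of_csInf_lt hne (lt_add_one (sInf V))
  refine ⟨c', hc', h1, h2, ?_⟩
  intro c'' hc'' h3 h4 b hb hbc
  have h5 : sInf V ≤ var A (μ k) c'' := csInf_le hbd ⟨c'', hc'', h3.trans h1, h4, rfl⟩
  have h6 := (hA k).var_split hc' hc''
  rw [Set.inter_eq_right.2 h3] at h6
  have h7 := (hA k).le_var (sdiff_mem hc' hc'') hb hbc
  linarith

/-- state of the construction -/
structure St (A : BooleanSubalgebra (Set X)) (μ : ℕ → Set X → ℝ) where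
  g : X → ℕ
  C : Set X
  E : Set X
  N : ℕ
  hg : Col A g
  hC : C ∈ A
  hCg : Mea g C
  hot : Hot A μ C
  hE : E ∈ A
  hEg : Mea g E
  dis : Disjoint C E

/-- the hypothesis on the additional requirement -/
structure Req (A : BooleanSubalgebra (Set X)) (μ : ℕ → Set X → ℝ) (C0 : Set X)
    (Φ : (X → ℕ) → ℕ → Set X → Prop) : Prop where
  h1 : ∀ g, Col A g → ∀ N, ∀ C ∈ A, C ⊆ C0 → Mea g C → Hot A μ C → ∀ R : ℝ, ∃ k, ∃ e ∈ A, ∃ T, N ≤ T ∧
    e ⊆ C ∧ R ≤ |μ k e| ∧ Hot A μ (C \ e) ∧ Φ g T e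
  h2 : ∀ g, Col A g → ∀ N, ∃ T, N ≤ T ∧ Φ g T ∅

lemma engine_step (hA : ∀ k, Adm A (μ k)) (hp : ∀ a ∈ A, ∃ K : ℝ, ∀ k, |μ k a| ≤ K)
    {C0 : Set X} {Φ : (X → ℕ) → ℕ → Set X → Prop} (hΦ : Req A μ C0 Φ) (s : St A μ)
    (hs : s.C ⊆ C0) (n : ℕ) {d : Set X} (hd : d ∈ A) :
    ∃ (s' : St A μ) (k : ℕ) (e : Set X) (T : ℕ), s'.C ⊆ C0 ∧ s.N ≤ T ∧ T < s'.N ∧ e ∈ A ∧ e ⊆ s.C ∧
      Φ s.g T e ∧ s'.C ⊆ s.C \ e ∧ (s'.C ⊆ d ∨ Disjoint s'.C d) ∧
      (∀ x y, s'.g x = s'.g y → s.g x = s.g y) ∧ Mea s'.g e ∧ Mea s'.g d ∧ s'.E = s.E ∪ e ∧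
      (∀ c'' ∈ A, c'' ⊆ s'.C → Hot A μ c'' → ∀ b ∈ A, b ⊆ s'.C \ c'' → |μ k b| ≤ 1) ∧
      (n % 2 = 0 → (n : ℝ) + 1 ≤ |μ k s'.E|) ∧ (n % 2 = 1 → (n : ℝ) + 1 ≤ |μ k (s'.C ∪ s'.E)|) := by
  obtain ⟨B, hB⟩ := hp s.E s.hE
  have hB0 : 0 ≤ B := (abs_nonneg _).trans (hB 0)
  obtain ⟨k, e, he, T, hNT, heC, hR, hhot, hΦe⟩ := hΦ.h1 s.g s.hg s.N s.C s.hC hs s.hCg s.hot
    (2 * ((n : ℝ) + 1) + B)
  have hn0 : (0 : ℝ) ≤ n := Nat.cast_nonneg n
  -- decide `d`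
  obtain ⟨C1, hC1A, hC1, hC1h, hC1d⟩ : ∃ C1 ∈ A, C1 ⊆ s.C \ e ∧ Hot A μ C1 ∧
      (C1 ⊆ d ∨ Disjoint C1 d) := by
    rcases hhot.split hA hd with h | h
    · exact ⟨_, inter_mem (sdiff_mem s.hC he) hd, Set.inter_subset_left, h,
        Or.inl Set.inter_subset_right⟩
    · exact ⟨_, sdiff_mem (sdiff_mem s.hC he) hd, Set.sdiff_subset, h,
        Or.inr Set.disjoint_sdiff_left⟩
  obtain ⟨C2, hC2A, hC2, hC2h, htail⟩ := hC1h.tail hA hC1A k
  have hC2e : C2 ⊆ s.C \ e := hC2.trans hC1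
  have hC2C : C2 ⊆ s.C := fun x hx => (hC2e hx).1
  have hC2d : C2 ⊆ d ∨ Disjoint C2 d := hC1d.imp (fun h => hC2.trans h) (fun h => h.mono_left hC2)
  -- the new state for a choice of `e'`
  have mk : ∀ e' ∈ A, e' ⊆ e → ∃ s' : St A μ, s'.C = C2 ∧ s'.E = s.E ∪ e' ∧
      (∀ x y, s'.g x = s'.g y → s.g x = s.g y) ∧ Mea s'.g e' ∧ Mea s'.g d ∧
      ∀ T, ∃ s'' : St A μ, s''.C = s'.C ∧ s''.E = s'.E ∧ s''.g = s'.g ∧ T < s''.N := by
    intro e' he' hee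
    have hdis : Disjoint C2 (s.E ∪ e') := by
      rw [Set.disjoint_union_right]
      refine ⟨s.dis.mono_left hC2C, ?_⟩
      rw [Set.disjoint_left]
      intro x hx hx'
      exact (hC2e hx).2 (hee hx')
    have hgg : Col A (refi (refi (refi s.g e') d) C2) := ((s.hg.refi he').refi hd).refi hC2A
    have hmE : Mea (refi (refi (refi s.g e') d) C2) (s.E ∪ e') :=
      (((s.hEg.refi e').union (mea_refi _ _)).refi d).refi C2
    refine ⟨⟨refi (refi (refi s.g e') d) C2, C2, s.E ∪ e', 0, hgg, hC2A, mea_refi _ _, hC2h,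
      union_mem s.hE he', hmE, hdis⟩, rfl, rfl, ?_, ?_, ?_, ?_⟩
    · intro x y h
      exact (refi_eq.1 (refi_eq.1 (refi_eq.1 h).1).1).1
    · exact (((mea_refi s.g e').refi d).refi C2)
    · exact ((mea_refi _ d).refi C2)
    · intro T
      exact ⟨⟨refi (refi (refi s.g e') d) C2, C2, s.E ∪ e', T + 1, hgg, hC2A, mea_refi _ _, hC2h,
        union_mem s.hE he', hmE, hdis⟩, rfl, rfl, rfl, Nat.lt_succ_self T⟩
  have hdisE : Disjoint s.E e := by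
    rw [Set.disjoint_left]
    intro x hx hx'
    exact Set.disjoint_left.1 s.dis (heC hx') hx
  have hdC2 : Disjoint C2 (s.E ∪ e) := by
    rw [Set.disjoint_union_right]
    refine ⟨s.dis.mono_left hC2C, ?_⟩
    rw [Set.disjoint_left]
    intro x hx hx'
    exact (hC2e hx).2 hx'
  have hEe : μ k (s.E ∪ e) = μ k s.E + μ k e := (hA k).union s.hE he hdisE
  have hbig : (n : ℝ) + 1 ≤ |μ k (s.E ∪ e)| := by
    have h1 := hB k
    have h2 := abs_sub (μ k (s.E ∪ e)) (μ k s.E)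
    have h3 : μ k (s.E ∪ e) - μ k s.E = μ k e := by rw [hEe]; ring
    rw [h3] at h2
    linarith
  -- the two cases
  by_cases hcase : n % 2 = 1 ∧ |μ k (C2 ∪ (s.E ∪ e))| < (n : ℝ) + 1
  · obtain ⟨hodd, hsm⟩ := hcase
    obtain ⟨T', hT', hΦ'⟩ := hΦ.h2 s.g s.hg s.N
    obtain ⟨s0, a1, a2, a3, a4, a5, a6⟩ := mk ∅ (empty_mem A) (Set.empty_subset e)
    obtain ⟨s', b1, b2, b3, b4⟩ := a6 T'
    rw [a1] at b1
    rw [a2, Set.union_empty] at b2
    refine ⟨s', k, ∅, T', ?_, hT', b4, empty_mem A, Set.empty_subset _, hΦ', ?_, ?_, ?_, ?_, ?_, ?_,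
      ?_, ?_, ?_⟩
    · rw [b1]
      exact hC2C.trans hs
    · rw [b1, Set.sdiff_empty]
      exact hC2C
    · rw [b1]
      exact hC2d
    · rw [b3]
      exact a3
    · exact Mea.empty
    · rw [b3]
      exact a5
    · rw [b2, Set.union_empty]
    · rw [b1]
      exact htail
    · intro h
      omega
    · intro _
      rw [b1, b2]
      have h1 : μ k (C2 ∪ (s.E ∪ e)) = μ k (C2 ∪ s.E) + μ k e := by
        rw [← Set.union_assoc]
        apply (hA k).union (union_mem hC2A s.hE) he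
        rw [Set.disjoint_union_left]
        exact ⟨hdC2.mono_right Set.subset_union_right, hdisE⟩
      have h2 := abs_sub (μ k (C2 ∪ (s.E ∪ e))) (μ k (C2 ∪ s.E))
      have h3 : μ k (C2 ∪ (s.E ∪ e)) - μ k (C2 ∪ s.E) = μ k e := by rw [h1]; ring
      rw [h3] at h2
      linarith
  · obtain ⟨s0, a1, a2, a3, a4, a5, a6⟩ := mk e he subset_rfl
    obtain ⟨s', b1, b2, b3, b4⟩ := a6 T
    rw [a1] at b1
    rw [a2] at b2
    refine ⟨s', k, e, T, ?_, hNT, b4, he, heC, hΦe, ?_, ?_, ?_, ?_, ?_, b2, ?_, ?_, ?_⟩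
    · rw [b1]
      exact hC2C.trans hs
    · rw [b1]
      exact hC2e
    · rw [b1]
      exact hC2d
    · rw [b3]
      exact a3
    · rw [b3]
      exact a4
    · rw [b3]
      exact a5
    · rw [b1]
      exact htail
    · intro _
      rw [b2]
      exact hbig
    · intro h
      rw [b1, b2]
      by_contra hlt
      exact hcase ⟨h, not_le.1 hlt⟩

/-- `a` kills the sequence `μ` -/
def Kill (A : BooleanSubalgebra (Set X)) (μ : ℕ → Set X → ℝ) (a : Set X) : Prop :=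
  ∃ C : ℕ → Set X, Antitone C ∧ (∀ n, C n ∈ A) ∧ (∀ c ∈ A, ∃ n, C n ⊆ c ∨ Disjoint (C n) c) ∧
    (∀ n, a \ C n ∈ A) ∧ (∀ R : ℝ, ∃ k j0, ∀ j, j0 ≤ j → R ≤ |μ k (a \ C j)|) ∧
    ∀ R : ℝ, ∃ k j0, ∀ j, j0 ≤ j → R ≤ |μ k (C j ∪ (a \ C j))|

/-- output of the construction -/
theorem engine (hctb : (A : Set (Set X)).Countable) (hA : ∀ k, Adm A (μ k))
    (hp : ∀ a ∈ A, ∃ K : ℝ, ∀ k, |μ k a| ≤ K)
    {C0 : Set X} (hC0 : C0 ∈ A) (hhot : Hot A μ C0) {Φ : (X → ℕ) → ℕ → Set X → Prop}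
    (hΦ : Req A μ C0 Φ) :
    ∃ (a : Set X) (g : ℕ → X → ℕ) (C E e : ℕ → Set X) (T : ℕ → ℕ),
      MinE A a ∧ Kill A μ a ∧ (∀ n, Hot A μ (C n)) ∧ (∀ n, C n ⊆ C0) ∧ (∀ n, C n ∈ A) ∧
      (∀ c ∈ A, ∃ n, (C n ⊆ c ∨ Disjoint (C n) c) ∧ ∀ n', n ≤ n' → Mea (g n') c) ∧
      (∀ n, E n ∈ A) ∧ (∀ n, a \ C n = E n) ∧ a ⊆ C0 ∧ (∀ n, E (n + 1) = E n ∪ e n) ∧
      (∀ n, Mea (g n) (E n)) ∧ (∀ n, Col A (g n)) ∧ StrictMono T ∧ (∀ n, Φ (g n) (T n) (e n)) ∧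
      (∀ x, x ∈ a ↔ ∃ n, x ∈ e n) ∧ E 0 = ∅ ∧ Antitone C := by
  classical
  obtain ⟨en, hen⟩ := hctb.exists_eq_range ⟨∅, empty_mem A⟩
  have henA : ∀ n, en n ∈ A := fun n => by
    have : en n ∈ (A : Set (Set X)) := by
      rw [hen]
      exact ⟨n, rfl⟩
    exact this
  let Sub := {s : St A μ // s.C ⊆ C0}
  have hstep : ∀ (s : Sub) (n : ℕ), ∃ (s' : Sub) (k : ℕ) (e : Set X) (T : ℕ),
      s.1.N ≤ T ∧ T < s'.1.N ∧ e ∈ A ∧ e ⊆ s.1.C ∧
      Φ s.1.g T e ∧ s'.1.C ⊆ s.1.C \ e ∧ (s'.1.C ⊆ en n ∨ Disjoint s'.1.C (en n)) ∧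
      (∀ x y, s'.1.g x = s'.1.g y → s.1.g x = s.1.g y) ∧ Mea s'.1.g e ∧ Mea s'.1.g (en n) ∧
      s'.1.E = s.1.E ∪ e ∧
      (∀ c'' ∈ A, c'' ⊆ s'.1.C → Hot A μ c'' → ∀ b ∈ A, b ⊆ s'.1.C \ c'' → |μ k b| ≤ 1) ∧
      (n % 2 = 0 → (n : ℝ) + 1 ≤ |μ k s'.1.E|) ∧
      (n % 2 = 1 → (n : ℝ) + 1 ≤ |μ k (s'.1.C ∪ s'.1.E)|) := by
    rintro ⟨s, hs⟩ n
    obtain ⟨s', k, e, T, h1, h2⟩ := engine_step hA hp hΦ s hs n (henA n)
    exact ⟨⟨s', h1⟩, k, e, T, h2⟩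
  choose nx kk ee TT hN hTN heA heC heΦ hCe hdec hgg hge hgen hEe htail heven hodd using hstep
  let s0 : Sub := ⟨⟨refi (fun _ => 0) C0, C0, ∅, 0, by
    apply Col.refi _ hC0
    refine ⟨⟨1, fun _ => Nat.one_pos⟩, fun c => ?_⟩
    by_cases hc : c = 0
    · have : (fun _ : X => 0) ⁻¹' {c} = Set.univ := by
        ext x
        simp [hc]
      rw [this]
      exact univ_mem A
    · have : (fun _ : X => 0) ⁻¹' {c} = ∅ := by
        ext x
        simp only [Set.mem_preimage, Set.mem_singleton_iff, Set.mem_empty_iff_false, iff_false]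
        exact fun h => hc h.symm
      rw [this]
      exact empty_mem A, hC0, mea_refi _ _, hhot, empty_mem A, Mea.empty, disjoint_bot_right⟩,
    subset_rfl⟩
  let q : ℕ → Sub := fun n => Nat.rec s0 (fun n s => nx s n) n
  have hq : ∀ n, q (n + 1) = nx (q n) n := fun n => rfl
  let C : ℕ → Set X := fun n => (q n).1.C
  let E : ℕ → Set X := fun n => (q n).1.E
  let e : ℕ → Set X := fun n => ee (q n) n
  let T : ℕ → ℕ := fun n => TT (q n) n
  let a : Set X := ⋃ n, e n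
  have hC1 : ∀ n, C (n + 1) ⊆ C n \ e n := fun n => hCe (q n) n
  have hCanti : Antitone C := antitone_nat_of_succ_le (fun n x hx => (hC1 n hx).1)
  have hE1 : ∀ n, E (n + 1) = E n ∪ e n := fun n => hEe (q n) n
  have hCA : ∀ n, C n ∈ A := fun n => (q n).1.hC
  have hEA : ∀ n, E n ∈ A := fun n => (q n).1.hE
  have hChot : ∀ n, Hot A μ (C n) := fun n => (q n).1.hot
  have heCn : ∀ n, e n ⊆ C n := fun n => heC (q n) n
  have hE0 : E 0 = ∅ := rfl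
  have hEsub : ∀ n, ∀ x ∈ E n, ∃ i < n, x ∈ e i := by
    intro n
    induction n with
    | zero =>
      intro x hx
      rw [hE0] at hx
      exact absurd hx (Set.notMem_empty _)
    | succ n ih =>
      intro x hx
      rw [hE1] at hx
      rcases hx with hx | hx
      · obtain ⟨i, hi, hxi⟩ := ih x hx
        exact ⟨i, by omega, hxi⟩
      · exact ⟨n, Nat.lt_succ_self n, hx⟩
  have hEmono : Monotone E := monotone_nat_of_le_succ (fun n => by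
    rw [hE1]
    exact Set.subset_union_left)
  have hsubE : ∀ i n, i < n → e i ⊆ E n := by
    intro i n hin
    have h1 : e i ⊆ E (i + 1) := by
      rw [hE1]
      exact Set.subset_union_right
    exact h1.trans (hEmono hin)
  have haE : ∀ n, a \ C n = E n := by
    intro n
    ext x
    constructor
    · rintro ⟨hxa, hxC⟩
      obtain ⟨i, hi⟩ := Set.mem_iUnion.1 hxa
      rcases Nat.lt_or_ge i n with h | h
      · exact hsubE i n h hi
      · exact absurd (hCanti h (heCn i hi)) hxC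
    · intro hx
      obtain ⟨i, hi, hxi⟩ := hEsub n x hx
      refine ⟨Set.mem_iUnion.2 ⟨i, hxi⟩, ?_⟩
      intro hxC
      exact (hC1 i (hCanti hi hxC)).2 hxi
  have hmg : ∀ n n', n ≤ n' → ∀ x y, (q n').1.g x = (q n').1.g y → (q n).1.g x = (q n).1.g y := by
    intro n n' hnn
    induction n', hnn using Nat.le_induction with
    | base => exact fun x y h => h
    | succ m hm ih => exact fun x y h => ih x y (hgg (q m) m x y h)
  have hdecide : ∀ c ∈ A, ∃ n, (C n ⊆ c ∨ Disjoint (C n) c) ∧ ∀ n', n ≤ n' → Mea (q n').1.g c := by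
    intro c hc
    have : c ∈ (A : Set (Set X)) := hc
    rw [hen] at this
    obtain ⟨n, rfl⟩ := this
    refine ⟨n + 1, hdec (q n) n, fun n' hn' x y h => ?_⟩
    exact hgen (q n) n x y (hmg (n + 1) n' hn' x y h)
  have hTm : StrictMono T := strictMono_nat_of_lt_succ (fun n => by
    exact (hTN (q n) n).trans_le (hN (q (n + 1)) (n + 1)))
  -- tails
  have htl : ∀ n j, n + 1 ≤ j → ∀ b ∈ A, b ⊆ C (n + 1) \ C j → |μ (kk (q n) n) b| ≤ 1 :=
    fun n j hj b hb hbC => htail (q n) n (C j) (hCA j) (hCanti hj) (hChot j) b hb hbC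
  have hMin : MinE A a := by
    intro c hc
    obtain ⟨n, hn, -⟩ := hdecide c hc
    rcases hn with h | h
    · right
      have : a \ c = (a \ C n) \ c := by
        ext x
        simp only [Set.mem_sdiff]
        constructor
        · rintro ⟨h1, h2⟩
          exact ⟨⟨h1, fun h3 => h2 (h h3)⟩, h2⟩
        · rintro ⟨⟨h1, -⟩, h2⟩
          exact ⟨h1, h2⟩
      rw [this, haE]
      exact sdiff_mem (hEA n) hc
    · left
      have : c ∩ a = c ∩ (a \ C n) := by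
        ext x
        simp only [Set.mem_inter_iff, Set.mem_sdiff]
        constructor
        · rintro ⟨h1, h2⟩
          exact ⟨h1, h2, fun h3 => Set.disjoint_left.1 h h3 h1⟩
        · rintro ⟨h1, h2, -⟩
          exact ⟨h1, h2⟩
      rw [this, haE]
      exact inter_mem hc (hEA n)
  refine ⟨a, fun n => (q n).1.g, C, E, e, T, hMin, ?_, hChot, fun n => (q n).2, hCA, hdecide, hEA,
    haE, ?_, hE1, fun n => (q n).1.hEg, fun n => (q n).1.hg, hTm, fun n => heΦ (q n) n, ?_, hE0,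
    hCanti⟩
  · refine ⟨C, hCanti, hCA, fun c hc => ?_, fun n => by rw [haE]; exact hEA n, ?_, ?_⟩
    · obtain ⟨n, hn, -⟩ := hdecide c hc
      exact ⟨n, hn⟩
    · intro R
      obtain ⟨r, hr⟩ := exists_nat_gt R
      refine ⟨kk (q (2 * r)) (2 * r), 2 * r + 1, fun j hj => ?_⟩
      rw [haE]
      have h1 := heven (q (2 * r)) (2 * r) (by omega)
      have h2 : E (2 * r + 1) ⊆ E j := hEmono hj
      have h3 := (hA (kk (q (2 * r)) (2 * r))).sub (hEA j) (hEA (2 * r + 1)) h2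
      have h4 : |μ (kk (q (2 * r)) (2 * r)) (E j \ E (2 * r + 1))| ≤ 1 := by
        apply htl (2 * r) j hj _ (sdiff_mem (hEA j) (hEA (2 * r + 1)))
        rintro x ⟨hx, hx'⟩
        rw [← haE j] at hx
        rw [← haE (2 * r + 1)] at hx'
        exact ⟨by_contra (fun h => hx' ⟨hx.1, h⟩), hx.2⟩
      have h5 := abs_sub (μ (kk (q (2 * r)) (2 * r)) (E j))
        (μ (kk (q (2 * r)) (2 * r)) (E j \ E (2 * r + 1)))
      have h6 : μ (kk (q (2 * r)) (2 * r)) (E j) - μ (kk (q (2 * r)) (2 * r)) (E j \ E (2 * r + 1)) =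
        μ (kk (q (2 * r)) (2 * r)) (E (2 * r + 1)) := by linarith
      rw [h6] at h5
      have h7 : (((2 * r : ℕ) : ℝ)) + 1 ≤ |μ (kk (q (2 * r)) (2 * r)) (E (2 * r + 1))| := h1
      push_cast at h7
      have h8 : (0 : ℝ) ≤ r := Nat.cast_nonneg r
      linarith
    · intro R
      obtain ⟨r, hr⟩ := exists_nat_gt R
      set k := kk (q (2 * r + 1)) (2 * r + 1) with hk
      refine ⟨k, 2 * r + 2, fun j hj => ?_⟩
      rw [haE]
      have h1 : (((2 * r + 1 : ℕ) : ℝ)) + 1 ≤ |μ k (C (2 * r + 2) ∪ E (2 * r + 2))| :=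
        hodd (q (2 * r + 1)) (2 * r + 1) (by omega)
      have hsub : C j ∪ E j ⊆ C (2 * r + 2) ∪ E (2 * r + 2) := by
        rintro x (hx | hx)
        · exact Or.inl (hCanti hj hx)
        · by_cases hxC : x ∈ C (2 * r + 2)
          · exact Or.inl hxC
          · right
            rw [← haE j] at hx
            rw [← haE (2 * r + 2)]
            exact ⟨hx.1, hxC⟩
      have h3 := (hA k).sub (union_mem (hCA (2 * r + 2)) (hEA (2 * r + 2)))
        (union_mem (hCA j) (hEA j)) hsub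
      have h4 : |μ k ((C (2 * r + 2) ∪ E (2 * r + 2)) \ (C j ∪ E j))| ≤ 1 := by
        apply htl (2 * r + 1) j hj _ (sdiff_mem (union_mem (hCA (2 * r + 2)) (hEA (2 * r + 2)))
          (union_mem (hCA j) (hEA j)))
        rintro x ⟨hx | hx, hx'⟩
        · exact ⟨hx, fun h => hx' (Or.inl h)⟩
        · exact absurd (Or.inr (hEmono hj hx)) hx'
      have h5 := abs_sub (μ k (C (2 * r + 2) ∪ E (2 * r + 2)))
        (μ k ((C (2 * r + 2) ∪ E (2 * r + 2)) \ (C j ∪ E j)))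
      have h6 : μ k (C (2 * r + 2) ∪ E (2 * r + 2)) -
        μ k ((C (2 * r + 2) ∪ E (2 * r + 2)) \ (C j ∪ E j)) = μ k (C j ∪ E j) := by linarith
      rw [h6] at h5
      have h9 := abs_sub_abs_le_abs_sub (μ k (C (2 * r + 2) ∪ E (2 * r + 2)))
        (μ k ((C (2 * r + 2) ∪ E (2 * r + 2)) \ (C j ∪ E j)))
      rw [h6] at h9
      push_cast at h1
      have h8 : (0 : ℝ) ≤ r := Nat.cast_nonneg r
      linarith
  · intro x hx
    obtain ⟨i, hi⟩ := Set.mem_iUnion.1 hx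
    exact (q i).2 (heCn i hi)
  · intro x
    exact Set.mem_iUnion

end Pool.Agent.Helper96K9.MGN
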