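import Pool.Agent.Helper96K9.MGN.E

set_option autoImplicit false

open Filter Topology

namespace Pool.Agent.Helper96K9.MGN

variable {A : BooleanSubalgebra (Set X)} {μ : ℕ → Set X → ℝ}

lemma DB_of_approx {u : Set Y} (h : ∀ i : ℕ, ∃ v, DB v ∧
    ∀ s k, |(cnt s k u : ℝ) / 2 ^ k - (cnt s k v : ℝ) / 2 ^ k| ≤ 1 / 2 ^ i) : DB u := by
  choose v hv happ using h
  choose l hl using hv
  have hll : ∀ n m, |l n - l m| ≤ 1 / 2 ^ n + 1 / 2 ^ m := by
    intro n m
    have h1 := ((hl n true).sub (hl m true)).abs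
    refine le_of_tendsto h1 (Eventually.of_forall (fun k => ?_))
    have h2 := happ n true k
    have h3 := happ m true k
    have h4 : (cnt true k (v n) : ℝ) / 2 ^ k - (cnt true k (v m) : ℝ) / 2 ^ k =
      ((cnt true k u : ℝ) / 2 ^ k - (cnt true k (v m) : ℝ) / 2 ^ k) -
        ((cnt true k u : ℝ) / 2 ^ k - (cnt true k (v n) : ℝ) / 2 ^ k) := by ring
    rw [h4]
    have h5 := abs_sub ((cnt true k u : ℝ) / 2 ^ k - (cnt true k (v m) : ℝ) / 2 ^ k)
      ((cnt true k u : ℝ) / 2 ^ k - (cnt true k (v n) : ℝ) / 2 ^ k)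
    linarith
  have hpow : ∀ N n : ℕ, N ≤ n → (1 : ℝ) / 2 ^ n ≤ 1 / 2 ^ N := by
    intro N n hn
    apply one_div_le_one_div_of_le (by positivity)
    exact pow_le_pow_right₀ (by norm_num) hn
  have hlim : Tendsto (fun n : ℕ => (1 : ℝ) / 2 ^ n) atTop (𝓝 0) := by
    have := tendsto_pow_atTop_nhds_zero_of_lt_one (r := (1 / 2 : ℝ)) (by norm_num) (by norm_num)
    refine this.congr (fun n => ?_)
    rw [div_pow, one_pow]
  have hC : CauchySeq l := by
    apply cauchySeq_of_le_tendsto_0 (fun n : ℕ => (1 : ℝ) / 2 ^ n + 1 / 2 ^ n)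
    · intro n m N hn hm
      rw [Real.dist_eq]
      have h1 := hll n m
      have h2 := hpow N n hn
      have h3 := hpow N m hm
      linarith
    · simpa using hlim.add hlim
  obtain ⟨L, hL⟩ := cauchySeq_tendsto_of_complete hC
  refine ⟨L, fun s => ?_⟩
  rw [Metric.tendsto_atTop]
  intro ε hε
  have h1 : ∀ᶠ n in atTop, |l n - L| < ε / 3 := by
    have := (Metric.tendsto_atTop.1 hL) (ε / 3) (by positivity)
    obtain ⟨N, hN⟩ := this
    filter_upwards [eventually_ge_atTop N] with n hn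
    have := hN n hn
    rwa [Real.dist_eq] at this
  have h2 : ∀ᶠ n : ℕ in atTop, (1 : ℝ) / 2 ^ n < ε / 3 := hlim.eventually_lt_const (by positivity)
  obtain ⟨n, hn1, hn2⟩ := (h1.and h2).exists
  obtain ⟨K, hK⟩ := (Metric.tendsto_atTop.1 (hl n s)) (ε / 3) (by positivity)
  refine ⟨K, fun k hk => ?_⟩
  have h3 := hK k hk
  rw [Real.dist_eq] at h3 ⊢
  have h4 := happ n s k
  have h5 : (cnt s k u : ℝ) / 2 ^ k - L = ((cnt s k u : ℝ) / 2 ^ k - (cnt s k (v n) : ℝ) / 2 ^ k) +
    ((cnt s k (v n) : ℝ) / 2 ^ k - l n) + (l n - L) := by ring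
  rw [h5]
  have h6 := abs_add_three ((cnt s k u : ℝ) / 2 ^ k - (cnt s k (v n) : ℝ) / 2 ^ k)
    ((cnt s k (v n) : ℝ) / 2 ^ k - l n) (l n - L)
  linarith

lemma ext_countable (h : (A : Set (Set X)).Countable) (a : Set X) :
    (ext A a : Set (Set X)).Countable := by
  refine (h.image2 h (fun c c' => (c ∩ a) ∪ (c' \ a))).mono ?_
  rintro _ ⟨c, hc, c', hc', rfl⟩
  exact ⟨c, hc, c', hc', rfl⟩

/-- extension inside one row -/
lemma inv_ext_row (hI : Inv A) {a : Set X} (hm : MinE A a) {m0 : ℕ} (ha : a ⊆ emb m0 Set.univ)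
    (hdb : DB (row m0 a)) : Inv (ext A a) := by
  have hrow : ∀ m, m ≠ m0 → row m a = ∅ := by
    intro m hmm
    ext y
    simp only [mem_row, Set.mem_empty_iff_false, iff_false]
    intro h
    exact hmm (ha h).1
  refine ⟨ext_countable hI.ctb a, fun x => le_ext A a (hI.sing x),
    fun m i r hr => le_ext A a (hI.zone m i r hr), ?_, ?_⟩
  · rintro _ ⟨c, hc, c', hc', rfl⟩ m
    by_cases hmm : m = m0
    · subst hmm
      have h1 : DB (row m (c ∩ a)) := by
        rcases hm c hc with h | h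
        · exact hI.db _ h m
        · have : c ∩ a = a \ (a \ c) := by
            ext x
            simp only [Set.mem_inter_iff, Set.mem_sdiff]
            tauto
          rw [this, row_sdiff]
          exact hdb.sdiff (hI.db _ h m) (row_mono Set.sdiff_subset)
      have h2 : DB (row m (c' ∩ a)) := by
        rcases hm c' hc' with h | h
        · exact hI.db _ h m
        · have : c' ∩ a = a \ (a \ c') := by
            ext x
            simp only [Set.mem_inter_iff, Set.mem_sdiff]
            tauto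
          rw [this, row_sdiff]
          exact hdb.sdiff (hI.db _ h m) (row_mono Set.sdiff_subset)
      have h3 : DB (row m (c' \ a)) := by
        have : c' \ a = c' \ (c' ∩ a) := by
          ext x
          simp only [Set.mem_inter_iff, Set.mem_sdiff]
          tauto
        rw [this, row_sdiff]
        exact (hI.db _ hc' m).sdiff h2 (row_mono Set.inter_subset_left)
      rw [row_union]
      apply h1.union h3
      apply row_disjoint
      rw [Set.disjoint_left]
      exact fun x h4 h5 => h5.2 h4.2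
    · rw [row_union, row_inter, row_sdiff, hrow m hmm, Set.inter_empty, Set.empty_union,
        Set.sdiff_empty]
      exact hI.db _ hc' m
  · rintro _ ⟨c, hc, c', hc', rfl⟩
    filter_upwards [hI.fine c' hc', eventually_gt_atTop m0] with m h1 h2
    rw [row_union, row_inter, row_sdiff, hrow m h2.ne', Set.inter_empty, Set.empty_union,
      Set.sdiff_empty]
    exact h1

lemma Inv.finite_mem (hI : Inv A) {s : Set X} (hs : s.Finite) : s ∈ A := by
  induction s, hs using Set.Finite.induction_on with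
  | empty => exact empty_mem A
  | insert _ _ ih =>
    rw [Set.insert_eq]
    exact union_mem (hI.sing _) ih

lemma finite_levels (m K : ℕ) : {x : X | x.1 = m ∧ x.2.1 < K}.Finite := by
  have h1 : ({y : Y | y.1 < K}).Finite := by
    have : {y : Y | y.1 < K} ⊆ (((Finset.range K).sigma (fun _ => Finset.univ) : Finset Y) : Set Y) := by
      intro y hy
      simp only [Finset.coe_sigma, Set.mem_sigma_iff, Finset.coe_range, Set.mem_Iio,
        Finset.coe_univ, Set.mem_univ, and_true]
      exact hy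
    exact (Finset.finite_toSet _).subset this
  refine (h1.image (fun y => (m, y))).subset ?_
  rintro ⟨n, y⟩ ⟨rfl, h⟩
  exact ⟨y, h, rfl⟩

lemma not_hot_finite (hA : ∀ k, Adm A (μ k)) (hI : Inv A)
    (hp : ∀ a ∈ A, ∃ K : ℝ, ∀ k, |μ k a| ≤ K) {s : Set X} (hs : s.Finite) : ¬ Hot A μ s := by
  induction s, hs using Set.Finite.induction_on with
  | empty =>
    intro h
    obtain ⟨k, b, -, hb, hR⟩ := h 1
    rw [Set.subset_empty_iff.1 hb, (hA k).empty] at hR
    simp at hR
    linarith
  | @insert x s _ _ ih =>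
    intro h
    rcases h.split hA (hI.sing x) with h1 | h1
    · obtain ⟨K, hK⟩ := hp {x} (hI.sing x)
      have hK0 : 0 ≤ K := (abs_nonneg _).trans (hK 0)
      obtain ⟨k, b, -, hb, hR⟩ := h1 (K + 1)
      have hbx : b ⊆ {x} := hb.trans Set.inter_subset_right
      rcases Set.subset_singleton_iff_eq.1 hbx with h2 | h2
      · rw [h2, (hA k).empty, abs_zero] at hR
        linarith
      · rw [h2] at hR
        have := hK k
        linarith
    · apply ih
      apply h1.mono
      rintro y ⟨hy | hy, hy'⟩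
      · exact absurd hy hy'
      · exact hy

/-- step inside a hot row -/
lemma step_row (hI : Inv A) (hA : ∀ k, Adm A (μ k)) (hp : ∀ a ∈ A, ∃ K : ℝ, ∀ k, |μ k a| ≤ K)
    {m0 : ℕ} (hhot : Hot A μ (emb m0 Set.univ)) : ∃ a, MinE A a ∧ Inv (ext A a) ∧ Kill A μ a := by
  obtain ⟨a, g, C, E, e, T, h1, h2, h3, h4, h5, h6, h7, h8, h9, -, -, -, -, -, -, -, hanti⟩ :=
    engine hI.ctb hA hp (hI.emb_univ m0) hhot (Φ := fun _ _ _ => True) ⟨by
      intro g _ N C hC _ _ hCh R
      obtain ⟨k, e, he, h1, h2, h3⟩ := hCh.step hA hp hC R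
      exact ⟨k, e, he, N, le_rfl, h1, h2, h3, trivial⟩, fun g _ N => ⟨N, le_rfl, trivial⟩⟩
  refine ⟨a, h1, inv_ext_row hI h1 h9 ?_, h2⟩
  apply DB_of_approx
  intro i
  -- find the zone
  have hz : ∃ n r, r < 2 ^ i ∧ C n ⊆ emb m0 (S i r) := by
    by_contra hcon
    push Not at hcon
    have key : ∀ j ≤ 2 ^ i, ∃ n, ∀ r < j, Disjoint (C n) (emb m0 (S i r)) := by
      intro j
      induction j with
      | zero => exact fun _ => ⟨0, fun r hr => by omega⟩
      | succ j ih =>
        intro hj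
        obtain ⟨n, hn⟩ := ih (by omega)
        obtain ⟨n', hn', -⟩ := h6 _ (hI.zone m0 i j (by omega))
        rcases hn' with h | h
        · exact absurd h (hcon n' j (by omega))
        · refine ⟨max n n', fun r hr => ?_⟩
          rcases Nat.lt_succ_iff_lt_or_eq.1 hr with hr' | hr'
          · exact (hn r hr').mono_left (hanti (le_max_left _ _))
          · rw [hr']
            exact h.mono_left (hanti (le_max_right _ _))
    obtain ⟨n, hn⟩ := key _ le_rfl
    apply not_hot_finite hA hI hp (finite_levels m0 i)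
    apply (h3 n).mono
    rintro ⟨m, y⟩ hy
    have hm : m = m0 := (h4 n hy).1
    subst hm
    refine ⟨rfl, ?_⟩
    by_contra hlt
    push Not at hlt
    have h10 : (y.2.2 : ℕ) % 2 ^ i < 2 ^ i := Nat.mod_lt _ (by positivity)
    exact Set.disjoint_left.1 (hn _ h10) hy ⟨rfl, hlt, rfl⟩
  obtain ⟨n, r, hr, hCn⟩ := hz
  refine ⟨row m0 (E n), hI.db _ (h7 n) m0, fun s k => ?_⟩
  have e1 : row m0 a = row m0 (E n) ∪ row m0 (a ∩ C n) := by
    rw [← h8 n, ← row_union, Set.union_comm, Set.inter_union_sdiff]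
  have e2 : Disjoint (row m0 (E n)) (row m0 (a ∩ C n)) := by
    apply row_disjoint
    rw [← h8 n]
    rw [Set.disjoint_left]
    exact fun x h10 h11 => h10.2 h11.2
  have e3 : cnt s k (row m0 (a ∩ C n)) ≤ cnt s k (S i r) := by
    apply cnt_mono
    intro y hy
    exact (hCn hy.2).2
  rw [e1, cnt_union e2]
  have e4 := cnt_S_le (s := s) (k := k) hr
  push_cast
  rw [add_div, add_sub_cancel_left, abs_of_nonneg (by positivity)]
  refine le_trans ?_ e4
  gcongr

/-- the correction lemma -/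
lemma task (hI : Inv A) (m : ℕ) {b : Set Y} (hb : emb m b ∈ A) {i r : ℕ} (hr : r < 2 ^ i) :
    ∃ t ⊆ S i r, MinE A (emb m t) ∧ Inv (ext A (emb m t)) ∧ ∀ᶠ k in atTop, dif k t = - dif k b := by
  classical
  obtain ⟨en, hen⟩ := hI.ctb.exists_eq_range ⟨∅, empty_mem A⟩
  have henA : ∀ n, en n ∈ A := fun n => by
    have : en n ∈ (A : Set (Set X)) := by
      rw [hen]
      exact ⟨n, rfl⟩
    exact this
  let Sub := {C : Set Y // emb m C ∈ A ∧ ∃ l > 0, DBw C l}
  have hstep : ∀ (s : Sub) (n : ℕ), ∃ s' : Sub, s'.1 ⊆ s.1 ∧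
      (s'.1 ⊆ row m (en n) ∨ Disjoint s'.1 (row m (en n))) := by
    rintro ⟨C, hC, l, hl, hCl⟩ n
    have e1 : emb m (C ∩ row m (en n)) ∈ A := by
      rw [emb_inter]
      exact inter_mem hC (hI.emb_row (henA n) m)
    have e2 : emb m (C \ row m (en n)) ∈ A := by
      rw [emb_sdiff]
      exact sdiff_mem hC (hI.emb_row (henA n) m)
    obtain ⟨l1, hl1⟩ := hI.db _ e1 m
    obtain ⟨l2, hl2⟩ := hI.db _ e2 m
    rw [row_emb_self] at hl1 hl2
    have e3 : l = l1 + l2 := by
      apply hCl.unique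
      have := hl1.union hl2 Set.disjoint_sdiff_inter.symm
      rwa [Set.inter_union_sdiff] at this
    rcases lt_or_ge 0 l1 with h | h
    · exact ⟨⟨_, e1, l1, h, hl1⟩, Set.inter_subset_left, Or.inl Set.inter_subset_right⟩
    · exact ⟨⟨_, e2, l2, by linarith, hl2⟩, Set.sdiff_subset, Or.inr Set.disjoint_sdiff_left⟩
  choose nx hn1 hn2 using hstep
  let s0 : Sub := ⟨S i r, hI.zone m i r hr, _, by positivity, DBw_S hr⟩
  let q : ℕ → Sub := fun n => Nat.rec s0 (fun n s => nx s n) n
  let C : ℕ → Set Y := fun n => (q n).1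
  have hCanti : Antitone C := antitone_nat_of_succ_le (fun n => hn1 (q n) n)
  have hCdec : ∀ c ∈ A, ∃ n, C n ⊆ row m c ∨ Disjoint (C n) (row m c) := by
    intro c hc
    have : c ∈ (A : Set (Set X)) := hc
    rw [hen] at this
    obtain ⟨n, rfl⟩ := this
    exact ⟨n + 1, hn2 (q n) n⟩
  have hC0 : C 0 = S i r := rfl
  obtain ⟨lb, hlb⟩ := hI.db _ hb m
  rw [row_emb_self] at hlb
  -- the admissibility
  let ok : ℕ → ℕ → Prop := fun k n => ∀ s, (dif k b).natAbs ≤ cnt s k (C n)
  have hok : ∀ n, ∀ᶠ k in atTop, ok k n := by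
    intro n
    obtain ⟨l, hl, hCl⟩ := (q n).2.2
    have h1 : ∀ s, ∀ᶠ k : ℕ in atTop, l / 2 < (cnt s k (C n) : ℝ) / 2 ^ k := fun s =>
      (hCl s).eventually_const_lt (by linarith)
    have h2 : ∀ᶠ k : ℕ in atTop, |((dif k b : ℤ) : ℝ) / 2 ^ k| < l / 2 := by
      have := hlb.dif.abs
      rw [abs_zero] at this
      exact this.eventually_lt_const (by linarith)
    filter_upwards [h1 true, h1 false, h2] with k h3 h4 h5
    rw [abs_div, abs_of_pos (by positivity : (0 : ℝ) < 2 ^ k), div_lt_iff₀ (by positivity)] at h5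
    have h6 : (((dif k b).natAbs : ℕ) : ℝ) = |((dif k b : ℤ) : ℝ)| := by
      rw [Nat.cast_natAbs, Int.cast_abs]
    intro s
    have h7 : l / 2 < (cnt s k (C n) : ℝ) / 2 ^ k := by
      cases s
      · exact h4
      · exact h3
    rw [lt_div_iff₀ (by positivity)] at h7
    have h8 : (((dif k b).natAbs : ℕ) : ℝ) ≤ (cnt s k (C n) : ℝ) := by
      rw [h6]
      linarith
    exact_mod_cast h8
  let N : ℕ → ℕ := fun k => Nat.findGreatest (ok k) k
  have hN : ∀ n, ∀ᶠ k in atTop, n ≤ N k := by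
    intro n
    filter_upwards [hok n, eventually_ge_atTop n] with k h1 h2
    exact Nat.le_findGreatest h2 h1
  have hNok : ∀ᶠ k in atTop, ok k (N k) := by
    filter_upwards [hok 0] with k h1
    exact Nat.findGreatest_spec (P := ok k) (Nat.zero_le k) h1
  let sg : ℕ → Bool := fun k => decide (dif k b < 0)
  have hex : ∀ k, ∃ τ : Set (Fin (2 ^ k)), (∀ x ∈ τ, (⟨k, (sg k, x)⟩ : Y) ∈ C (N k)) ∧
      τ.ncard ≤ (dif k b).natAbs ∧ (ok k (N k) → τ.ncard = (dif k b).natAbs) := by
    intro k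
    by_cases h : ok k (N k)
    · have h1 := h (sg k)
      unfold cnt at h1
      obtain ⟨τ, hτ, hτc⟩ := Set.exists_subset_card_eq h1
      exact ⟨τ, fun x hx => hτ hx, hτc.le, fun _ => hτc⟩
    · exact ⟨∅, fun x hx => absurd hx (Set.notMem_empty _), by simp, fun h' => absurd h' h⟩
  choose τ hτ1 hτ2 hτ3 using hex
  let t : Set Y := {y | y.2.1 = sg y.1 ∧ y.2.2 ∈ τ y.1}
  have htC : ∀ y ∈ t, y ∈ C (N y.1) := by
    rintro ⟨k, s, x⟩ ⟨h1, h2⟩
    simp only at h1 h2
    subst h1
    exact hτ1 k x h2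
  have hcnt : ∀ s k, cnt s k t = if s = sg k then (τ k).ncard else 0 := by
    intro s k
    unfold cnt
    split_ifs with h
    · congr 1
      ext x
      simp only [t, Set.mem_ofPred_eq]
      exact ⟨fun h' => h'.2, fun h' => ⟨h, h'⟩⟩
    · have : {x : Fin (2 ^ k) | (⟨k, (s, x)⟩ : Y) ∈ t} = ∅ := by
        ext x
        simp only [t, Set.mem_ofPred_eq, Set.mem_empty_iff_false, iff_false]
        exact fun h' => h h'.1
      rw [this, Set.ncard_empty]
  have hcle : ∀ s k, cnt s k t ≤ (dif k b).natAbs := by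
    intro s k
    rw [hcnt]
    split_ifs
    · exact hτ2 k
    · exact Nat.zero_le _
  have hDB : DBw t 0 := by
    intro s
    have h0 := hlb.dif.abs
    rw [abs_zero] at h0
    refine squeeze_zero (fun k => by positivity) (fun k => ?_) h0
    rw [abs_div, abs_of_pos (by positivity : (0 : ℝ) < 2 ^ k)]
    have h6 : (((dif k b).natAbs : ℕ) : ℝ) = |((dif k b : ℤ) : ℝ)| := by
      rw [Nat.cast_natAbs, Int.cast_abs]
    rw [← h6]
    have h7 := hcle s k
    gcongr
  have hdif : ∀ᶠ k in atTop, dif k t = - dif k b := by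
    filter_upwards [hNok] with k hk
    have h1 := hτ3 k hk
    have h2 := hcnt true k
    have h3 := hcnt false k
    unfold MGN.dif at h1 ⊢
    rw [h2, h3]
    by_cases hs : MGN.dif k b < 0
    · have hsg : sg k = true := by simp [sg, hs]
      rw [hsg]
      unfold MGN.dif at hs
      simp only [if_true, Bool.false_eq_true, if_false]
      rw [h1]
      omega
    · have hsg : sg k = false := by simp [sg, hs]
      rw [hsg]
      unfold MGN.dif at hs
      simp only [if_true, Bool.true_eq_false, if_false]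
      rw [h1]
      omega
  have htS : t ⊆ S i r := fun y hy => by
    rw [← hC0]
    exact hCanti (Nat.zero_le _) (htC y hy)
  have hMin : MinE A (emb m t) := by
    intro c hc
    obtain ⟨n, hn⟩ := hCdec c hc
    obtain ⟨K, hK⟩ := eventually_atTop.1 (hN n)
    have hfin : ∀ y ∈ t, y ∉ C n → y.1 < K := by
      intro y hy hyn
      by_contra hlt
      exact hyn (hCanti (hK y.1 (by omega)) (htC y hy))
    rcases hn with h | h
    · right
      apply hI.finite_mem
      apply (finite_levels m K).subset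
      rintro ⟨m', y⟩ ⟨⟨h1, h2⟩, h3⟩
      simp only at h1 h2
      subst h1
      exact ⟨rfl, hfin y h2 (fun h4 => h3 (h h4))⟩
    · left
      apply hI.finite_mem
      apply (finite_levels m K).subset
      rintro ⟨m', y⟩ ⟨h3, h1, h2⟩
      simp only at h1 h2
      subst h1
      exact ⟨rfl, hfin y h2 (fun h4 => Set.disjoint_left.1 h h4 h3)⟩
  refine ⟨t, htS, hMin, ?_, hdif⟩
  apply inv_ext_row hI hMin (emb_mono (Set.subset_univ t))
  rw [row_emb_self]
  exact ⟨0, hDB⟩

end Pool.Agent.Helper96K9.MGN
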