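import Pool.Agent.Helper96K9.MGN.F

set_option autoImplicit false

open Filter Topology

namespace Pool.Agent.Helper96K9.MGN

variable {A : BooleanSubalgebra (Set X)} {μ : ℕ → Set X → ℝ}

lemma rows_mem (hI : Inv A) (T : ℕ) : {x : X | x.1 < T} ∈ A := by
  induction T with
  | zero =>
    have : {x : X | x.1 < 0} = ∅ := by
      ext x
      simp
    rw [this]
    exact empty_mem A
  | succ T ih =>
    have : {x : X | x.1 < T + 1} = {x : X | x.1 < T} ∪ emb T Set.univ := by
      ext x
      simp only [Set.mem_ofPred_eq, Set.mem_union, mem_emb, Set.mem_univ, and_true]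
      omega
    rw [this]
    exact union_mem ih (hI.emb_univ T)

lemma not_hot_rows (hA : ∀ k, Adm A (μ k)) (hI : Inv A)
    (hno : ∀ m, ¬ Hot A μ (emb m Set.univ)) (T : ℕ) : ¬ Hot A μ {x : X | x.1 < T} := by
  induction T with
  | zero =>
    intro h
    obtain ⟨k, b, -, hb, hR⟩ := h 1
    have hb0 : b = ∅ := by
      apply Set.subset_empty_iff.1
      intro x hx
      have := hb hx
      simp at this
    rw [hb0, (hA k).empty] at hR
    simp at hR
    linarith
  | succ T ih =>
    intro h
    rcases h.split hA (hI.emb_univ T) with h1 | h1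
    · exact hno T (h1.mono Set.inter_subset_right)
    · apply ih
      apply h1.mono
      rintro x ⟨hx, hx'⟩
      simp only [Set.mem_ofPred_eq, mem_emb, Set.mem_univ, and_true] at hx hx' ⊢
      omega

lemma Hot.sdiff_rows (hA : ∀ k, Adm A (μ k)) (hI : Inv A)
    (hno : ∀ m, ¬ Hot A μ (emb m Set.univ)) {c : Set X} (h : Hot A μ c) (T : ℕ) :
    Hot A μ (c \ {x : X | x.1 < T}) := by
  rcases h.split hA (rows_mem hI T) with h1 | h1
  · exact absurd (h1.mono Set.inter_subset_right) (not_hot_rows hA hI hno T)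
  · exact h1

/-- step at infinity -/
lemma step_inf (hI : Inv A) (hCl : Cl A) (hA : ∀ k, Adm A (μ k))
    (hp : ∀ a ∈ A, ∃ K : ℝ, ∀ k, |μ k a| ≤ K) (hhot : Hot A μ Set.univ)
    (hno : ∀ m, ¬ Hot A μ (emb m Set.univ)) : ∃ a, MinE A a ∧ Inv (ext A a) ∧ Kill A μ a := by
  obtain ⟨a, g, C, E, e, T, h1, h2, h3, h4, h5, h6, h7, h8, h9, h10, h11, h12, h13, h14, h15, h16,
    hanti⟩ := engine hI.ctb hA hp (univ_mem A) hhot
      (Φ := fun g T e => (∀ m < T, row m e = ∅) ∧ Thr (refi g e) T) ⟨by
    intro g hg N C hC _ hCg hCh R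
    obtain ⟨T, hNT, hT⟩ := hI.exists_thr hg N
    have hCh' := hCh.sdiff_rows hA hI hno T
    obtain ⟨k, e0, he0, b1, b2, b3⟩ := hCh'.step hA hp (sdiff_mem hC (rows_mem hI T)) (R + 1)
    have he0C : e0 ⊆ C := fun x hx => (b1 hx).1
    obtain ⟨e, he, c1, c2, c3, c4, T', hT'⟩ := regularize hI hCl (hA k) hg hCg hT he0 he0C (by
      intro m hm
      ext y
      simp only [mem_row, Set.mem_empty_iff_false, iff_false]
      intro hy
      exact (b1 hy).2 hm)
    refine ⟨k, e, he, T, hNT, c1, ?_, ?_, c2, c4⟩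
    · have h1 := abs_sub (μ k e) (μ k e - μ k e0)
      rw [sub_sub_cancel] at h1
      linarith
    · have h1 := b3.sdiff_rows hA hI hno T'
      apply h1.mono
      rintro ⟨m, y⟩ ⟨⟨hx1, hx2⟩, hx3⟩
      refine ⟨hx1.1, ?_⟩
      intro hx4
      apply hx2
      simp only [Set.mem_ofPred_eq, not_lt] at hx3
      have h5 : y ∈ row m e := hx4
      rw [hT' m hx3] at h5
      exact h5, by
    intro g hg N
    obtain ⟨T, hNT, hT⟩ := hI.exists_thr hg N
    refine ⟨T, hNT, fun m _ => row_empty, ?_⟩
    apply thr_refi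
    intro m hm c
    rw [Set.inter_empty, Set.sdiff_empty]
    exact ⟨fine_empty, hT m hm c⟩⟩
  -- the rows of `a`
  have hrow : ∀ m n, m < T n → row m a = row m (E n) := by
    intro m n hmn
    ext y
    simp only [mem_row]
    rw [← h8 n]
    constructor
    · intro hy
      refine ⟨hy, ?_⟩
      intro hyC
      -- `y` lies in some `e i`, with `i < n` hence outside `C n`
      obtain ⟨i, hi⟩ := (h15 _).1 hy
      rcases Nat.lt_or_ge i n with hin | hin
      · have hE : e i ⊆ E n := by
          have h17 : ∀ j, i + 1 ≤ j → e i ⊆ E j := by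
            intro j hj
            induction j, hj using Nat.le_induction with
            | base =>
              rw [h10]
              exact Set.subset_union_right
            | succ j _ ih =>
              rw [h10]
              exact ih.trans Set.subset_union_left
          exact h17 n hin
        have h18 := hE hi
        rw [← h8 n] at h18
        exact h18.2 hyC
      · have h19 : T n ≤ T i := h13.monotone hin
        have h20 := (h14 i).1 m (by omega)
        have h21 : y ∈ row m (e i) := hi
        rw [h20] at h21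
        exact h21
    · exact fun h => h.1
  refine ⟨a, h1, ⟨ext_countable hI.ctb a, fun x => le_ext A a (hI.sing x),
    fun m i r hr => le_ext A a (hI.zone m i r hr), ?_, ?_⟩, h2⟩
  · rintro _ ⟨c, hc, c', hc', rfl⟩ m
    have hm : m < T (m + 1) := (Nat.lt_succ_self m).trans_le (h13.id_le (m + 1))
    have : row m ((c ∩ a) ∪ (c' \ a)) = row m ((c ∩ E (m + 1)) ∪ (c' \ E (m + 1))) := by
      simp only [row_union, row_inter, row_sdiff, hrow m _ hm]
    rw [this]
    exact hI.db _ (union_mem (inter_mem hc (h7 _)) (sdiff_mem hc' (h7 _))) m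
  · rintro _ ⟨c, hc, c', hc', rfl⟩
    obtain ⟨n1, -, hn1⟩ := h6 c hc
    obtain ⟨n2, -, hn2⟩ := h6 c' hc'
    filter_upwards [eventually_ge_atTop (T (max n1 n2))] with m hm
    -- find n
    have hex : ∃ n, m < T (n + 1) := ⟨m, (Nat.lt_succ_self m).trans_le (h13.id_le (m + 1))⟩
    classical
    set n := Nat.find hex with hn
    have hn3 : m < T (n + 1) := Nat.find_spec hex
    have hn4 : T n ≤ m := by
      rcases Nat.eq_zero_or_pos n with h0 | h0
      · rw [h0]
        exact (h13.monotone (Nat.zero_le _)).trans hm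
      · have := Nat.find_min hex (m := n - 1) (by omega)
        rw [Nat.sub_add_cancel h0] at this
        omega
    have hn5 : max n1 n2 ≤ n := by
      by_contra hlt
      push Not at hlt
      have : T (n + 1) ≤ T (max n1 n2) := h13.monotone hlt
      omega
    have : row m ((c ∩ a) ∪ (c' \ a)) = row m ((c ∩ E (n + 1)) ∪ (c' \ E (n + 1))) := by
      simp only [row_union, row_inter, row_sdiff, hrow m _ hn3]
    rw [this]
    have hcM : Mea (refi (g n) (e n)) c := (hn1 n ((le_max_left _ _).trans hn5)).refi _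
    have hcM' : Mea (refi (g n) (e n)) c' := (hn2 n ((le_max_right _ _).trans hn5)).refi _
    have hEM : Mea (refi (g n) (e n)) (E (n + 1)) := by
      rw [h10]
      exact ((h11 n).refi _).union (mea_refi _ _)
    have hbd : ∃ N, ∀ x, refi (g n) (e n) x < N := by
      obtain ⟨N, hN⟩ := (h12 n).1
      refine ⟨2 * N, fun x => ?_⟩
      have := hN x
      unfold refi
      split_ifs <;> omega
    exact (h14 n).2.fine hbd ((hcM.inter hEM).union (hcM'.sdiff hEM)) hn4

/-- the step theorem -/
theorem step (hI : Inv A) (hCl : Cl A) (hA : ∀ k, Adm A (μ k))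
    (hp : ∀ a ∈ A, ∃ K : ℝ, ∀ k, |μ k a| ≤ K) (hhot : Hot A μ Set.univ) :
    ∃ a, MinE A a ∧ Inv (ext A a) ∧ Kill A μ a := by
  by_cases h : ∃ m, Hot A μ (emb m Set.univ)
  · obtain ⟨m, hm⟩ := h
    exact step_row hI hA hp hm
  · push Not at h
    exact step_inf hI hCl hA hp hhot h

end Pool.Agent.Helper96K9.MGN
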