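import Pool.Agent.Helper96K9.MGN.B

set_option autoImplicit false

open Filter Topology

namespace Pool.Agent.Helper96K9.MGN

section defs

/-- A Boolean algebra is minimally generated: there is a continuous increasing chain of
subalgebras, indexed by the ordinals below `δ`, that starts with `{⊥, ⊤}`, whose successor steps
are minimal extensions, and whose union is everything. -/
def MinimallyGenerated (B : Type) [BooleanAlgebra B] : Prop :=
  ∃ (δ : Ordinal.{0}) (F : Ordinal.{0} → BooleanSubalgebra B),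
    0 < δ ∧ (F 0 : Set B) = {⊥, ⊤} ∧
    (∀ l < δ, Order.IsSuccLimit l → ∀ x, x ∈ F l ↔ ∃ α < l, x ∈ F α) ∧
    (∀ α, Order.succ α < δ → F α < F (Order.succ α) ∧
      ¬ ∃ D : BooleanSubalgebra B, F α < D ∧ D < F (Order.succ α)) ∧
    (∀ α β, α ≤ β → β < δ → F α ≤ F β) ∧
    ∀ x, ∃ α < δ, x ∈ F α

end defs

section gen
variable {Z : Type}

/-- the algebra generated by the first `α` generators -/
def alg (a : Ordinal.{0} → Set Z) (α : Ordinal.{0}) : BooleanSubalgebra (Set Z) :=
  BooleanSubalgebra.closure (a '' Set.Iio α)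

lemma alg_mono (a : Ordinal.{0} → Set Z) {α β : Ordinal.{0}} (h : α ≤ β) : alg a α ≤ alg a β :=
  BooleanSubalgebra.closure_mono (Set.image_mono (Set.Iio_subset_Iio h))

lemma gen_mem (a : Ordinal.{0} → Set Z) {α β : Ordinal.{0}} (h : β < α) : a β ∈ alg a α :=
  BooleanSubalgebra.subset_closure ⟨β, h, rfl⟩

lemma alg_zero (a : Ordinal.{0} → Set Z) : alg a 0 = ⊥ := by
  apply le_antisymm
  · apply BooleanSubalgebra.closure_le.2
    rintro x ⟨β, hβ, rfl⟩
    exact absurd (Set.mem_Iio.1 hβ) not_lt_zero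
  · exact bot_le

lemma alg_succ (a : Ordinal.{0} → Set Z) (α : Ordinal.{0}) :
    alg a (Order.succ α) = ext (alg a α) (a α) := by
  apply le_antisymm
  · apply BooleanSubalgebra.closure_le.2
    rintro x ⟨β, hβ, rfl⟩
    rcases (Order.lt_succ_iff.1 (Set.mem_Iio.1 hβ)).lt_or_eq with h | h
    · exact le_ext _ _ (gen_mem a h)
    · rw [h]
      exact self_mem_ext _ _
  · exact ext_le (alg_mono a (Order.le_succ α)) (gen_mem a (Order.lt_succ α))

lemma alg_congr {a a' : Ordinal.{0} → Set Z} {α : Ordinal.{0}} (h : ∀ β < α, a β = a' β) :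
    alg a α = alg a' α := by
  unfold alg
  congr 1
  apply Set.image_congr
  exact fun β hβ => h β hβ

lemma alg_limit (a : Ordinal.{0} → Set Z) {l : Ordinal.{0}} (hl : Order.IsSuccLimit l) {x : Set Z}
    (hx : x ∈ alg a l) : ∃ α < l, x ∈ alg a α := by
  let L : BooleanSubalgebra (Set Z) :=
    { carrier := {x | ∃ α < l, x ∈ alg a α}
      supClosed' := by
        rintro x ⟨α, hα, hx⟩ y ⟨β, hβ, hy⟩
        exact ⟨max α β, max_lt hα hβ, union_mem (alg_mono a (le_max_left _ _) hx)
          (alg_mono a (le_max_right _ _) hy)⟩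
      infClosed' := by
        rintro x ⟨α, hα, hx⟩ y ⟨β, hβ, hy⟩
        exact ⟨max α β, max_lt hα hβ, inter_mem (alg_mono a (le_max_left _ _) hx)
          (alg_mono a (le_max_right _ _) hy)⟩
      compl_mem' := by
        rintro x ⟨α, hα, hx⟩
        exact ⟨α, hα, compl_mem hx⟩
      bot_mem' := ⟨0, hl.bot_lt, empty_mem _⟩ }
  have : alg a l ≤ L := by
    apply BooleanSubalgebra.closure_le.2
    rintro _ ⟨β, hβ, rfl⟩
    exact ⟨Order.succ β, hl.succ_lt hβ, gen_mem a (Order.lt_succ β)⟩
  exact this hx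

/-- the first stage of an element is `0` or a successor -/
lemma first_stage (a : Ordinal.{0} → Set Z) {γ : Ordinal.{0}} {x : Set Z} (hx : x ∈ alg a γ) :
    x ∈ alg a 0 ∨ ∃ β < γ, x ∉ alg a β ∧ x ∈ alg a (Order.succ β) := by
  classical
  let P : Set Ordinal.{0} := {β | x ∈ alg a β}
  have hne : P.Nonempty := ⟨γ, hx⟩
  have hmin := csInf_mem hne
  set σ := sInf P with hσ
  have hlt : ∀ β < σ, x ∉ alg a β := fun β hβ h => not_lt.2 (csInf_le' (s := P) (a := β) h) hβ
  rcases Ordinal.zero_or_succ_or_isSuccLimit σ with h | ⟨β, h⟩ | h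
  · left
    rw [← h]
    exact hmin
  · right
    refine ⟨β, ?_, hlt β (by rw [← h]; exact Order.lt_succ β), ?_⟩
    · have : σ ≤ γ := csInf_le' hx
      rw [← h] at this
      exact (Order.lt_succ β).trans_le this
    · have h2 : x ∈ alg a σ := hmin
      rw [← h] at h2
      exact h2
  · obtain ⟨β, hβ, hxβ⟩ := alg_limit a h hmin
    exact absurd hxβ (hlt β hβ)

/-- restriction to a subalgebra -/
def res (A : BooleanSubalgebra (Set Z)) (C : BooleanSubalgebra (Set Z)) : BooleanSubalgebra A where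
  carrier := {x | x.1 ∈ C}
  supClosed' := fun _ hx _ hy => union_mem (A := C) hx hy
  infClosed' := fun _ hx _ hy => inter_mem (A := C) hx hy
  compl_mem' := fun hx => compl_mem (A := C) hx
  bot_mem' := empty_mem C

lemma mem_res {A C : BooleanSubalgebra (Set Z)} {x : A} : x ∈ res A C ↔ x.1 ∈ C := Iff.rfl

/-- push forward -/
def push (A : BooleanSubalgebra (Set Z)) (D : BooleanSubalgebra A) : BooleanSubalgebra (Set Z) where
  carrier := {x | ∃ h : x ∈ A, (⟨x, h⟩ : A) ∈ D}
  supClosed' := by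
    rintro x ⟨h1, h2⟩ y ⟨h3, h4⟩
    exact ⟨union_mem h1 h3, D.supClosed h2 h4⟩
  infClosed' := by
    rintro x ⟨h1, h2⟩ y ⟨h3, h4⟩
    exact ⟨inter_mem h1 h3, D.infClosed h2 h4⟩
  compl_mem' := by
    rintro x ⟨h1, h2⟩
    exact ⟨compl_mem h1, D.compl_mem h2⟩
  bot_mem' := ⟨empty_mem A, D.bot_mem'⟩

lemma res_push {A : BooleanSubalgebra (Set Z)} (D : BooleanSubalgebra A) : res A (push A D) = D := by
  apply BooleanSubalgebra.ext
  rintro ⟨x, hx⟩
  constructor
  · rintro ⟨_, h⟩
    exact h
  · intro h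
    exact ⟨hx, h⟩

lemma res_le {A C D : BooleanSubalgebra (Set Z)} (h : C ≤ D) : res A C ≤ res A D :=
  fun _ hx => h hx

/-- a tower with minimal (or trivial) steps gives a minimally generated algebra -/
theorem minGen_of_tower (a : Ordinal.{0} → Set Z) (W : Ordinal.{0})
    (hmin : ∀ α < W, MinE (alg a α) (a α)) : MinimallyGenerated (alg a W) := by
  classical
  -- proper steps
  let N : Set Ordinal.{0} := {α | alg a α ≠ alg a (Order.succ α) ∨ W ≤ α}
  have hN : ¬ BddAbove N := by
    rintro ⟨b, hb⟩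
    have h1 : Order.succ (max b W) ∈ N := Or.inr ((le_max_right _ _).trans (Order.le_succ _))
    have h2 := hb h1
    exact absurd (Order.succ_le_iff.1 h2) (not_lt.2 (le_max_left _ _))
  have hWN : W ∈ N := Or.inr le_rfl
  obtain ⟨w, hw⟩ := Ordinal.enumOrd_surjective hN hWN
  set ν := Ordinal.enumOrd N with hν
  have hmono := Ordinal.enumOrd_strictMono hN
  rw [← hν] at hmono
  have hle : ∀ γ < Order.succ w, ν γ ≤ W := by
    intro γ hγ
    rw [← hw]
    exact hmono.monotone (Order.lt_succ_iff.1 hγ)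
  have hlt : ∀ γ, Order.succ γ < Order.succ w → ν γ < W := by
    intro γ hγ
    rw [← hw]
    exact hmono ((Order.lt_succ γ).trans_le (Order.lt_succ_iff.1 hγ))
  -- the key fact
  have key : ∀ γ, ∀ x ∈ alg a (ν γ), x ∈ alg a 0 ∨ ∃ γ' < γ, x ∈ alg a (Order.succ (ν γ')) := by
    intro γ x hx
    rcases first_stage a hx with h | ⟨β, hβ, h1, h2⟩
    · exact Or.inl h
    · right
      have hβN : β ∈ N := by
        left
        intro heq
        rw [heq] at h1
        exact h1 h2
      obtain ⟨γ', hγ'⟩ := Ordinal.enumOrd_surjective hN hβN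
      rw [← hν] at hγ'
      refine ⟨γ', ?_, by rw [hγ']; exact h2⟩
      rw [← hγ'] at hβ
      exact hmono.lt_iff_lt.1 hβ
  refine ⟨Order.succ w, fun γ => res (alg a W) (alg a (ν γ)), ?_, ?_, ?_, ?_, ?_, ?_⟩
  · exact (bot_le : (0 : Ordinal) ≤ w).trans_lt (Order.lt_succ w)
  · have h0 : alg a (ν 0) = alg a 0 := by
      apply le_antisymm _ (alg_mono a bot_le)
      intro x hx
      rcases key 0 x hx with h | ⟨γ', hγ', -⟩
      · exact h
      · exact absurd hγ' not_lt_zero
    ext x
    have h1 : x ∈ ((res (alg a W) (alg a (ν 0)) : BooleanSubalgebra (alg a W)) : Set (alg a W)) ↔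
        x.1 ∈ alg a (ν 0) := Iff.rfl
    rw [h1, h0, alg_zero, BooleanSubalgebra.mem_bot]
    constructor
    · rintro (h | h)
      · exact Or.inl (Subtype.ext h)
      · exact Or.inr (Subtype.ext h)
    · rintro (h | h)
      · exact Or.inl (by rw [h]; rfl)
      · exact Or.inr (by rw [show x = ⊤ from h]; rfl)
  · intro l hl hlim x
    constructor
    · intro hx
      rcases key l x.1 hx with h | ⟨γ', hγ', h⟩
      · exact ⟨0, hlim.bot_lt, alg_mono a bot_le h⟩
      · refine ⟨Order.succ γ', hlim.succ_lt hγ', ?_⟩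
        exact alg_mono a (Order.succ_le_of_lt (hmono (Order.lt_succ γ'))) h
    · rintro ⟨α, hα, hx⟩
      exact alg_mono a (hmono.monotone hα.le) hx
  · intro γ hγ
    have h1 : alg a (ν (Order.succ γ)) = alg a (Order.succ (ν γ)) := by
      apply le_antisymm
      · intro x hx
        rcases key _ x hx with h | ⟨γ', hγ', h⟩
        · exact alg_mono a bot_le h
        · exact alg_mono a (Order.succ_le_succ (hmono.monotone (Order.lt_succ_iff.1 hγ'))) h
      · exact alg_mono a (Order.succ_le_of_lt (hmono (Order.lt_succ γ)))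
    have h2 : ν γ < W := hlt γ hγ
    have h3 : alg a (ν γ) ≠ alg a (Order.succ (ν γ)) := by
      have := Ordinal.enumOrd_mem hN γ
      rcases this with h | h
      · exact h
      · exact absurd h (not_le.2 h2)
    have h4 : alg a (Order.succ (ν γ)) ≤ alg a W := alg_mono a (Order.succ_le_of_lt h2)
    have h5 : alg a (ν γ) ≤ alg a W := alg_mono a h2.le
    refine ⟨?_, ?_⟩
    · rw [lt_iff_le_and_ne]
      refine ⟨res_le (by rw [h1]; exact alg_mono a (Order.le_succ _)), ?_⟩
      intro heq
      apply h3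
      apply le_antisymm (alg_mono a (Order.le_succ _))
      intro x hx
      have h6 : (⟨x, h4 hx⟩ : alg a W) ∈ res (alg a W) (alg a (ν (Order.succ γ))) := by
        rw [mem_res, h1]
        exact hx
      have h7 : (⟨x, h4 hx⟩ : alg a W) ∈ res (alg a W) (alg a (ν γ)) := by
        change res (alg a W) (alg a (ν γ)) = res (alg a W) (alg a (ν (Order.succ γ))) at heq
        rw [heq]
        exact h6
      exact h7
    · rintro ⟨D, hD1, hD2⟩
      have h6 : alg a (ν γ) ≤ push (alg a W) D := fun x hx => ⟨h5 hx, hD1.le (show (⟨x, h5 hx⟩ :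
        alg a W) ∈ res (alg a W) (alg a (ν γ)) from hx)⟩
      have h7 : push (alg a W) D ≤ ext (alg a (ν γ)) (a (ν γ)) := by
        rw [← alg_succ, ← h1]
        rintro x ⟨hx1, hx2⟩
        exact hD2.le hx2
      rcases (hmin (ν γ) h2).minimal h6 h7 with h | h
      · apply hD1.ne
        show res (alg a W) (alg a (ν γ)) = D
        rw [← h, res_push]
      · apply hD2.ne
        show D = res (alg a W) (alg a (ν (Order.succ γ)))
        rw [h1, alg_succ, ← h, res_push]
  · intro α β hαβ _
    exact res_le (alg_mono a (hmono.monotone hαβ))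
  · intro x
    refine ⟨w, Order.lt_succ w, ?_⟩
    show x.1 ∈ alg a (ν w)
    rw [hw]
    exact x.2

end gen

end Pool.Agent.Helper96K9.MGN
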