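import Pool.Agent.Helper96K9.MGN.G
import Pool.Agent.Helper96K9.MGN.H

set_option autoImplicit false

open Filter Topology

namespace Pool.Agent.Helper96K9.MGN

section seq
variable {Z : Type}

open Classical in
/-- indicator -/
noncomputable def ind (c : Set Z) (x : Z) : ℕ := if x ∈ c then 1 else 0

lemma ind_mem {c : Set Z} {x : Z} (h : x ∈ c) : ind c x = 1 := by simp [ind, h]

lemma ind_not_mem {c : Set Z} {x : Z} (h : x ∉ c) : ind c x = 0 := by simp [ind, h]

/-- the path of a point in the binary tree of the sets `c n` -/
noncomputable def path (c : ℕ → Set Z) (x : Z) : ℕ → ℕ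
  | 0 => 1
  | n + 1 => 2 * path c x n + ind (c n) x

lemma path_succ (c : ℕ → Set Z) (x : Z) (n : ℕ) :
    path c x (n + 1) = 2 * path c x n + ind (c n) x := rfl

lemma ind_le (c : Set Z) (x : Z) : ind c x ≤ 1 := by
  by_cases h : x ∈ c
  · rw [ind_mem h]
  · rw [ind_not_mem h]
    exact Nat.zero_le _

lemma path_bounds (c : ℕ → Set Z) (x : Z) (n : ℕ) : 2 ^ n ≤ path c x n ∧ path c x n < 2 ^ (n + 1) := by
  induction n with
  | zero => simp [path]
  | succ n ih =>
    have h3 : 2 ^ (n + 1 + 1) = 2 * 2 ^ (n + 1) := by ring
    have h4 : 2 ^ (n + 1) = 2 * 2 ^ n := by ring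
    have h5 := ind_le (c n) x
    rw [path_succ, h3]
    omega

lemma log_path (c : ℕ → Set Z) (x : Z) (n : ℕ) : Nat.log 2 (path c x n) = n := by
  obtain ⟨h1, h2⟩ := path_bounds c x n
  exact (Nat.log_eq_iff (Or.inr ⟨by norm_num, by
    have : 0 < 2 ^ n := by positivity
    omega⟩)).2 ⟨h1, h2⟩

lemma path_succ_eq {c : ℕ → Set Z} {x y : Z} {n : ℕ} (h : path c x (n + 1) = path c y (n + 1)) :
    path c x n = path c y n ∧ (x ∈ c n ↔ y ∈ c n) := by
  rw [path_succ, path_succ] at h
  by_cases h3 : x ∈ c n <;> by_cases h4 : y ∈ c n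
  · rw [ind_mem h3, ind_mem h4] at h
    exact ⟨by omega, iff_of_true h3 h4⟩
  · rw [ind_mem h3, ind_not_mem h4] at h
    omega
  · rw [ind_not_mem h3, ind_mem h4] at h
    omega
  · rw [ind_not_mem h3, ind_not_mem h4] at h
    exact ⟨by omega, iff_of_false h3 h4⟩

lemma path_le {c : ℕ → Set Z} {x y : Z} {n : ℕ} (h : path c x n = path c y n) :
    ∀ n' ≤ n, path c x n' = path c y n' := by
  induction n with
  | zero =>
    intro n' hn'
    rw [Nat.le_zero.1 hn']
    exact h
  | succ n ih =>
    intro n' hn'
    rcases Nat.lt_or_ge n n' with h1 | h1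
    · have : n' = n + 1 := by omega
      rw [this]
      exact h
    · exact ih (path_succ_eq h).1 n' h1

lemma path_lt {c : ℕ → Set Z} {x y : Z} {n : ℕ} (h : path c x n = path c y n) :
    ∀ n' < n, (x ∈ c n' ↔ y ∈ c n') := fun n' hn' => (path_succ_eq (path_le h (n' + 1) hn')).2

/-- every countably generated algebra is generated by a sequence with minimal steps -/
lemma exists_min_seq (c : ℕ → Set Z) : ∃ b : ℕ → Set Z,
    (∀ M, ∀ d ∈ BooleanSubalgebra.closure (b '' Set.Iio M), d ∩ b M = ∅ ∨ b M \ d = ∅) ∧
    BooleanSubalgebra.closure (Set.range b) = BooleanSubalgebra.closure (Set.range c) := by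
  classical
  let b : ℕ → Set Z := fun M => {x | path c x (Nat.log 2 M) = M ∧ x ∈ c (Nat.log 2 M)}
  refine ⟨b, ?_, ?_⟩
  · intro M
    have key : ∀ d ∈ BooleanSubalgebra.closure (b '' Set.Iio M), ∀ x y,
        path c x (Nat.log 2 M) = M → path c y (Nat.log 2 M) = M → (x ∈ d ↔ y ∈ d) := by
      intro d hd
      induction hd using BooleanSubalgebra.closure_bot_sup_induction with
      | mem d hd =>
        obtain ⟨M', hM', rfl⟩ := hd
        intro x y hx hy
        have hxy : path c x (Nat.log 2 M) = path c y (Nat.log 2 M) := hx.trans hy.symm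
        have hlog : Nat.log 2 M' ≤ Nat.log 2 M := Nat.log_mono_right (le_of_lt hM')
        have h1 := path_le hxy _ hlog
        rcases hlog.lt_or_eq with h2 | h2
        · have h3 := path_lt hxy _ h2
          show (path c x (Nat.log 2 M') = M' ∧ x ∈ c (Nat.log 2 M')) ↔
            (path c y (Nat.log 2 M') = M' ∧ y ∈ c (Nat.log 2 M'))
          rw [h1, h3]
        · have hne : M' ≠ M := ne_of_lt hM'
          show (path c x (Nat.log 2 M') = M' ∧ x ∈ c (Nat.log 2 M')) ↔
            (path c y (Nat.log 2 M') = M' ∧ y ∈ c (Nat.log 2 M'))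
          rw [h2, hx, hy]
          constructor
          · exact fun h => absurd h.1.symm hne
          · exact fun h => absurd h.1.symm hne
      | bot =>
        intro x y _ _
        exact Iff.rfl
      | sup d hd d' hd' ih1 ih2 =>
        intro x y hx hy
        simp only [Set.sup_eq_union, Set.mem_union]
        rw [ih1 x y hx hy, ih2 x y hx hy]
      | compl d hd ih =>
        intro x y hx hy
        simp only [Set.mem_compl_iff]
        rw [ih x y hx hy]
    intro d hd
    by_cases h : ∃ x, x ∈ d ∩ b M
    · right
      obtain ⟨x, hx1, hx2⟩ := h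
      ext y
      simp only [Set.mem_sdiff, Set.mem_empty_iff_false, iff_false, not_and, not_not]
      intro hy
      exact (key d hd x y hx2.1 hy.1).1 hx1
    · left
      rw [Set.eq_empty_iff_forall_notMem]
      exact fun x hx => h ⟨x, hx⟩
  · apply le_antisymm
    · apply BooleanSubalgebra.closure_le.2
      have hpath : ∀ n M, {x | path c x n = M} ∈ BooleanSubalgebra.closure (Set.range c) := by
        intro n
        induction n with
        | zero =>
          intro M
          by_cases hM : M = 1
          · have : {x | path c x 0 = M} = Set.univ := by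
              ext x
              simp [path, hM]
            rw [this]
            exact univ_mem _
          · have : {x | path c x 0 = M} = ∅ := by
              ext x
              simp only [path, Set.mem_ofPred_eq, Set.mem_empty_iff_false, iff_false]
              exact fun h => hM h.symm
            rw [this]
            exact empty_mem _
        | succ n ih =>
          intro M
          have hcn : c n ∈ BooleanSubalgebra.closure (Set.range c) :=
            BooleanSubalgebra.subset_closure ⟨n, rfl⟩
          rcases Nat.even_or_odd' M with ⟨q, hq | hq⟩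
          · have : {x | path c x (n + 1) = M} = {x | path c x n = q} \ c n := by
              ext x
              simp only [Set.mem_ofPred_eq, Set.mem_sdiff]
              rw [path_succ, hq]
              by_cases h3 : x ∈ c n
              · rw [ind_mem h3]
                constructor
                · intro h
                  omega
                · exact fun h => absurd h3 h.2
              · rw [ind_not_mem h3]
                constructor
                · exact fun h => ⟨by omega, h3⟩
                · rintro ⟨h, -⟩
                  omega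
            rw [this]
            exact sdiff_mem (ih q) hcn
          · have : {x | path c x (n + 1) = M} = {x | path c x n = q} ∩ c n := by
              ext x
              simp only [Set.mem_ofPred_eq, Set.mem_inter_iff]
              rw [path_succ, hq]
              by_cases h3 : x ∈ c n
              · rw [ind_mem h3]
                constructor
                · exact fun h => ⟨by omega, h3⟩
                · rintro ⟨h, -⟩
                  omega
              · rw [ind_not_mem h3]
                constructor
                · intro h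
                  omega
                · exact fun h => absurd h.2 h3
            rw [this]
            exact inter_mem (ih q) hcn
      rintro _ ⟨M, rfl⟩
      exact inter_mem (hpath _ M) (BooleanSubalgebra.subset_closure ⟨_, rfl⟩)
    · apply BooleanSubalgebra.closure_le.2
      rintro _ ⟨n, rfl⟩
      have : c n = ⋃ M ∈ (Finset.range (2 ^ (n + 1))).filter (fun M => Nat.log 2 M = n), b M := by
        ext x
        simp only [Set.mem_iUnion, Finset.mem_filter, Finset.mem_range, exists_prop]
        constructor
        · intro hx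
          refine ⟨path c x n, ⟨(path_bounds c x n).2, log_path c x n⟩, ?_⟩
          show path c x (Nat.log 2 (path c x n)) = path c x n ∧ x ∈ c (Nat.log 2 (path c x n))
          rw [log_path]
          exact ⟨rfl, hx⟩
        · rintro ⟨M, ⟨-, hM⟩, hx⟩
          have h2 := hx.2
          rwa [hM] at h2
      rw [this]
      exact biUnion_mem _ (fun M _ => BooleanSubalgebra.subset_closure ⟨M, rfl⟩)

end seq

/-- sets that are periodic on all large levels -/
def Per (u : Set Y) : Prop :=
  ∃ (i k0 : ℕ) (R : Set ℕ), ∀ y : Y, k0 ≤ y.1 → (y ∈ u ↔ (y.2.2 : ℕ) % 2 ^ i ∈ R)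

lemma Per.compl {u : Set Y} (h : Per u) : Per uᶜ := by
  obtain ⟨i, k0, R, h⟩ := h
  refine ⟨i, k0, Rᶜ, fun y hy => ?_⟩
  rw [Set.mem_compl_iff, Set.mem_compl_iff, h y hy]

lemma Per.union {u v : Set Y} (hu : Per u) (hv : Per v) : Per (u ∪ v) := by
  obtain ⟨i, k0, R, h⟩ := hu
  obtain ⟨i', k0', R', h'⟩ := hv
  refine ⟨max i i', max k0 k0', {r | r % 2 ^ i ∈ R ∨ r % 2 ^ i' ∈ R'}, fun y hy => ?_⟩
  rw [Set.mem_union, h y ((le_max_left _ _).trans hy), h' y ((le_max_right _ _).trans hy)]
  simp only [Set.mem_ofPred_eq]
  rw [Nat.mod_mod_of_dvd _ (pow_dvd_pow 2 (le_max_left i i')),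
    Nat.mod_mod_of_dvd _ (pow_dvd_pow 2 (le_max_right i i'))]

lemma Per.empty : Per ∅ := ⟨0, 0, ∅, fun y _ => by simp⟩

lemma Per.univ : Per Set.univ := ⟨0, 0, Set.univ, fun y _ => by simp⟩

lemma Per.S (i r : ℕ) : Per (S i r) := ⟨i, i, {r}, fun y hy => by simp [MGN.S, hy]⟩

lemma Per.singleton (y0 : Y) : Per {y0} := ⟨0, y0.1 + 1, ∅, fun y hy => by
  simp only [Set.mem_singleton_iff, Set.mem_empty_iff_false, iff_false]
  rintro rfl
  omega⟩

lemma Per.DB {u : Set Y} (h : Per u) : DB u := by
  classical
  obtain ⟨i, k0, R, h⟩ := h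
  refine ⟨((Finset.range (2 ^ i)).filter (fun t => t ∈ R)).card / 2 ^ i, fun s => ?_⟩
  refine Tendsto.congr' ?_ tendsto_const_nhds
  filter_upwards [eventually_ge_atTop (max k0 i)] with k hk
  rw [cnt_residue ((le_max_right _ _).trans hk) (R := R) (fun t => h _ ((le_max_left _ _).trans hk))]
  rw [div_eq_div_iff (by positivity) (by positivity)]
  have : (2 : ℝ) ^ k = 2 ^ (k - i) * 2 ^ i := by
    rw [← pow_add, Nat.sub_add_cancel ((le_max_right _ _).trans hk)]
  rw [this]
  push_cast
  ring

/-- the generating family of the base algebra -/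
def Fam : Set (Set X) := {a | (∃ m i r, r < 2 ^ i ∧ a = emb m (S i r)) ∨ ∃ x, a = {x}}

lemma fam_countable : Fam.Countable := by
  have h1 : (Set.range (fun p : ℕ × ℕ × ℕ => emb p.1 (S p.2.1 p.2.2))).Countable :=
    Set.countable_range _
  have h2 : (Set.range (fun x : X => ({x} : Set X))).Countable := Set.countable_range _
  refine (h1.union h2).mono ?_
  rintro a (⟨m, i, r, -, rfl⟩ | ⟨x, rfl⟩)
  · exact Or.inl ⟨(m, i, r), rfl⟩
  · exact Or.inr ⟨x, rfl⟩

lemma base_row {a : Set X} (ha : a ∈ BooleanSubalgebra.closure Fam) :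
    (∀ m, Per (row m a)) ∧ ∀ᶠ m in atTop, row m a = ∅ ∨ row m a = Set.univ := by
  induction ha using BooleanSubalgebra.closure_bot_sup_induction with
  | mem d hd =>
    rcases hd with ⟨m, i, r, -, rfl⟩ | ⟨⟨m, y⟩, rfl⟩
    · refine ⟨fun m' => ?_, ?_⟩
      · by_cases h : m' = m
        · rw [h, row_emb_self]
          exact Per.S i r
        · rw [row_emb_ne h]
          exact Per.empty
      · filter_upwards [eventually_gt_atTop m] with m' hm'
        left
        exact row_emb_ne hm'.ne'
    · have h1 : ({(m, y)} : Set X) = emb m {y} := by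
        ext ⟨m', y'⟩
        simp [Prod.ext_iff]
      rw [h1]
      refine ⟨fun m' => ?_, ?_⟩
      · by_cases h : m' = m
        · rw [h, row_emb_self]
          exact Per.singleton y
        · rw [row_emb_ne h]
          exact Per.empty
      · filter_upwards [eventually_gt_atTop m] with m' hm'
        left
        exact row_emb_ne hm'.ne'
  | bot => exact ⟨fun m => Per.empty, Eventually.of_forall (fun m => Or.inl rfl)⟩
  | sup d hd d' hd' ih1 ih2 =>
    refine ⟨fun m => (ih1.1 m).union (ih2.1 m), ?_⟩
    filter_upwards [ih1.2, ih2.2] with m h1 h2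
    show row m d ∪ row m d' = ∅ ∨ row m d ∪ row m d' = Set.univ
    rcases h1 with h1 | h1 <;> rcases h2 with h2 | h2 <;> simp [h1, h2]
  | compl d hd ih =>
    refine ⟨fun m => (ih.1 m).compl, ?_⟩
    filter_upwards [ih.2] with m h1
    show (row m d)ᶜ = ∅ ∨ (row m d)ᶜ = Set.univ
    rcases h1 with h1 | h1 <;> simp [h1]

lemma base_inv (hc : (BooleanSubalgebra.closure Fam : Set (Set X)).Countable) :
    Inv (BooleanSubalgebra.closure Fam) := by
  refine ⟨hc, fun x => BooleanSubalgebra.subset_closure (Or.inr ⟨x, rfl⟩),
    fun m i r hr => BooleanSubalgebra.subset_closure (Or.inl ⟨m, i, r, hr, rfl⟩),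
    fun a ha m => ((base_row ha).1 m).DB, fun a ha => ?_⟩
  filter_upwards [(base_row ha).2] with m h
  rcases h with h | h
  · rw [h]
    exact fine_empty
  · rw [h]
    exact fine_univ

end Pool.Agent.Helper96K9.MGN
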