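import Pool.Agent.Helper96K9.MGN.I

set_option autoImplicit false

open Filter Topology

namespace Pool.Agent.Helper96K9.MGN

/-- `C` is closed and unbounded in `ω₁` -/
def IsClub (C : Set Ordinal.{0}) : Prop :=
  C ⊆ Set.Iio (Ordinal.omega 1) ∧
  (∀ β < Ordinal.omega 1, ∃ γ ∈ C, β ≤ γ) ∧
  ∀ γ < Ordinal.omega 1, 0 < γ → (∀ β < γ, ∃ δ ∈ C, β < δ ∧ δ < γ) → γ ∈ C

/-- Jensen's diamond principle `◇`: there are sets `A α ⊆ α`, `α < ω₁`, such that for every
`S ⊆ ω₁` the set of all `α < ω₁` with `S ∩ α = A α` is stationary, i.e. meets every club. -/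
def Diamond : Prop :=
  ∃ A : Ordinal.{0} → Set Ordinal.{0}, (∀ α < Ordinal.omega 1, A α ⊆ Set.Iio α) ∧
    ∀ S ⊆ Set.Iio (Ordinal.omega 1), ∀ C, IsClub C → ∃ α ∈ C, S ∩ Set.Iio α = A α

lemma countable_Iio' {α : Ordinal.{0}} (h : α < Ordinal.omega 1) : Countable (Set.Iio α) := by
  rw [← Cardinal.mk_le_aleph0_iff]
  rw [Cardinal.mk_Iio_ordinal]
  rw [← Cardinal.ord_aleph] at h
  have h1 := Cardinal.lt_ord.1 h
  have h2 : α.card ≤ Cardinal.aleph0 := by
    rw [← Cardinal.succ_aleph0] at h1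
    exact Order.lt_succ_iff.1 h1
  exact Cardinal.lift_le_aleph0.2 h2

lemma bddω {ι : Type*} [Countable ι] (f : ι → Ordinal.{0})
    (h : ∀ i, f i < Ordinal.omega 1) : ∃ b < Ordinal.omega 1, ∀ i, f i ≤ b :=
  ⟨⨆ i, f i, Ordinal.iSup_lt_omega_one h, fun i => Ordinal.le_iSup f i⟩

lemma omega_limit : Order.IsSuccLimit (Ordinal.omega 1) := by
  rw [← Cardinal.ord_aleph]
  exact Cardinal.isSuccLimit_ord (Cardinal.aleph0_le_aleph 1)

lemma succ_lt_W {x : Ordinal.{0}} (hx : x < Ordinal.omega 1) : Order.succ x < Ordinal.omega 1 :=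
  omega_limit.succ_lt hx

lemma omega0_lt_W : Ordinal.omega0 < Ordinal.omega.{0} 1 := Ordinal.omega0_lt_omega_one

lemma club_Ioi {C : Set Ordinal.{0}} (hC : IsClub C) {β : Ordinal.{0}} (hβ : β < Ordinal.omega 1) :
    IsClub (C ∩ Set.Ioi β) := by
  refine ⟨fun x hx => hC.1 hx.1, ?_, ?_⟩
  · intro β' hβ'
    obtain ⟨γ, h1, h2⟩ := hC.2.1 (max (Order.succ β) β') (max_lt (succ_lt_W hβ) hβ')
    refine ⟨γ, ⟨h1, ?_⟩, (le_max_right _ _).trans h2⟩
    exact (Order.lt_succ β).trans_le ((le_max_left _ _).trans h2)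
  · intro γ hγ hγ0 h
    refine ⟨hC.2.2 γ hγ hγ0 (fun β' hβ' => ?_), ?_⟩
    · obtain ⟨δ, hδ, h1⟩ := h β' hβ'
      exact ⟨δ, hδ.1, h1⟩
    · obtain ⟨δ, hδ, -, h2⟩ := h 0 hγ0
      exact (show β < δ from hδ.2).trans h2

lemma club_Iio : IsClub (Set.Iio (Ordinal.omega 1)) := by
  refine ⟨subset_rfl, fun β hβ => ⟨β, hβ, le_rfl⟩, fun γ hγ _ _ => hγ⟩

/-- enumeration of codes, every code cofinally often -/
lemma exists_enum {A : Ordinal.{0} → Set Ordinal.{0}}
    (hA : ∀ S ⊆ Set.Iio (Ordinal.omega 1), ∀ C, IsClub C → ∃ α ∈ C, S ∩ Set.Iio α = A α) :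
    ∃ e : Ordinal.{0} → ℕ × Set X, ∀ p, ∀ β < Ordinal.omega 1, ∃ ξ, β ≤ ξ ∧ ξ < Ordinal.omega 1 ∧
      e ξ = p := by
  classical
  obtain ⟨enc, henc⟩ := exists_injective_nat (ℕ ⊕ X)
  let code : ℕ × Set X → Set Ordinal.{0} := fun p =>
    {o | ∃ q : ℕ ⊕ X, (q = Sum.inl p.1 ∨ ∃ x, x ∈ p.2 ∧ q = Sum.inr x) ∧ o = (enc q : Ordinal)}
  have hcode : Function.Injective code := by
    have key : ∀ p p' : ℕ × Set X, code p = code p' → p.1 = p'.1 ∧ p.2 ⊆ p'.2 := by
      intro p p' hpp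
      refine ⟨?_, ?_⟩
      · have h1 : (enc (Sum.inl p.1) : Ordinal) ∈ code p := ⟨_, Or.inl rfl, rfl⟩
        rw [hpp] at h1
        obtain ⟨q, hq, hq2⟩ := h1
        have h2 : enc (Sum.inl p.1) = enc q := by exact_mod_cast hq2
        have h3 := henc h2
        rcases hq with hq | ⟨x, -, hq⟩
        · rw [hq] at h3
          exact Sum.inl.inj h3
        · rw [hq] at h3
          exact absurd h3 (by simp)
      · intro x hx
        have h1 : (enc (Sum.inr x) : Ordinal) ∈ code p := ⟨_, Or.inr ⟨x, hx, rfl⟩, rfl⟩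
        rw [hpp] at h1
        obtain ⟨q, hq, hq2⟩ := h1
        have h2 : enc (Sum.inr x) = enc q := by exact_mod_cast hq2
        have h3 := henc h2
        rcases hq with hq | ⟨x', hx', hq⟩
        · rw [hq] at h3
          exact absurd h3 (by simp)
        · rw [hq] at h3
          have h4 := Sum.inr.inj h3
          rw [h4]
          exact hx'
    intro p p' hpp
    obtain ⟨h1, h2⟩ := key p p' hpp
    obtain ⟨-, h3⟩ := key p' p hpp.symm
    exact Prod.ext h1 (subset_antisymm h2 h3)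
  refine ⟨fun ξ => Function.invFun code (A ξ), fun p β hβ => ?_⟩
  have hp : code p ⊆ Set.Iio Ordinal.omega0 := by
    rintro o ⟨q, -, rfl⟩
    exact Ordinal.natCast_lt_omega0 _
  obtain ⟨α, ⟨hα, hα2⟩, hX⟩ := hA (code p) (hp.trans (Set.Iio_subset_Iio omega0_lt_W.le))
    _ (club_Ioi club_Iio (max_lt hβ omega0_lt_W))
  have hα3 : max β Ordinal.omega0 < α := hα2
  refine ⟨α, ((le_max_left _ _).trans_lt hα3).le, hα, ?_⟩
  have h1 : A α = code p := by
    rw [← hX]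
    apply Set.inter_eq_left.2
    exact hp.trans (Set.Iio_subset_Iio ((le_max_right _ _).trans_lt hα3).le)
  show Function.invFun code (A α) = p
  rw [h1]
  exact Function.leftInverse_invFun hcode p

section rec
variable (A : Ordinal.{0} → Set Ordinal.{0}) (e : Ordinal.{0} → ℕ × Set X) (b : ℕ → Set X)

/-- the guessed sequence of measures -/
noncomputable def gs (α : Ordinal.{0}) (k : ℕ) (a : Set X) : ℝ :=
  sSup {v | ∃ q : ℚ, v = q ∧ ∃ ξ ∈ A α, e ξ = (Encodable.encode (k, q), a)}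

/-- the correction task with code `p` -/
def Tsk (p : ℕ × Set X) (x : Set X) : Prop :=
  ∃ m i r, p.1 = Encodable.encode (m, i, r) ∧ r < 2 ^ i ∧ ∃ t ⊆ S i r, x = emb m t ∧
    ∀ᶠ k in atTop, dif k t = - dif k (row m p.2)

/-- what we want from the next generator -/
def Want (α : Ordinal.{0}) (B : BooleanSubalgebra (Set X)) (x : Set X) : Prop :=
  MinE B x ∧ Inv (ext B x) ∧ ((∃ β, α = Order.succ β ∧ Tsk (e β) x) ∨
    ((¬ ∃ β, α = Order.succ β) ∧ Kill B (gs A e α) x))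

open Classical in
/-- the next generator -/
noncomputable def nxt (α : Ordinal.{0}) (B : BooleanSubalgebra (Set X)) : Set X :=
  if h : ∃ n : ℕ, α = n then b h.choose else
    if h : ∃ x, Want A e α B x then h.choose else ∅

/-- the sequence of generators -/
noncomputable def gen : Ordinal.{0} → Set X :=
  Ordinal.lt_wf.fix (fun α F => nxt A e b α
    (BooleanSubalgebra.closure {x | ∃ (β : Ordinal.{0}) (h : β < α), x = F β h}))

lemma gen_eq (α : Ordinal.{0}) : gen A e b α = nxt A e b α (alg (gen A e b) α) := by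
  unfold gen
  rw [WellFounded.fix_eq]
  congr 2
  ext x
  constructor
  · rintro ⟨β, hβ, rfl⟩
    exact ⟨β, hβ, rfl⟩
  · rintro ⟨β, hβ, rfl⟩
    exact ⟨β, hβ, rfl⟩

lemma gen_nat (n : ℕ) : gen A e b n = b n := by
  rw [gen_eq]
  unfold nxt
  have h : ∃ m : ℕ, ((n : ℕ) : Ordinal.{0}) = m := ⟨n, rfl⟩
  rw [dif_pos h]
  have h2 := h.choose_spec
  have h3 : n = h.choose := by exact_mod_cast h2
  rw [← h3]

lemma gen_big {α : Ordinal.{0}} (hα : Ordinal.omega0 ≤ α) :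
    (Want A e α (alg (gen A e b) α) (gen A e b α)) ∨
    ((¬ ∃ x, Want A e α (alg (gen A e b) α) x) ∧ gen A e b α = ∅) := by
  have h : ¬ ∃ n : ℕ, α = n := by
    rintro ⟨n, rfl⟩
    exact absurd (Ordinal.natCast_lt_omega0 n) (not_lt.2 hα)
  by_cases h2 : ∃ x, Want A e α (alg (gen A e b) α) x
  · left
    have h3 : gen A e b α = h2.choose := by
      rw [gen_eq]
      unfold nxt
      rw [dif_neg h, dif_pos h2]
    rw [h3]
    exact h2.choose_spec
  · right
    refine ⟨h2, ?_⟩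
    rw [gen_eq]
    unfold nxt
    rw [dif_neg h, dif_neg h2]

lemma gen_min_big {α : Ordinal.{0}} (hα : Ordinal.omega0 ≤ α) :
    MinE (alg (gen A e b) α) (gen A e b α) := by
  rcases gen_big A e b hα with h | ⟨-, h⟩
  · exact h.1
  · rw [h]
    intro c _
    left
    rw [Set.inter_empty]
    exact empty_mem _

lemma gen_inv_succ {α : Ordinal.{0}} (hα : Ordinal.omega0 ≤ α) (hI : Inv (alg (gen A e b) α)) :
    Inv (alg (gen A e b) (Order.succ α)) := by
  rw [alg_succ]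
  rcases gen_big A e b hα with h | ⟨-, h⟩
  · exact h.2.1
  · rw [h, ext_eq_of_mem (empty_mem _)]
    exact hI

lemma alg_countable {a : Ordinal.{0} → Set X} {α : Ordinal.{0}} (hα : α < Ordinal.omega 1) :
    (alg a α : Set (Set X)).Countable := by
  induction α using Ordinal.lt_wf.induction with
  | _ α ih =>
    rcases Ordinal.zero_or_succ_or_isSuccLimit α with h | ⟨β, h⟩ | h
    · rw [h, alg_zero, BooleanSubalgebra.coe_bot]
      exact (Set.toFinite _).countable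
    · have hβ : β < α := by rw [← h]; exact Order.lt_succ β
      have h1 := ih β hβ (hβ.trans hα)
      have h2 : alg a α = ext (alg a β) (a β) := by
        rw [← alg_succ]
        congr 1
        exact h.symm
      rw [h2]
      exact ext_countable h1 _
    · have := countable_Iio' hα
      have h1 : (alg a α : Set (Set X)) ⊆ ⋃ β : Set.Iio α, (alg a β.1 : Set (Set X)) := by
        intro x hx
        obtain ⟨β, hβ, hxβ⟩ := alg_limit a h hx
        exact Set.mem_iUnion.2 ⟨⟨β, hβ⟩, hxβ⟩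
      have h2 : ∀ β : Set.Iio α, (alg a β.1 : Set (Set X)).Countable := by
        rintro ⟨β, hβ⟩
        exact ih β (Set.mem_Iio.1 hβ) ((Set.mem_Iio.1 hβ).trans hα)
      exact (Set.countable_iUnion h2).mono h1

variable {A e b}

lemma alg_nat (n : ℕ) : alg (gen A e b) n = BooleanSubalgebra.closure (b '' Set.Iio n) := by
  unfold alg
  congr 1
  ext x
  constructor
  · rintro ⟨β, hβ, rfl⟩
    obtain ⟨m, rfl⟩ := Ordinal.lt_omega0.1 ((Set.mem_Iio.1 hβ).trans (Ordinal.natCast_lt_omega0 n))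
    refine ⟨m, ?_, (gen_nat A e b m).symm⟩
    have := Set.mem_Iio.1 hβ
    exact_mod_cast this
  · rintro ⟨m, hm, rfl⟩
    refine ⟨m, ?_, gen_nat A e b m⟩
    have := Set.mem_Iio.1 hm
    rw [Set.mem_Iio]
    exact_mod_cast this

lemma alg_omega : alg (gen A e b) Ordinal.omega0 = BooleanSubalgebra.closure (Set.range b) := by
  unfold alg
  congr 1
  ext x
  constructor
  · rintro ⟨β, hβ, rfl⟩
    obtain ⟨m, rfl⟩ := Ordinal.lt_omega0.1 (Set.mem_Iio.1 hβ)
    exact ⟨m, (gen_nat A e b m).symm⟩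
  · rintro ⟨m, rfl⟩
    exact ⟨m, Ordinal.natCast_lt_omega0 m, gen_nat A e b m⟩

lemma gen_min (hb : ∀ M, ∀ d ∈ BooleanSubalgebra.closure (b '' Set.Iio M), d ∩ b M = ∅ ∨ b M \ d = ∅)
    (α : Ordinal.{0}) : MinE (alg (gen A e b) α) (gen A e b α) := by
  rcases lt_or_ge α Ordinal.omega0 with h | h
  · obtain ⟨n, rfl⟩ := Ordinal.lt_omega0.1 h
    intro c hc
    rw [alg_nat] at hc ⊢
    rw [gen_nat]
    rcases hb n c hc with h1 | h1
    · left
      rw [h1]
      exact empty_mem _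
    · right
      rw [h1]
      exact empty_mem _
  · exact gen_min_big A e b h

lemma gen_inv (hb : BooleanSubalgebra.closure (Set.range b) = BooleanSubalgebra.closure Fam)
    {α : Ordinal.{0}} (h0 : Ordinal.omega0 ≤ α) (hα : α < Ordinal.omega 1) :
    Inv (alg (gen A e b) α) := by
  induction α using Ordinal.lt_wf.induction with
  | _ α ih =>
    rcases h0.lt_or_eq with h1 | h1
    · rcases Ordinal.zero_or_succ_or_isSuccLimit α with h | ⟨β, h⟩ | h
      · rw [h] at h1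
        exact absurd h1 not_lt_zero
      · have hβ : β < α := by rw [← h]; exact Order.lt_succ β
        have h2 : Ordinal.omega0 ≤ β := by
          rw [← h] at h1
          exact Order.lt_succ_iff.1 h1
        have h3 := gen_inv_succ A e b h2 (ih β hβ h2 (hβ.trans hα))
        have h4 : Order.succ β = α := h
        rwa [h4] at h3
      · have key : ∀ x ∈ alg (gen A e b) α, ∃ β, Ordinal.omega0 ≤ β ∧ β < α ∧
            x ∈ alg (gen A e b) β := by
          intro x hx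
          obtain ⟨β, hβ, hxβ⟩ := alg_limit _ h hx
          exact ⟨max Ordinal.omega0 β, le_max_left _ _, max_lt h1 hβ,
            alg_mono _ (le_max_right _ _) hxβ⟩
        have hω := ih Ordinal.omega0 h1 le_rfl (h1.trans hα)
        refine ⟨alg_countable hα, fun x => alg_mono _ h1.le (hω.sing x),
          fun m i r hr => alg_mono _ h1.le (hω.zone m i r hr), ?_, ?_⟩
        · intro a ha m
          obtain ⟨β, h2, h3, h4⟩ := key a ha
          exact (ih β h3 h2 (h3.trans hα)).db a h4 m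
        · intro a ha
          obtain ⟨β, h2, h3, h4⟩ := key a ha
          exact (ih β h3 h2 (h3.trans hα)).fine a h4
    · have h2 : alg (gen A e b) α = BooleanSubalgebra.closure Fam := by
        rw [← h1, alg_omega, hb]
      rw [h2]
      apply base_inv
      rw [← h2]
      exact alg_countable hα

/-- tasks are done -/
lemma gen_task (hb : BooleanSubalgebra.closure (Set.range b) = BooleanSubalgebra.closure Fam)
    {ξ : Ordinal.{0}} (h0 : Ordinal.omega0 ≤ ξ) (hξ : ξ < Ordinal.omega 1) {m i r : ℕ}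
    (hr : r < 2 ^ i) {a : Set X} (ha : a ∈ alg (gen A e b) (Order.succ ξ))
    (he : e ξ = (Encodable.encode (m, i, r), a)) :
    ∃ t ⊆ S i r, emb m t ∈ alg (gen A e b) (Order.succ (Order.succ ξ)) ∧
      ∀ᶠ k in atTop, dif k t = - dif k (row m a) := by
  have h1 : Ordinal.omega0 ≤ Order.succ ξ := h0.trans (Order.le_succ ξ)
  have hI : Inv (alg (gen A e b) (Order.succ ξ)) := gen_inv hb h1 (succ_lt_W hξ)
  rcases gen_big A e b h1 with h | ⟨h, -⟩
  · obtain ⟨-, -, ⟨β, hβ, m', i', r', h2, h3, t, ht, ht2, ht3⟩ | ⟨h2, -⟩⟩ := h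
    · have hβξ : ξ = β := Order.succ_injective hβ
      subst hβξ
      rw [he] at h2 ht3
      have h4 := Encodable.encode_injective h2
      simp only [Prod.mk.injEq] at h4
      obtain ⟨rfl, rfl, rfl⟩ := h4
      refine ⟨t, ht, ?_, ht3⟩
      rw [← ht2]
      exact gen_mem _ (Order.lt_succ _)
    · exact absurd ⟨ξ, rfl⟩ h2
  · exfalso
    apply h
    obtain ⟨t, ht, h2, h3, h4⟩ := task hI m (b := row m a) (hI.emb_row ha m) hr
    refine ⟨emb m t, h2, h3, Or.inl ⟨ξ, rfl, m, i, r, ?_, hr, t, ht, rfl, ?_⟩⟩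
    · rw [he]
    · rw [he]
      exact h4

/-- the closure club -/
def C0 (A : Ordinal.{0} → Set Ordinal.{0}) (e : Ordinal.{0} → ℕ × Set X) (b : ℕ → Set X) :
    Set Ordinal.{0} :=
  {γ | γ < Ordinal.omega 1 ∧ Order.IsSuccLimit γ ∧ ∀ β < γ, ∀ n : ℕ, ∀ a ∈ alg (gen A e b) β,
    ∃ ξ, β ≤ ξ ∧ ξ < γ ∧ e ξ = (n, a)}

lemma C0_club (he : ∀ p, ∀ β < Ordinal.omega 1, ∃ ξ, β ≤ ξ ∧ ξ < Ordinal.omega 1 ∧ e ξ = p) :
    IsClub (C0 A e b) := by
  classical
  refine ⟨fun γ hγ => hγ.1, ?_, ?_⟩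
  · intro β0 hβ0
    have hnext : ∀ γ : Ordinal.{0}, ∃ γ' : Ordinal.{0}, γ < Ordinal.omega 1 →
        γ' < Ordinal.omega 1 ∧ γ < γ' ∧
        ∀ n : ℕ, ∀ a ∈ alg (gen A e b) γ, ∃ ξ, γ ≤ ξ ∧ ξ < γ' ∧ e ξ = (n, a) := by
      intro γ
      by_cases hγ : γ < Ordinal.omega 1
      · have hc : Countable (alg (gen A e b) γ) := (alg_countable hγ).to_subtype
        choose ξ h1 h2 h3 using fun p : ℕ × (alg (gen A e b) γ) => he (p.1, p.2.1) γ hγ
        obtain ⟨b1, hb1, hb1'⟩ := bddω ξ h2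
        refine ⟨Order.succ (max γ b1), fun _ => ⟨succ_lt_W (max_lt hγ hb1),
          Order.lt_succ_iff.2 (le_max_left _ _), fun n a ha => ⟨ξ (n, ⟨a, ha⟩), h1 _, ?_, h3 _⟩⟩⟩
        exact Order.lt_succ_iff.2 ((hb1' _).trans (le_max_right _ _))
      · exact ⟨0, fun h => absurd h hγ⟩
    choose nx hnx using hnext
    let s : ℕ → Ordinal.{0} := fun i => nx^[i] β0
    have hs : ∀ i, s (i + 1) = nx (s i) := fun i => Function.iterate_succ_apply' nx i β0
    have hsW : ∀ i, s i < Ordinal.omega 1 := by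
      intro i
      induction i with
      | zero => exact hβ0
      | succ i ih =>
        rw [hs]
        exact (hnx _ ih).1
    have hlt : ∀ i, s i < s (i + 1) := by
      intro i
      rw [hs]
      exact (hnx _ (hsW i)).2.1
    have hle : ∀ i, s i ≤ ⨆ i, s i := fun i => Ordinal.le_iSup s i
    refine ⟨⨆ i, s i, ⟨Ordinal.iSup_lt_omega_one hsW, ?_, ?_⟩, hle 0⟩
    · refine ⟨?_, ?_⟩
      · intro hmin
        have h1 := hle 1
        have h2 : s 0 < ⨆ i, s i := (hlt 0).trans_le h1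
        exact hmin.not_lt h2
      · intro a ha
        have h1 := ha.lt
        obtain ⟨i, hi⟩ := Ordinal.lt_iSup_iff.1 h1
        exact ha.2 hi ((hlt i).trans_le (hle (i + 1)))
    · intro β hβ n a ha
      obtain ⟨i, hi⟩ := Ordinal.lt_iSup_iff.1 hβ
      obtain ⟨ξ, h1, h2, h3⟩ := (hnx _ (hsW i)).2.2 n a (alg_mono _ hi.le ha)
      rw [← hs] at h2
      exact ⟨ξ, hi.le.trans h1, h2.trans_le (hle (i + 1)), h3⟩
  · intro γ hγ hγ0 h
    refine ⟨hγ, ⟨?_, ?_⟩, ?_⟩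
    · intro hmin
      exact hmin.not_lt hγ0
    · intro a ha
      obtain ⟨δ, -, h1, h2⟩ := h a ha.lt
      exact ha.2 h1 h2
    · intro β hβ n a ha
      obtain ⟨δ, hδ, h1, h2⟩ := h β hβ
      obtain ⟨ξ, h3, h4, h5⟩ := hδ.2.2 β h1 n a ha
      exact ⟨ξ, h3, h4.trans h2, h5⟩

lemma cl_of_C0 (hb : BooleanSubalgebra.closure (Set.range b) = BooleanSubalgebra.closure Fam)
    {γ : Ordinal.{0}} (h0 : Ordinal.omega0 < γ) (hγ : γ ∈ C0 A e b) : Cl (alg (gen A e b) γ) := by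
  obtain ⟨hγW, hlim, hcl⟩ := hγ
  intro m u hu i r hr
  obtain ⟨β, hβ, huβ⟩ := alg_limit _ hlim hu
  obtain ⟨ξ, h1, h2, h3⟩ := hcl (max Ordinal.omega0 β) (max_lt h0 hβ) (Encodable.encode (m, i, r))
    (emb m u) (alg_mono _ (le_max_right _ _) huβ)
  have h4 : Ordinal.omega0 ≤ ξ := (le_max_left _ _).trans h1
  have h5 : emb m u ∈ alg (gen A e b) (Order.succ ξ) :=
    alg_mono _ (((le_max_right _ _).trans h1).trans (Order.le_succ ξ)) huβ
  obtain ⟨t, ht, ht1, ht2⟩ := gen_task hb h4 (h2.trans hγW) hr h5 h3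
  refine ⟨t, ht, alg_mono _ (hlim.succ_lt (hlim.succ_lt h2)).le ht1, ?_⟩
  rw [row_emb_self] at ht2
  exact ht2

lemma Kill.congr {B : BooleanSubalgebra (Set X)} {μ μ' : ℕ → Set X → ℝ} {a : Set X}
    (h : Kill B μ a) (hμ : ∀ k, ∀ x ∈ B, μ k x = μ' k x) : Kill B μ' a := by
  obtain ⟨C, h1, h2, h3, h4, h5, h6⟩ := h
  refine ⟨C, h1, h2, h3, h4, ?_, ?_⟩
  · intro R
    obtain ⟨k, j0, hj⟩ := h5 R
    refine ⟨k, j0, fun j hj0 => ?_⟩
    rw [← hμ k _ (h4 j)]
    exact hj j hj0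
  · intro R
    obtain ⟨k, j0, hj⟩ := h6 R
    refine ⟨k, j0, fun j hj0 => ?_⟩
    rw [← hμ k _ (union_mem (h2 j) (h4 j))]
    exact hj j hj0

lemma sSup_rat_lt (x : ℝ) : sSup {v : ℝ | ∃ q : ℚ, v = q ∧ (q : ℝ) < x} = x := by
  apply csSup_eq_of_forall_le_of_forall_lt_exists_gt
  · obtain ⟨q, hq⟩ := exists_rat_lt x
    exact ⟨q, q, rfl, hq⟩
  · rintro v ⟨q, rfl, hq⟩
    exact hq.le
  · intro w hw
    obtain ⟨q, h1, h2⟩ := exists_rat_btwn hw
    exact ⟨q, ⟨q, rfl, h2⟩, h1⟩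

end rec

/-- the tower under the diamond principle -/
theorem exists_tower (hD : Diamond) : ∃ a : Ordinal.{0} → Set X,
    (∀ α, MinE (alg a α) (a α)) ∧
    (∀ α, Ordinal.omega0 ≤ α → α < Ordinal.omega 1 → Inv (alg a α)) ∧
    ∀ μ : ℕ → Set X → ℝ, (∀ k, Adm (alg a (Ordinal.omega 1)) (μ k)) →
      (∀ x ∈ alg a (Ordinal.omega 1), ∃ K : ℝ, ∀ k, |μ k x| ≤ K) →
      Hot (alg a (Ordinal.omega 1)) μ Set.univ →
      ∀ β < Ordinal.omega 1, ∃ γ, β < γ ∧ γ < Ordinal.omega 1 ∧ Kill (alg a γ) μ (a γ) := by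
  classical
  obtain ⟨A, -, hA⟩ := hD
  obtain ⟨e, he⟩ := exists_enum hA
  obtain ⟨c, hc⟩ := fam_countable.exists_eq_range ⟨{((0 : ℕ), (⟨0, (true, 0)⟩ : Y))}, Or.inr ⟨_, rfl⟩⟩
  obtain ⟨b, hb1, hb2⟩ := exists_min_seq c
  rw [← hc] at hb2
  refine ⟨gen A e b, fun α => gen_min hb1 α, fun α h0 hα => gen_inv hb2 h0 hα, ?_⟩
  intro μ hμ hp hhot β hβ
  set W := Ordinal.omega.{0} 1 with hW
  -- the set to be guessed
  let Sμ : Set Ordinal.{0} := {ξ | ξ < W ∧ ∃ (k : ℕ) (q : ℚ) (a : Set X),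
    e ξ = (Encodable.encode (k, q), a) ∧ a ∈ alg (gen A e b) W ∧ (q : ℝ) < μ k a}
  -- the witnesses of unboundedness
  have hwit : ∀ R : ℕ, ∃ k, ∃ x, ∃ β' < W, x ∈ alg (gen A e b) β' ∧ (R : ℝ) ≤ |μ k x| := by
    intro R
    obtain ⟨k, x, hx, -, hR⟩ := hhot R
    obtain ⟨β', h1, h2⟩ := alg_limit _ omega_limit hx
    exact ⟨k, x, β', h1, h2, hR⟩
  choose kw xw βw hw1 hw2 hw3 using hwit
  obtain ⟨β1, hβ1, hβ1'⟩ := bddω βw hw1
  have hmax : max (max β β1) Ordinal.omega0 < W := max_lt (max_lt hβ hβ1) omega0_lt_W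
  obtain ⟨γ, ⟨hγC, hγβ⟩, hγS⟩ := hA Sμ (fun ξ hξ => hξ.1) _ (club_Ioi (C0_club he) hmax)
  have hγβ' : max (max β β1) Ordinal.omega0 < γ := hγβ
  have hγ1 : β < γ := ((le_max_left _ _).trans (le_max_left _ _)).trans_lt hγβ'
  have hγ2 : β1 < γ := ((le_max_right _ _).trans (le_max_left _ _)).trans_lt hγβ'
  have hγ3 : Ordinal.omega0 < γ := (le_max_right _ _).trans_lt hγβ'
  obtain ⟨hγW, hγlim, hγcl⟩ := id hγC
  have hle : alg (gen A e b) γ ≤ alg (gen A e b) W := alg_mono _ hγW.le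
  -- the guess is right
  have hguess : ∀ k, ∀ x ∈ alg (gen A e b) γ, gs A e γ k x = μ k x := by
    intro k x hx
    unfold gs
    rw [← sSup_rat_lt (μ k x)]
    congr 1
    ext v
    constructor
    · rintro ⟨q, rfl, ξ, hξ, hξe⟩
      rw [← hγS] at hξ
      obtain ⟨-, k', q', a, h1, h2, h3⟩ := hξ.1
      rw [hξe] at h1
      simp only [Prod.mk.injEq] at h1
      obtain ⟨h4, h5⟩ := h1
      have h6 := Encodable.encode_injective h4
      simp only [Prod.mk.injEq] at h6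
      obtain ⟨rfl, rfl⟩ := h6
      subst h5
      exact ⟨q, rfl, h3⟩
    · rintro ⟨q, rfl, hq⟩
      obtain ⟨β', h1, h2⟩ := alg_limit _ hγlim hx
      obtain ⟨ξ, -, h3, h4⟩ := hγcl β' h1 (Encodable.encode (k, q)) x h2
      refine ⟨q, rfl, ξ, ?_, h4⟩
      rw [← hγS]
      exact ⟨⟨h3.trans hγW, k, q, x, h4, hle hx, hq⟩, h3⟩
  have hI : Inv (alg (gen A e b) γ) := gen_inv hb2 hγ3.le hγW
  have hCl : Cl (alg (gen A e b) γ) := cl_of_C0 hb2 hγ3 hγC
  have hadm : ∀ k, Adm (alg (gen A e b) γ) (μ k) := by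
    intro k
    refine ⟨fun x hx y hy hxy => (hμ k).1 x (hle hx) y (hle hy) hxy, ?_⟩
    obtain ⟨K, hK⟩ := (hμ k).2
    exact ⟨K, fun x hx => hK x (hle hx)⟩
  have hhot' : Hot (alg (gen A e b) γ) μ Set.univ := by
    intro R
    obtain ⟨n, hn⟩ := exists_nat_ge R
    exact ⟨kw n, xw n, alg_mono _ ((hβ1' n).trans hγ2.le) (hw2 n), Set.subset_univ _,
      hn.trans (hw3 n)⟩
  obtain ⟨x, hx1, hx2, hx3⟩ := step hI hCl hadm (fun y hy => hp y (hle hy)) hhot'
  have hnot : ¬ ∃ β', γ = Order.succ β' := by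
    rintro ⟨β', h1⟩
    have h2 : β' < γ := by
      rw [h1]
      exact Order.lt_succ β'
    have h3 := hγlim.succ_lt h2
    rw [← h1] at h3
    exact lt_irrefl _ h3
  refine ⟨γ, hγ1, hγW, ?_⟩
  rcases gen_big A e b hγ3.le with h | ⟨h, -⟩
  · obtain ⟨-, -, ⟨β', h1, -⟩ | ⟨-, h2⟩⟩ := h
    · exact absurd ⟨β', h1⟩ hnot
    · exact h2.congr hguess
  · exfalso
    apply h
    exact ⟨x, hx1, hx2, Or.inr ⟨hnot, hx3.congr (fun k y hy => (hguess k y hy).symm)⟩⟩

end Pool.Agent.Helper96K9.MGN
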