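import Pool.Agent.Helper96K9.MGN.J

set_option autoImplicit false

open Filter Topology

namespace Pool.Agent.Helper96K9.MGN

section defs
variable {B : Type} [BooleanAlgebra B]

/-- the total variation of `μ` is at most `K` -/
def VarLE (μ : B → ℝ) (K : ℝ) : Prop :=
  ∀ s : Finset B, (∀ x ∈ s, ∀ y ∈ s, x ≠ y → Disjoint x y) → s.sup id = ⊤ →
    ∑ x ∈ s, |μ x| ≤ K

/-- finitely additive real valued functions of bounded variation -/
def IsMeasure (μ : B → ℝ) : Prop :=
  (∀ x y, Disjoint x y → μ (x ⊔ y) = μ x + μ y) ∧ ∃ K : ℝ, VarLE μ K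

end defs

/-- the Nikodym property -/
def NikodymProperty (B : Type) [BooleanAlgebra B] : Prop :=
  ∀ μ : ℕ → B → ℝ, (∀ n, IsMeasure (μ n)) → (∀ x, ∃ K : ℝ, ∀ n, |μ n x| ≤ K) →
    ∃ K : ℝ, ∀ n, VarLE (μ n) K

/-- the strong Nikodym property -/
def StrongNikodymProperty (B : Type) [BooleanAlgebra B] : Prop :=
  ∀ D : ℕ → Set B, Monotone D → (⋃ n, D n) = Set.univ →
    ∃ n₀, ∀ μ : ℕ → B → ℝ, (∀ n, IsMeasure (μ n)) → (∀ x ∈ D n₀, ∃ K : ℝ, ∀ n, |μ n x| ≤ K) →
      ∃ K : ℝ, ∀ n, VarLE (μ n) K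

lemma VarLE.abs_le {B : Type} [BooleanAlgebra B] {μ : B → ℝ} {K : ℝ} (h : VarLE μ K) (x : B) :
    |μ x| ≤ K := by
  classical
  have h1 := h {x, xᶜ} (by
    intro y hy z hz hyz
    simp only [Finset.mem_insert, Finset.mem_singleton] at hy hz
    rcases hy with rfl | rfl <;> rcases hz with rfl | rfl
    · exact absurd rfl hyz
    · exact disjoint_compl_right
    · exact disjoint_compl_left
    · exact absurd rfl hyz) (by simp)
  exact (Finset.single_le_sum (f := fun y => |μ y|) (fun y _ => abs_nonneg _)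
    (Finset.mem_insert_self x _)).trans h1

section transfer
variable {A : BooleanSubalgebra (Set X)}

open Classical in
/-- extension by zero -/
noncomputable def lift (μ : A → ℝ) : Set X → ℝ := fun x => if h : x ∈ A then μ ⟨x, h⟩ else 0

lemma lift_mem {μ : A → ℝ} {x : Set X} (h : x ∈ A) : lift μ x = μ ⟨x, h⟩ := by
  simp [lift, h]

lemma disj_sub {x y : A} : Disjoint x y ↔ Disjoint x.1 y.1 := by
  rw [disjoint_iff, disjoint_iff, Subtype.ext_iff]
  rfl

lemma adm_lift {μ : A → ℝ} (h : IsMeasure μ) : Adm A (lift μ) := by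
  refine ⟨fun x hx y hy hxy => ?_, ?_⟩
  · rw [lift_mem hx, lift_mem hy, lift_mem (union_mem hx hy)]
    exact h.1 ⟨x, hx⟩ ⟨y, hy⟩ (disj_sub.2 hxy)
  · obtain ⟨K, hK⟩ := h.2
    refine ⟨K, fun x hx => ?_⟩
    rw [lift_mem hx]
    exact hK.abs_le _

lemma varLE_of_bound {μ : A → ℝ} (hadd : ∀ x y, Disjoint x y → μ (x ⊔ y) = μ x + μ y) {K : ℝ}
    (hK : ∀ x, |μ x| ≤ K) : VarLE μ (2 * K) := by
  intro s hs _
  have h1 : Adm A (lift μ) := by
    refine ⟨fun x hx y hy hxy => ?_, K, fun x hx => ?_⟩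
    · rw [lift_mem hx, lift_mem hy, lift_mem (union_mem hx hy)]
      exact hadd ⟨x, hx⟩ ⟨y, hy⟩ (disj_sub.2 hxy)
    · rw [lift_mem hx]
      exact hK _
  have h2 := h1.sum_abs (K := K) (fun x hx => by rw [lift_mem hx]; exact hK _) s (fun x => x.1)
    (fun x _ => x.2) (fun x hx y hy hxy => disj_sub.1 (hs x hx y hy hxy))
  refine le_trans (le_of_eq ?_) h2
  apply Finset.sum_congr rfl
  intro x _
  rw [lift_mem x.2]

end transfer

/-- the Nikodym property of the final algebra -/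
theorem nikodym_of_tower (a : Ordinal.{0} → Set X)
    (hkill : ∀ μ : ℕ → Set X → ℝ, (∀ k, Adm (alg a (Ordinal.omega 1)) (μ k)) →
      (∀ x ∈ alg a (Ordinal.omega 1), ∃ K : ℝ, ∀ k, |μ k x| ≤ K) →
      Hot (alg a (Ordinal.omega 1)) μ Set.univ →
      ∀ β < Ordinal.omega 1, ∃ γ, β < γ ∧ γ < Ordinal.omega 1 ∧ Kill (alg a γ) μ (a γ)) :
    NikodymProperty (alg a (Ordinal.omega 1)) := by
  classical
  set W := Ordinal.omega.{0} 1 with hW
  set L := alg a W with hL
  intro ν hν hpν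
  by_contra hcon
  let μ : ℕ → Set X → ℝ := fun k => lift (ν k)
  have hμ : ∀ k, Adm L (μ k) := fun k => adm_lift (hν k)
  have hp : ∀ x ∈ L, ∃ K : ℝ, ∀ k, |μ k x| ≤ K := by
    intro x hx
    obtain ⟨K, hK⟩ := hpν ⟨x, hx⟩
    refine ⟨K, fun k => ?_⟩
    show |lift (ν k) x| ≤ K
    rw [lift_mem hx]
    exact hK k
  have hhot : Hot L μ Set.univ := by
    intro R
    by_contra h
    push Not at h
    apply hcon
    refine ⟨2 * R, fun k => varLE_of_bound (hν k).1 (fun x => ?_)⟩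
    have := h k x.1 x.2 (Set.subset_univ _)
    have h2 : μ k x.1 = ν k x := lift_mem x.2
    rw [h2] at this
    exact this.le
  let M : ℕ → Set X → ℝ := fun K x => ∑ k ∈ Finset.range (K + 1), var L (μ k) x
  have hM0 : ∀ K, ∀ x ∈ L, 0 ≤ M K x := fun K x hx =>
    Finset.sum_nonneg (fun k _ => (hμ k).var_nonneg hx)
  have hMs : ∀ K, ∀ x ∈ L, ∀ y ∈ L, M K x = M K (x ∩ y) + M K (x \ y) := by
    intro K x hx y hy
    rw [← Finset.sum_add_distrib]
    exact Finset.sum_congr rfl (fun k _ => (hμ k).var_split hx hy)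
  have hMm : ∀ K, ∀ x ∈ L, ∀ y ∈ L, x ⊆ y → M K x ≤ M K y := fun K x hx y hy hxy =>
    Finset.sum_le_sum (fun k _ => (hμ k).var_mono hy hx hxy)
  have hMK : ∀ K K', K ≤ K' → ∀ x ∈ L, M K x ≤ M K' x := by
    intro K K' hKK x hx
    apply Finset.sum_le_sum_of_subset_of_nonneg
    · intro k hk
      rw [Finset.mem_range] at hk ⊢
      omega
    · intro k _ _
      exact (hμ k).var_nonneg hx
  have hMv : ∀ K, ∀ x ∈ L, ∀ y ∈ L, y ⊆ x → |μ K y| ≤ M K x := by
    intro K x hx y hy hyx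
    refine ((hμ K).le_var hx hy hyx).trans ?_
    exact Finset.single_le_sum (f := fun k => var L (μ k) x) (fun k _ => (hμ k).var_nonneg hx)
      (Finset.mem_range.2 (Nat.lt_succ_self K))
  choose Q hQ1 hQ2 hQ3 using fun p : ℕ × ℕ => exists_pieces (A := L) (M p.1) (hM0 p.1) (hMs p.1)
    (ε := 1 / ((p.2 : ℝ) + 1)) (by positivity)
  -- all the pieces appear at some stage
  have hst : ∀ z : Σ p : ℕ × ℕ, {q // q ∈ Q p}, ∃ β < W, z.2.1 ∈ alg a β := by
    rintro ⟨p, q, hq⟩
    obtain ⟨β, h1, h2⟩ := alg_limit a omega_limit (hQ1 p q hq)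
    exact ⟨β, h1, h2⟩
  choose βf hβf1 hβf2 using hst
  obtain ⟨β0, hβ0, hβ0'⟩ := bddω βf hβf1
  obtain ⟨γ, hγ0, hγ, C, hanti, hCA, hdec, hxC, hk1, hk2⟩ := hkill μ hμ hp hhot β0 hβ0
  have hle : alg a γ ≤ L := alg_mono a hγ.le
  set x := a γ with hx
  have hxL : x ∈ L := gen_mem a hγ
  have hCL : ∀ j, C j ∈ L := fun j => hle (hCA j)
  have claim1 : ∀ K i : ℕ, ∃ j, M K (C j ∩ x) < 1 / ((i : ℝ) + 1) ∨ M K (C j \ x) < 1 / ((i : ℝ) + 1) := by
    intro K i
    have hQγ : ∀ q ∈ Q (K, i), q ∈ alg a γ := by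
      intro q hq
      have h1 := hβf2 ⟨(K, i), q, hq⟩
      exact alg_mono a ((hβ0' _).trans hγ0.le) h1
    have hall : ∀ s : Finset (Set X), (∀ q ∈ s, q ∈ alg a γ) → ∃ j, ∀ q ∈ s, C j ⊆ q ∨ Disjoint (C j) q := by
      intro s
      induction s using Finset.induction_on with
      | empty => exact fun _ => ⟨0, fun q hq => by simp at hq⟩
      | insert q s hq ih =>
        intro hs
        obtain ⟨j, hj⟩ := ih (fun q' hq' => hs q' (Finset.mem_insert_of_mem hq'))
        obtain ⟨j', hj'⟩ := hdec q (hs q (Finset.mem_insert_self _ _))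
        refine ⟨max j j', fun q' hq' => ?_⟩
        rcases Finset.mem_insert.1 hq' with rfl | hq'
        · exact hj'.imp (fun h => (hanti (le_max_right _ _)).trans h)
            (fun h => h.mono_left (hanti (le_max_right _ _)))
        · exact (hj q' hq').imp (fun h => (hanti (le_max_left _ _)).trans h)
            (fun h => h.mono_left (hanti (le_max_left _ _)))
    obtain ⟨j, hj⟩ := hall (Q (K, i)) hQγ
    refine ⟨j, ?_⟩
    by_cases hne : (C j).Nonempty
    · obtain ⟨z, hz⟩ := hne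
      obtain ⟨q, hq, hzq⟩ := hQ2 (K, i) z
      rcases hj q hq with h | h
      · have hqL := hQ1 (K, i) q hq
        rcases hQ3 (K, i) q hq x hxL with h1 | h1
        · left
          exact lt_of_le_of_lt (hMm K _ (inter_mem (hCL j) hxL) _ (inter_mem hqL hxL)
            (Set.inter_subset_inter_left _ h)) h1
        · right
          exact lt_of_le_of_lt (hMm K _ (sdiff_mem (hCL j) hxL) _ (sdiff_mem hqL hxL)
            (Set.sdiff_subset_sdiff_left h)) h1
      · exact absurd hzq (Set.disjoint_left.1 h hz)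
    · rw [Set.not_nonempty_iff_eq_empty] at hne
      left
      rw [hne, Set.empty_inter]
      have h1 := hMs K ∅ (empty_mem L) ∅ (empty_mem L)
      rw [Set.inter_self, Set.sdiff_self] at h1
      have h2 : M K ∅ = 0 := by linarith
      rw [h2]
      positivity
  have claim2 : (∀ K i : ℕ, ∃ j, M K (C j ∩ x) < 1 / ((i : ℝ) + 1)) ∨
      (∀ K i : ℕ, ∃ j, M K (C j \ x) < 1 / ((i : ℝ) + 1)) := by
    by_contra h
    push Not at h
    obtain ⟨⟨K1, i1, h1⟩, ⟨K2, i2, h2⟩⟩ := h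
    obtain ⟨j, hj⟩ := claim1 (max K1 K2) (max i1 i2)
    have hi1 : (1 : ℝ) / (((max i1 i2 : ℕ) : ℝ) + 1) ≤ 1 / ((i1 : ℝ) + 1) := by
      apply one_div_le_one_div_of_le (by positivity)
      have : (i1 : ℝ) ≤ ((max i1 i2 : ℕ) : ℝ) := by exact_mod_cast le_max_left _ _
      linarith
    have hi2 : (1 : ℝ) / (((max i1 i2 : ℕ) : ℝ) + 1) ≤ 1 / ((i2 : ℝ) + 1) := by
      apply one_div_le_one_div_of_le (by positivity)
      have : (i2 : ℝ) ≤ ((max i1 i2 : ℕ) : ℝ) := by exact_mod_cast le_max_right _ _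
      linarith
    rcases hj with h3 | h3
    · have h4 := hMK K1 (max K1 K2) (le_max_left _ _) _ (inter_mem (hCL j) hxL)
      have h5 := h1 j
      linarith
    · have h4 := hMK K2 (max K1 K2) (le_max_right _ _) _ (sdiff_mem (hCL j) hxL)
      have h5 := h2 j
      linarith
  obtain ⟨Kx, hKx⟩ := hp x hxL
  rcases claim2 with hcl | hcl
  · obtain ⟨k, j0, hj0⟩ := hk1 (Kx + 2)
    obtain ⟨j, hj⟩ := hcl k 0
    have h1 := hj0 (max j j0) (le_max_right _ _)
    have h2 : |μ k (x ∩ C (max j j0))| ≤ M k (C j ∩ x) := by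
      apply hMv k _ (inter_mem (hCL j) hxL) _ (inter_mem hxL (hCL _))
      rintro z ⟨hz1, hz2⟩
      exact ⟨hanti (le_max_left _ _) hz2, hz1⟩
    have h3 := (hμ k).split hxL (hCL (max j j0))
    have h4 := hKx k
    have h5 := abs_sub (μ k x) (μ k (x ∩ C (max j j0)))
    have h6 : μ k x - μ k (x ∩ C (max j j0)) = μ k (x \ C (max j j0)) := by linarith
    rw [h6] at h5
    simp at hj
    linarith
  · obtain ⟨k, j0, hj0⟩ := hk2 (Kx + 2)
    obtain ⟨j, hj⟩ := hcl k 0
    have h1 := hj0 (max j j0) (le_max_right _ _)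
    have h2 : |μ k (C (max j j0) \ x)| ≤ M k (C j \ x) := by
      apply hMv k _ (sdiff_mem (hCL j) hxL) _ (sdiff_mem (hCL _) hxL)
      exact Set.sdiff_subset_sdiff_left (hanti (le_max_left _ _))
    have h7 : C (max j j0) ∪ (x \ C (max j j0)) = x ∪ (C (max j j0) \ x) := by
      rw [Set.union_sdiff_self, Set.union_sdiff_self, Set.union_comm]
    rw [h7, (hμ k).union hxL (sdiff_mem (hCL _) hxL) Set.disjoint_sdiff_right] at h1
    have h4 := hKx k
    have h5 := abs_add_le (μ k x) (μ k (C (max j j0) \ x))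
    simp at hj
    linarith

/-- failure of the strong Nikodym property -/
theorem not_strong_of_tower (a : Ordinal.{0} → Set X)
    (hinv : ∀ α, Ordinal.omega0 ≤ α → α < Ordinal.omega 1 → Inv (alg a α)) :
    ¬ StrongNikodymProperty (alg a (Ordinal.omega 1)) := by
  classical
  intro hS
  set W := Ordinal.omega.{0} 1 with hW
  have hω : Inv (alg a Ordinal.omega0) := hinv _ le_rfl omega0_lt_W
  let D : ℕ → Set (alg a W) := fun n => {y | ∀ m, n ≤ m → BalE (row m y.1)}
  have hD1 : Monotone D := fun n n' hnn y hy m hm => hy m (hnn.trans hm)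
  have hD2 : (⋃ n, D n) = Set.univ := by
    rw [Set.eq_univ_iff_forall]
    intro y
    obtain ⟨α, h1, h2⟩ := alg_limit a omega_limit y.2
    have h3 := (hinv (max Ordinal.omega0 α) (le_max_left _ _) (max_lt omega0_lt_W h1)).fine y.1
      (alg_mono a (le_max_right _ _) h2)
    obtain ⟨n, hn⟩ := eventually_atTop.1 h3
    exact Set.mem_iUnion.2 ⟨n, fun m hm => (hn m hm).1⟩
  obtain ⟨n, hn⟩ := hS D hD1 hD2
  let μ : ℕ → alg a W → ℝ := fun k y => ((dif k (row n y.1) : ℤ) : ℝ)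
  have hadd : ∀ k, ∀ x y : alg a W, Disjoint x y → μ k (x ⊔ y) = μ k x + μ k y := by
    intro k x y hxy
    have h1 : Disjoint (row n x.1) (row n y.1) := row_disjoint (disj_sub.1 hxy)
    have h2 : row n (x ⊔ y).1 = row n x.1 ∪ row n y.1 := rfl
    show ((dif k (row n (x ⊔ y).1) : ℤ) : ℝ) = _
    rw [h2, dif_union h1]
    push_cast
    rfl
  have hcnt : ∀ s k (u : Set Y), cnt s k u ≤ 2 ^ k := fun s k u => by
    have := cnt_mono (s := s) (k := k) (Set.subset_univ u)
    rwa [cnt_univ] at this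
  have hbd : ∀ k, ∀ y : alg a W, |μ k y| ≤ (2 : ℝ) ^ k := by
    intro k y
    have h1 := hcnt true k (row n y.1)
    have h2 := hcnt false k (row n y.1)
    have h3 : |dif k (row n y.1)| ≤ ((2 ^ k : ℕ) : ℤ) := by
      unfold dif
      rw [abs_le]
      constructor <;> omega
    show |((dif k (row n y.1) : ℤ) : ℝ)| ≤ _
    rw [← Int.cast_abs]
    exact_mod_cast h3
  have hmeas : ∀ k, IsMeasure (μ k) := fun k =>
    ⟨hadd k, 2 * 2 ^ k, varLE_of_bound (hadd k) (hbd k)⟩
  obtain ⟨K, hK⟩ := hn μ hmeas (by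
    intro y hy
    obtain ⟨N, hN⟩ := eventually_atTop.1 (hy n le_rfl)
    refine ⟨∑ k ∈ Finset.range N, |μ k y|, fun k => ?_⟩
    by_cases hk : k < N
    · exact Finset.single_le_sum (f := fun k => |μ k y|) (fun i _ => abs_nonneg _)
        (Finset.mem_range.2 hk)
    · have h1 : μ k y = 0 := by
        show ((dif k (row n y.1) : ℤ) : ℝ) = 0
        rw [hN k (by omega)]
        simp
      rw [h1, abs_zero]
      exact Finset.sum_nonneg (fun i _ => abs_nonneg _))
  obtain ⟨k, hk⟩ := pow_unbounded_of_one_lt K (one_lt_two (α := ℝ))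
  -- the set of all positive points of level `k`
  let u : Set Y := {y | y.1 = k ∧ y.2.1 = true}
  have hfin : (emb n u).Finite := by
    apply (finite_levels n (k + 1)).subset
    rintro ⟨m, y⟩ ⟨h1, h2, -⟩
    exact ⟨h1, by omega⟩
  have hu : emb n u ∈ alg a W := alg_mono a omega0_lt_W.le (hω.finite_mem hfin)
  have h1 := (hK k).abs_le ⟨emb n u, hu⟩
  have h2 : μ k ⟨emb n u, hu⟩ = (2 : ℝ) ^ k := by
    show ((dif k (row n (emb n u)) : ℤ) : ℝ) = _
    rw [row_emb_self]
    unfold dif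
    have e1 : cnt true k u = 2 ^ k := by
      rw [← cnt_univ (s := true) (k := k)]
      apply cnt_congr
      intro t
      simp [u]
    have e2 : cnt false k u = 0 := by
      rw [← cnt_empty (s := false) (k := k)]
      apply cnt_congr
      intro t
      simp [u]
    rw [e1, e2]
    push_cast
    ring
  rw [h2, abs_of_pos (by positivity)] at h1
  linarith

/-- main theorem -/
theorem main (hD : Diamond) : ∃ (B : Type) (_ : BooleanAlgebra B), Infinite B ∧
    MinimallyGenerated B ∧ NikodymProperty B ∧ ¬ StrongNikodymProperty B := by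
  obtain ⟨a, h1, h2, h3⟩ := exists_tower hD
  refine ⟨alg a (Ordinal.omega 1), inferInstance, ?_, minGen_of_tower a _ (fun α _ => h1 α),
    nikodym_of_tower a h3, not_strong_of_tower a h2⟩
  have hω : Inv (alg a Ordinal.omega0) := h2 _ le_rfl omega0_lt_W
  have hmem : ∀ x : X, ({x} : Set X) ∈ alg a (Ordinal.omega 1) := fun x =>
    alg_mono a omega0_lt_W.le (hω.sing x)
  refine Infinite.of_injective (fun m : ℕ => (⟨{((m, ⟨0, (true, 0)⟩) : X)}, hmem _⟩ :
    alg a (Ordinal.omega 1))) ?_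
  intro m m' h
  have h4 := congrArg Subtype.val h
  simp only [Set.singleton_eq_singleton_iff, Prod.mk.injEq, and_true] at h4
  exact h4

end Pool.Agent.Helper96K9.MGN
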